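import Pool.Agent.Helper59.SAT.Cl

/-!
# k-SAT: the machine's hypotheses
-/

set_option autoImplicit false

namespace Pool.SatDet

open Finset Pool.Agent.Helper76.CDET

variable {n k : ℕ}

/-- the property: all clauses outside `S` can be satisfied simultaneously -/
def SatP (n k : ℕ) (S : Finset (Clause n k)) : Prop := ∃ a : Fin n → Bool, ∀ C, ¬ Sats a C → C ∈ S

/-- clauses with a negative dummy literal -/
def Dead (D : ℕ) (C : Clause n k) : Prop := ∃ i : Fin n, D * k ≤ i.val ∧ (i, false) ∈ C.1

/-- block clauses -/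
def IsBlk (D : ℕ) (s : Finset (Fin n)) : Prop := ∃ b : Fin D, s = blk n k b

open Classical in
/-- classification of the clauses -/
noncomputable def kp (D : ℕ) (C : Clause n k) : Option (Option (Clause n k ⊕ Clause n k)) :=
  if Dead D C then none
  else if IsBlk (k := k) D (supp C) then some (some (Sum.inr C)) else some (some (Sum.inl C))

theorem kp_none (D : ℕ) (C : Clause n k) : kp D C = none ↔ Dead D C := by
  unfold kp
  split_ifs <;> simp_all

theorem kp_inl (D : ℕ) (C x : Clause n k) : kp D C = some (some (Sum.inl x)) ↔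
    C = x ∧ ¬ Dead D x ∧ ¬ IsBlk (k := k) D (supp x) := by
  unfold kp
  split_ifs with h1 h2
  · constructor
    · intro h; simp at h
    · rintro ⟨rfl, h, -⟩; exact absurd h1 h
  · constructor
    · intro h; simp at h
    · rintro ⟨rfl, -, h⟩; exact absurd h2 h
  · constructor
    · intro h
      simp only [Option.some.injEq, Sum.inl.injEq] at h
      subst h
      exact ⟨rfl, h1, h2⟩
    · rintro ⟨rfl, -, -⟩; rfl

theorem kp_inr (D : ℕ) (C y : Clause n k) : kp D C = some (some (Sum.inr y)) ↔
    C = y ∧ ¬ Dead D y ∧ IsBlk (k := k) D (supp y) := by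
  unfold kp
  split_ifs with h1 h2
  · constructor
    · intro h; simp at h
    · rintro ⟨rfl, h, -⟩; exact absurd h1 h
  · constructor
    · intro h
      simp only [Option.some.injEq, Sum.inr.injEq] at h
      subst h
      exact ⟨rfl, h1, h2⟩
    · rintro ⟨rfl, -, -⟩; rfl
  · constructor
    · intro h; simp at h
    · rintro ⟨rfl, -, h⟩; exact absurd h h2

theorem cnt_kp_inl (D : ℕ) (S : Finset (Clause n k)) (x : Clause n k) :
    open Classical in cnt (kp D) S (Sum.inl x) =
      if x ∈ S ∧ ¬ Dead D x ∧ ¬ IsBlk (k := k) D (supp x) then 1 else 0 := by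
  classical
  rw [cnt_eq]
  split_ifs with h
  · rw [Finset.card_eq_one]
    refine ⟨x, ?_⟩
    ext C
    simp only [Finset.mem_filter, kp_inl, Finset.mem_singleton]
    constructor
    · rintro ⟨-, h1, -⟩; exact h1
    · rintro rfl; exact ⟨h.1, rfl, h.2⟩
  · rw [Finset.card_eq_zero, Finset.filter_eq_empty_iff]
    intro C hC hk
    rw [kp_inl] at hk
    obtain ⟨rfl, h2⟩ := hk
    exact h ⟨hC, h2⟩

theorem cnt_kp_inr (D : ℕ) (S : Finset (Clause n k)) (y : Clause n k) :
    open Classical in cnt (kp D) S (Sum.inr y) =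
      if y ∈ S ∧ ¬ Dead D y ∧ IsBlk (k := k) D (supp y) then 1 else 0 := by
  classical
  rw [cnt_eq]
  split_ifs with h
  · rw [Finset.card_eq_one]
    refine ⟨y, ?_⟩
    ext C
    simp only [Finset.mem_filter, kp_inr, Finset.mem_singleton]
    constructor
    · rintro ⟨-, h1, -⟩; exact h1
    · rintro rfl; exact ⟨h.1, rfl, h.2⟩
  · rw [Finset.card_eq_zero, Finset.filter_eq_empty_iff]
    intro C hC hk
    rw [kp_inr] at hk
    obtain ⟨rfl, h2⟩ := hk
    exact h ⟨hC, h2⟩

/-- a clause violated by the assignment of a choice is not dead -/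
theorem not_dead {D : ℕ} (c : Fin (D * k) → Bool) (C : Clause n k) (h : ¬ Sats (ext' D c) C) : ¬ Dead D C := by
  rintro ⟨i, hi, hC⟩
  exact h ⟨(i, false), hC, by simp [ext', not_lt.2 hi]⟩

/-- the assignment is forced -/
theorem forced {D : ℕ} (hk : 0 < k) (hkn : k ≤ n) (hD : D * k ≤ n) (c : Fin (D * k) → Bool)
    (S : Finset (Clause n k)) (a : Fin n → Bool) (ha : ∀ C, ¬ Sats a C → C ∈ S)
    (hd : ∀ C ∈ S, kp D C ≠ none)
    (hy : ∀ C ∈ S, ∀ z, kp D C = some (some (Sum.inr z)) →
      ∃ b : Fin D, z = vcl (ext' D c) (blk n k b) (card_blk hk hD b b.2)) : a = ext' D c := by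
  funext i
  by_cases hi : i.val < D * k
  · have hb : i.val / k < D := by
      rw [Nat.div_lt_iff_lt_mul hk]
      exact hi
    set b : Fin D := ⟨i.val / k, hb⟩
    have hcard := card_blk (n := n) hk hD b b.2
    have h1 := not_sats_vcl a (blk n k b) hcard
    have h2 := ha _ h1
    have h3 : kp D (vcl a (blk n k b) hcard) = some (some (Sum.inr (vcl a (blk n k b) hcard))) := by
      rw [kp_inr]
      refine ⟨rfl, ?_, ?_⟩
      · rw [← kp_none]
        exact hd _ h2
      · rw [supp_vcl]
        exact ⟨b, rfl⟩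
    obtain ⟨b', hb'⟩ := hy _ h2 _ h3
    have h4 : (i, !a i) ∈ (vcl a (blk n k b) hcard).1 := by
      rw [mem_vcl]
      refine ⟨?_, rfl⟩
      simp [blk, b]
    rw [hb', mem_vcl] at h4
    have h5 := h4.2
    simp only at h5
    cases h6 : a i <;> cases h7 : (ext' D c : Fin n → Bool) i <;> simp_all
  · have h0 : (ext' D c : Fin n → Bool) i = false := by simp [ext', hi]
    rw [h0]
    by_contra h1
    rw [Bool.not_eq_false] at h1
    obtain ⟨s, hs1, -, hs2⟩ := Finset.exists_subsuperset_card_eq (s := {i}) (t := Finset.univ) (n := k)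
      (Finset.subset_univ _) (by simp; omega) (by simp; exact hkn)
    have h2 := ha _ (not_sats_vcl a s hs2)
    apply hd _ h2
    rw [kp_none]
    refine ⟨i, not_lt.1 hi, ?_⟩
    rw [mem_vcl]
    exact ⟨hs1 (Finset.mem_singleton_self i), by simp [h1]⟩

end Pool.SatDet
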