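import Pool.Agent.Helper59.SAT.NumPf2

/-!
# k-SAT: numbers for Pfaffians with cofactors, the theorem
-/

set_option autoImplicit false

namespace Pool.SatDet

open Finset Real Pool.TDM

/-- one choice of the parameters -/
theorem pf_step {ε e δ θ Λ R : ℝ} {K n k m d ν T : ℕ} (he0 : 0 < e) (he1 : e ≤ 1) (heε : e ≤ ε)
    (hδ : δ = e / 8) (hθ : θ = log 2 * (1 + δ)) (hΛ : Λ = log ((1 + δ) / δ)) (hΛ0 : 0 < Λ)
    (hR : R = 102 / e) (hKr : R ^ 2 * (Λ + 1) ≤ K) (hK1 : 10404 ≤ K)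
    (hKk : K ≤ k) (hKn : K * k ≤ n) (hd : 1 ≤ d)
    (hmd : (m * d : ℝ) ≤ 2 ^ ((k : ℝ) / K) * n.choose k) (hnd : n * d ≤ n.choose k) (hT : 1 ≤ T)
    (hνN : (ν : ℝ) ≤ n.choose k)
    (H : ∀ D m' : ℕ, 1 ≤ D → D * k ≤ n → m ≤ m' → D < m' → ∀ q : ℝ, 0 < q → q < 1 →
      q ^ (ν + D * (d - 1)) * 2 ^ (D * k) ≤
        (∑ j ∈ range (D * k + 1), ((D * k).choose j : ℝ) * q ^ (n.choose k - (n - j).choose k - j)) *
        (T * ∑ j ∈ range (2 * D + 1), ((2 * m' - 2 * D - 1 + j).choose j : ℝ) * (1 - q ^ d) ^ j)) :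
    (1 - ν / n.choose k - ε) * n * log 2 ≤ log T := by
  have hT0 : (0 : ℝ) < T := by exact_mod_cast hT
  have hk0n : 0 < k := by omega
  have hn0n : 0 < n := lt_of_lt_of_le (Nat.mul_pos (by omega) hk0n) hKn
  have hkK : (K : ℝ) ≤ k := by exact_mod_cast hKk
  have hK0 : (0 : ℝ) < K := by
    have : 0 < K := by omega
    exact_mod_cast this
  have hk0 : (0 : ℝ) < k := by exact_mod_cast hk0n
  have hk1 : (1 : ℝ) ≤ k := by exact_mod_cast hk0n
  have hn0 : (0 : ℝ) < n := by exact_mod_cast hn0n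
  have hKkn : (K : ℝ) * k ≤ n := by exact_mod_cast hKn
  have hkn : (k : ℝ) ≤ n / K := by
    rw [le_div_iff₀ hK0]
    linarith
  have hKleN : (K : ℝ) ≤ n := by
    have h1 : K * 1 ≤ K * k := Nat.mul_le_mul_left _ hk0n
    have h2 : K ≤ n := by omega
    exact_mod_cast h2
  have hkn3 : k + 3 ≤ n := by
    have h1 : 2 * k ≤ K * k := Nat.mul_le_mul_right _ (by omega)
    omega
  have hn28 : 28 ≤ n := by omega
  have hlog2 := Real.log_two_gt_d9
  have hlog2' := Real.log_two_lt_d9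
  have hδ0 : 0 < δ := by rw [hδ]; positivity
  have hδ1 : δ ≤ 1 / 4 := by rw [hδ]; linarith
  have hθ0 : 0 < θ := by rw [hθ]; positivity
  have hθ1 : θ ≤ 0.87 := by
    rw [hθ]
    calc log 2 * (1 + δ) ≤ 0.6932 * (1 + 1 / 4) := by gcongr; linarith
      _ ≤ 0.87 := by norm_num
  have hθ2 : 0.69 ≤ θ := by
    rw [hθ]
    calc (0.69 : ℝ) ≤ log 2 * 1 := by linarith
      _ ≤ log 2 * (1 + δ) := by gcongr; linarith
  have hbig := choose_big n k (by omega) hkn3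
  have hNpos : 0 < n.choose k := Nat.choose_pos (by omega)
  obtain ⟨N, hN⟩ : ∃ N : ℝ, N = (n.choose k : ℝ) := ⟨_, rfl⟩
  have hnN : n * 2 ≤ n.choose k := le_trans (Nat.mul_le_mul_left _ (by omega)) hbig
  have hN0 : 0 < N := by rw [hN]; exact_mod_cast hNpos
  have hN2 : (n : ℝ) * 2 ≤ N := by rw [hN]; exact_mod_cast hnN
  have hNsq : (n : ℝ) * n * 0.96 ≤ N := by
    have h1 : ((n * (n - 1) : ℕ) : ℝ) ≤ (n.choose k : ℝ) := by exact_mod_cast hbig
    rw [Nat.cast_mul, Nat.cast_sub (by omega), Nat.cast_one, ← hN] at h1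
    have h2 : (28 : ℝ) ≤ n := by exact_mod_cast hn28
    have h3 : (n : ℝ) * 0.96 ≤ n - 1 := by linarith
    calc (n : ℝ) * n * 0.96 = n * (n * 0.96) := by ring
      _ ≤ n * (n - 1) := by gcongr
      _ ≤ N := h1
  obtain ⟨x, hx⟩ : ∃ x : ℝ, x = θ * n / N := ⟨_, rfl⟩
  have hx0 : 0 < x := by rw [hx]; positivity
  have hxN : x * N = θ * n := by rw [hx]; field_simp
  have hxn : x * n ≤ 1 := by
    rw [hx, div_mul_eq_mul_div, div_le_iff₀ hN0]
    calc θ * n * n ≤ 0.87 * n * n := by gcongr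
      _ = n * n * 0.96 - 0.09 * (n * n) := by ring
      _ ≤ n * n * 0.96 := by
          have : 0 ≤ 0.09 * ((n : ℝ) * n) := by positivity
          linarith
      _ ≤ 1 * N := by linarith
  have hx1 : x ≤ 1 / 2 := by
    rw [hx, div_le_iff₀ hN0]
    calc θ * n ≤ 1 * n := by gcongr; linarith
      _ ≤ 1 / 2 * N := by linarith
  obtain ⟨q, hq⟩ : ∃ q : ℝ, q = 1 - x := ⟨_, rfl⟩
  have hq0 : 0 < q := by linarith
  have hq1 : q < 1 := by linarith
  -- D and m'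
  obtain ⟨D, hD⟩ : ∃ D : ℕ, D = n / k := ⟨_, rfl⟩
  have hDk : D * k ≤ n := by rw [hD]; exact Nat.div_mul_le_self n k
  have hD1 : 1 ≤ D := by
    rw [hD, Nat.one_le_div_iff hk0n]
    omega
  have hD1r : (1 : ℝ) ≤ D := by exact_mod_cast hD1
  have hD0 : (0 : ℝ) < D := by linarith
  have hDkr : (D : ℝ) * k ≤ n := by exact_mod_cast hDk
  have hnkr : (n : ℝ) ≤ k + D * k := by
    have h1 := Nat.lt_div_mul_add (a := n) (b := k) hk0n
    rw [← hD] at h1
    have : n ≤ k + D * k := by omega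
    exact_mod_cast this
  obtain ⟨m', hm'⟩ : ∃ m' : ℕ, m' = max m (D + 1) := ⟨_, rfl⟩
  have hmm' : m ≤ m' := by rw [hm']; exact le_max_left _ _
  have hDm' : D < m' := by rw [hm']; exact lt_of_lt_of_le (Nat.lt_succ_self D) (le_max_right _ _)
  have hd0 : (0 : ℝ) ≤ d := Nat.cast_nonneg _
  have hndr : (n : ℝ) * d ≤ N := by
    rw [hN]
    exact_mod_cast hnd
  obtain ⟨G, hG⟩ : ∃ G : ℝ, G = 2 ^ ((k : ℝ) / K) := ⟨_, rfl⟩
  have hG1 : 1 ≤ G := by
    rw [hG]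
    exact Real.one_le_rpow (by norm_num) (by positivity)
  have hG0 : 0 < G := by linarith
  have hDd : (D : ℝ) * d ≤ N / k := by
    rw [le_div_iff₀ hk0]
    calc (D : ℝ) * d * k = (D * k) * d := by ring
      _ ≤ n * d := by gcongr
      _ ≤ N := hndr
  have hGN : 0 < G * N := by positivity
  have hm'd : (m' : ℝ) * d ≤ 2 * G * N := by
    rw [← hG, ← hN] at hmd
    rcases max_choice m (D + 1) with h | h
    · rw [hm', h]
      linarith
    · rw [hm', h]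
      push_cast
      have h1 : ((D : ℝ) + 1) * d ≤ 2 * (D * d) := by
        calc ((D : ℝ) + 1) * d ≤ (D + D) * d := by gcongr
          _ = _ := by ring
      have h4 : N / k ≤ N := div_le_self hN0.le hk1
      have h5 : N ≤ G * N := by
        calc N = 1 * N := by ring
          _ ≤ G * N := by gcongr
      linarith
  obtain ⟨y, hy⟩ : ∃ y : ℝ, y = 4 * θ * G * n := ⟨_, rfl⟩
  have hH := H D m' hD1 hDk hmm' hDm' q hq0 hq1
  have hΛk : Λ ≤ k := by
    have h2 : 1 * (Λ + 1) ≤ R ^ 2 * (Λ + 1) := by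
      have h3 : 1 ≤ R := by
        rw [hR, le_div_iff₀ he0]
        linarith
      have : (1 : ℝ) ≤ R ^ 2 := one_le_pow₀ h3
      gcongr
    linarith
  have hZ := second_sum' n k (D * k) δ Λ hδ0 hδ1 hΛ (by omega) hΛk hkn3 hDk q
    (by rw [hq, hx, hθ, hN]) hq0.le
  have h1q : 1 - q = x := by rw [hq]; ring
  have hS := sum_pf_le m' D d q y hD1 hDm' hq0 hq1
    (by
      rw [h1q]
      calc 2 * (m' : ℝ) * (d * x) = 2 * x * (m' * d) := by ring
        _ ≤ 2 * x * (2 * G * N) := by gcongr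
        _ = 4 * G * (x * N) := by ring
        _ = y := by rw [hxN, hy]; ring) (by
      rw [hy]
      have h1 : (D : ℝ) ≤ n := by
        calc (D : ℝ) = D * 1 := by ring
          _ ≤ D * k := by gcongr
          _ ≤ n := hDkr
      calc 2 * (D : ℝ) ≤ 2 * n := by linarith
        _ ≤ 4 * 0.69 * 1 * n := by linarith
        _ ≤ 4 * θ * G * n := by gcongr)
  -- the sum of side U
  have hbase : exp 1 * y / (2 * D) ≤ 10 * k * G := by
    rw [hy]
    exact base_le hD1r hk0 hG0 hθ0 hθ1 hnkr hn0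
  have hy0 : 0 < y := by rw [hy]; positivity
  have hmain : q ^ (ν + D * (d - 1)) * 2 ^ (D * k) ≤
      (6 * (exp 1 * k / Λ) ^ (Λ * n / k : ℝ)) * (T * (10 * k * G) ^ (2 * D)) := by
    refine hH.trans ?_
    have hqd : 0 ≤ 1 - q ^ d := by
      have := pow_le_one₀ (n := d) hq0.le hq1.le
      linarith
    have hA : 0 ≤ ∑ j ∈ range (2 * D + 1), ((2 * m' - 2 * D - 1 + j).choose j : ℝ) * (1 - q ^ d) ^ j :=
      Finset.sum_nonneg fun j _ => by positivity
    have hB : ∑ j ∈ range (2 * D + 1), ((2 * m' - 2 * D - 1 + j).choose j : ℝ) * (1 - q ^ d) ^ j ≤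
        (10 * k * G) ^ (2 * D) := hS.trans (by gcongr)
    exact mul_le_mul hZ (mul_le_mul_of_nonneg_left hB hT0.le) (mul_nonneg hT0.le hA) (by positivity)
  have hL := Real.log_le_log (by positivity) hmain
  have hbΛ : 0 < exp 1 * k / Λ := by positivity
  rw [Real.log_mul (by positivity) (by positivity), Real.log_mul (by positivity) (by positivity),
    Real.log_mul (by positivity) (by positivity), Real.log_mul (by positivity) (by positivity),
    Real.log_pow, Real.log_pow, Real.log_pow, Real.log_rpow hbΛ,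
    Real.log_mul (by positivity) (by positivity)] at hL
  have hlogG : log G = k / K * log 2 := by rw [hG, Real.log_rpow (by norm_num)]
  rw [hlogG] at hL
  push_cast at hL
  have hR0 : 0 < R := by rw [hR]; positivity
  have hR2 : R ^ 2 * Λ ≤ R ^ 2 * (Λ + 1) := by
    have : 0 < R ^ 2 := by positivity
    gcongr
    linarith
  have hR3 : R ^ 2 ≤ R ^ 2 * (Λ + 1) := by
    have : 0 < R ^ 2 := by positivity
    calc R ^ 2 = R ^ 2 * 1 := by ring
      _ ≤ R ^ 2 * (Λ + 1) := by gcongr; linarith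
  have ht1 := term1 (n := (n : ℝ)) hΛ0 hk0 hR0 hn0.le (by linarith : R ^ 2 * Λ ≤ k)
  have ht2 := term2 (K := (K : ℝ)) hk1 hR0 hn0.le hK0 (by linarith : R ^ 2 ≤ k) hDkr
  have hpr := price (ν := (ν : ℝ)) (Nat.cast_nonneg ν) (by rw [hN]; exact hνN) hk1 hN0 hx0 hx1 hxN
    hxn hθ1 hθ0 hn0 hq hDd
  have hβ1 : (ν : ℝ) / N ≤ 1 := by
    rw [div_le_one hN0, hN]
    exact hνN
  rw [← hN]
  exact conclude he0 he1 heε hδ hθ (by positivity) hβ1 hn0 hk0 hK0 hkK hkn hKleN hR (by linarith)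
    hnkr ht1 ht2 hpr hL

/-- THE NUMBERS, Pfaffians of order `2 m`, entries of degree `d`, cofactors of degree `ν` -/
theorem numericsPf (ε : ℝ) (hε : 0 < ε) : ∃ K : ℕ, 1 ≤ K ∧ ∀ n k m d ν T : ℕ, K ≤ k → K * k ≤ n →
    1 ≤ d → (m * d : ℝ) ≤ 2 ^ ((k : ℝ) / K) * n.choose k → n * d ≤ n.choose k → 1 ≤ T →
    (∀ D m' : ℕ, 1 ≤ D → D * k ≤ n → m ≤ m' → D < m' → ∀ q : ℝ, 0 < q → q < 1 →
      q ^ (ν + D * (d - 1)) * 2 ^ (D * k) ≤
        (∑ j ∈ range (D * k + 1), ((D * k).choose j : ℝ) * q ^ (n.choose k - (n - j).choose k - j)) *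
        (T * ∑ j ∈ range (2 * D + 1), ((2 * m' - 2 * D - 1 + j).choose j : ℝ) * (1 - q ^ d) ^ j)) →
    (2 : ℝ) ^ ((1 - ν / n.choose k - ε) * n : ℝ) ≤ T := by
  obtain ⟨e, he⟩ : ∃ e : ℝ, e = min ε 1 := ⟨_, rfl⟩
  have he0 : 0 < e := by rw [he]; exact lt_min hε one_pos
  have he1 : e ≤ 1 := by rw [he]; exact min_le_right _ _
  have heε : e ≤ ε := by rw [he]; exact min_le_left _ _
  obtain ⟨δ, hδ⟩ : ∃ δ : ℝ, δ = e / 8 := ⟨_, rfl⟩
  have hδ0 : 0 < δ := by rw [hδ]; positivity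
  obtain ⟨Λ, hΛ⟩ : ∃ Λ : ℝ, Λ = log ((1 + δ) / δ) := ⟨_, rfl⟩
  have hΛ0 : 0 < Λ := by
    rw [hΛ]
    apply Real.log_pos
    rw [lt_div_iff₀ hδ0]
    linarith
  obtain ⟨R, hR⟩ : ∃ R : ℝ, R = 102 / e := ⟨_, rfl⟩
  have hR102 : 102 ≤ R := by
    rw [hR, le_div_iff₀ he0]
    linarith
  have hKr : R ^ 2 * (Λ + 1) ≤ (⌈R ^ 2 * (Λ + 1)⌉₊ : ℝ) := Nat.le_ceil _
  obtain ⟨K, hK⟩ : ∃ K : ℕ, K = ⌈R ^ 2 * (Λ + 1)⌉₊ := ⟨_, rfl⟩
  rw [← hK] at hKr
  have hK1 : 10404 ≤ K := by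
    have h1 : (102 : ℝ) ^ 2 * 1 ≤ R ^ 2 * (Λ + 1) := by
      gcongr
      linarith
    have h2 : ((10404 : ℕ) : ℝ) ≤ K := by
      push_cast
      norm_num at h1
      linarith
    exact_mod_cast h2
  refine ⟨K, by omega, ?_⟩
  intro n k m d ν T hKk hKn hd hmd hnd hT H
  have hT1 : (1 : ℝ) ≤ T := by exact_mod_cast hT
  have hT0 : (0 : ℝ) < T := by linarith
  by_cases hνN : (ν : ℝ) ≤ n.choose k
  · have h1 := pf_step he0 he1 heε hδ rfl hΛ hΛ0 hR hKr hK1 hKk hKn hd hmd hnd hT hνN H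
    have h2 : (2 : ℝ) ^ ((1 - ν / n.choose k - ε) * n : ℝ) =
        exp ((1 - ν / n.choose k - ε) * n * log 2) := by
      rw [Real.rpow_def_of_pos (by norm_num)]
      congr 1
      ring
    rw [h2, ← Real.exp_log hT0]
    exact Real.exp_le_exp.2 h1
  · push Not at hνN
    have hkn : k ≤ n := by
      have h1 : 1 * k ≤ K * k := Nat.mul_le_mul_right _ (by omega)
      omega
    have hN0 : (0 : ℝ) < n.choose k := by
      have : 0 < n.choose k := Nat.choose_pos hkn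
      exact_mod_cast this
    have h1 : (1 - ν / n.choose k - ε) * n ≤ 0 := by
      have : 1 ≤ (ν : ℝ) / n.choose k := by
        rw [le_div_iff₀ hN0, one_mul]
        exact hνN.le
      apply mul_nonpos_of_nonpos_of_nonneg _ (Nat.cast_nonneg n)
      linarith
    calc (2 : ℝ) ^ ((1 - ν / n.choose k - ε) * n : ℝ) ≤ 2 ^ (0 : ℝ) :=
          Real.rpow_le_rpow_of_exponent_le (by norm_num) h1
      _ = 1 := Real.rpow_zero _
      _ ≤ T := hT1

end Pool.SatDet
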