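import Mathlib

/-!
# The number of multi-indices is small
-/

set_option autoImplicit false

namespace Pool.SatDet

theorem choose_le_exp (a L : ℕ) (l : ℝ) (hl : 0 < l) (hL : (L : ℝ) ≤ l) :
    ((a + L).choose L : ℝ) ≤ Real.exp (l * (1 + Real.log (1 + (a + 1) / l))) := by
  set x : ℝ := l / (a + 1 + l) with hx
  have ha : (0 : ℝ) < a + 1 := by positivity
  have hx0 : 0 < x := by positivity
  have hx1 : x < 1 := by
    rw [hx, div_lt_one (by positivity)]
    linarith
  have h1x : 1 - x = (a + 1) / (a + 1 + l) := by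
    rw [hx]
    field_simp
    ring
  have hs := tsum_choose_mul_geometric_of_norm_lt_one a (r := x) (by
    rw [Real.norm_eq_abs, abs_of_pos hx0]
    exact hx1)
  have hsum := summable_choose_mul_geometric_of_norm_lt_one a (r := x) (by
    rw [Real.norm_eq_abs, abs_of_pos hx0]
    exact hx1)
  have h1 : ((L + a).choose a : ℝ) * x ^ L ≤ 1 / (1 - x) ^ (a + 1) := by
    rw [← hs]
    exact hsum.le_tsum L fun j _ => by positivity
  have h2 : ((a + L).choose L : ℝ) = ((L + a).choose a : ℝ) := by
    rw [Nat.add_comm L a]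
    exact_mod_cast Nat.choose_symm_add.symm
  have h3 : 1 / (1 - x) ^ (a + 1) = (1 + l / (a + 1)) ^ (a + 1) := by
    rw [← one_div_pow]
    congr 1
    rw [h1x]
    field_simp
  have h4 : (1 + l / (a + 1)) ^ (a + 1) ≤ Real.exp l := by
    have h5 : 1 + l / (a + 1) ≤ Real.exp (l / (a + 1)) := by
      have := Real.add_one_le_exp (l / ((a : ℝ) + 1))
      linarith
    calc (1 + l / (a + 1)) ^ (a + 1) ≤ (Real.exp (l / (a + 1))) ^ (a + 1) :=
          pow_le_pow_left₀ (by positivity) h5 _
      _ = Real.exp l := by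
          rw [← Real.exp_nat_mul]
          congr 1
          push_cast
          field_simp
  have h6 : x⁻¹ = 1 + (a + 1) / l := by
    rw [hx]
    field_simp
    ring
  have h7 : (x⁻¹) ^ L ≤ Real.exp (l * Real.log (1 + (a + 1) / l)) := by
    have h8 : 0 ≤ Real.log (1 + ((a : ℝ) + 1) / l) := Real.log_nonneg (by
      have : 0 ≤ ((a : ℝ) + 1) / l := by positivity
      linarith)
    calc (x⁻¹) ^ L = Real.exp (L * Real.log (1 + (a + 1) / l)) := by
          rw [h6, Real.exp_nat_mul, Real.exp_log (by positivity)]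
      _ ≤ Real.exp (l * Real.log (1 + (a + 1) / l)) := by
          rw [Real.exp_le_exp]
          gcongr
  have h9 : ((L + a).choose a : ℝ) = ((L + a).choose a : ℝ) * x ^ L * (x⁻¹) ^ L := by
    rw [mul_assoc, ← mul_pow, mul_inv_cancel₀ hx0.ne', one_pow, mul_one]
  rw [h2, h9]
  calc ((L + a).choose a : ℝ) * x ^ L * (x⁻¹) ^ L
      ≤ Real.exp l * Real.exp (l * Real.log (1 + (a + 1) / l)) := by
        refine mul_le_mul (h1.trans (h3.le.trans h4)) h7 (by positivity) (by positivity)
    _ = _ := by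
        rw [← Real.exp_add]
        congr 1
        ring

/-- the number of multi-indices of degree at most `L <= K lam n / k` in
`a <= n 2 ^ (k / (K0 lam))` variables is at most `2 ^ (eps n)` -/
theorem choose_small {ε lam : ℝ} {K K0 k n a L : ℕ} (hK1 : 1 ≤ K)
    (hK0 : 7 * K ≤ ε * K0) (hk3 : 3 ≤ k) (hn : 1 ≤ n) (hlam : 1 ≤ lam)
    (hlog : K0 * lam * Real.log k ≤ k) (ha : (a : ℝ) ≤ n * 2 ^ ((k : ℝ) / (K0 * lam)))
    (hL : (L : ℝ) ≤ K * lam * n / k) :
    ((a + L).choose L : ℝ) ≤ 2 ^ (ε * n : ℝ) := by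
  have hK1r : (1 : ℝ) ≤ K := by exact_mod_cast hK1
  have hkr : (3 : ℝ) ≤ k := by exact_mod_cast hk3
  have hnr : (1 : ℝ) ≤ n := by exact_mod_cast hn
  have hK0pos : (0 : ℝ) < K0 := by
    rcases Nat.eq_zero_or_pos K0 with h | h
    · rw [h, Nat.cast_zero, mul_zero] at hK0
      linarith
    · exact_mod_cast h
  have hεpos : 0 < ε := by
    by_contra h
    push Not at h
    have : ε * K0 ≤ 0 := mul_nonpos_of_nonpos_of_nonneg h hK0pos.le
    linarith
  set l : ℝ := K * lam * n / k with hldef
  have hl : 0 < l := by positivity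
  refine (choose_le_exp a L l hl hL).trans ?_
  rw [Real.rpow_def_of_pos (by norm_num), Real.exp_le_exp]
  have hlogk : 1 ≤ Real.log k := by
    rw [Real.le_log_iff_exp_le (by linarith)]
    have := Real.exp_one_lt_d9
    linarith
  set p : ℝ := 2 ^ ((k : ℝ) / (K0 * lam)) with hp
  have hp1 : 1 ≤ p := Real.one_le_rpow (by norm_num) (by positivity)
  have h1 : 1 + (a + 1) / l ≤ 3 * k * p := by
    have h2 : ((a : ℝ) + 1) / l ≤ 2 * k * p := by
      rw [div_le_iff₀ hl, hldef]
      have h3 : 2 * k * p * (K * lam * n / k) = 2 * p * (K * lam) * n := by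
        field_simp
      rw [h3]
      have h4 : (1 : ℝ) ≤ K * lam := by nlinarith
      have h5 : (1 : ℝ) ≤ p * n := by nlinarith
      nlinarith [mul_nonneg (sub_nonneg.2 h4) (by positivity : (0:ℝ) ≤ p * n)]
    have h3 : (1 : ℝ) ≤ k * p := by nlinarith
    linarith
  have h2 : Real.log (1 + (a + 1) / l) ≤ Real.log 3 + Real.log k + k / (K0 * lam) * Real.log 2 := by
    have h3 : Real.log (3 * k * p) = Real.log 3 + Real.log k + k / (K0 * lam) * Real.log 2 := by
      rw [Real.log_mul (by positivity) (by positivity), Real.log_mul (by norm_num) (by positivity),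
        hp, Real.log_rpow (by norm_num)]
    rw [← h3]
    exact Real.log_le_log (by positivity) h1
  have hlog3 : Real.log 3 ≤ 1.2 := by
    rw [Real.log_le_iff_le_exp (by norm_num)]
    have h := Real.exp_one_gt_d9
    have h' : Real.exp 1.2 = Real.exp 1 * Real.exp 0.2 := by
      rw [← Real.exp_add]
      norm_num
    have h'' := Real.add_one_le_exp (0.2 : ℝ)
    rw [h']
    nlinarith
  have hlog2 := Real.log_two_gt_d9
  have hlog2' := Real.log_two_lt_d9
  -- l * (...) = n * (K lam / k) * (...)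
  have h4 : l * (1 + Real.log (1 + (a + 1) / l)) ≤
      l * (1 + (1.2 + Real.log k + k / (K0 * lam) * Real.log 2)) := by
    gcongr
    linarith
  refine h4.trans ?_
  have hkl : l = n * (K * lam / k) := by rw [hldef]; ring
  have h5 : K * lam / k * Real.log k ≤ K / K0 := by
    rw [div_mul_eq_mul_div, div_le_div_iff₀ (by positivity) hK0pos]
    have : K * (K0 * lam * Real.log k) ≤ K * (k : ℝ) := by gcongr
    linarith
  have h6 : (K * lam / k : ℝ) ≤ K / K0 := by
    refine le_trans ?_ h5
    have : 0 ≤ (K * lam / k : ℝ) := by positivity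
    nlinarith
  have h7 : K * lam / k * (k / (K0 * lam) * Real.log 2) = K / K0 * Real.log 2 := by
    field_simp
  have h8 : (K : ℝ) / K0 ≤ ε / 7 := by
    rw [div_le_div_iff₀ hK0pos (by norm_num)]
    linarith
  have h9 : K * lam / k * (1 + (1.2 + Real.log k + k / (K0 * lam) * Real.log 2)) ≤ Real.log 2 * ε := by
    have h10 : K * lam / k * (1 + (1.2 + Real.log k + k / (K0 * lam) * Real.log 2)) =
        K * lam / k * 2.2 + K * lam / k * Real.log k + K * lam / k * (k / (K0 * lam) * Real.log 2) := by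
      ring
    rw [h10, h7]
    have h11 : (K : ℝ) / K0 * Real.log 2 ≤ K / K0 := by
      have : 0 ≤ (K : ℝ) / K0 := by positivity
      nlinarith
    nlinarith
  rw [hkl]
  calc n * (K * lam / k) * (1 + (1.2 + Real.log k + k / (K0 * lam) * Real.log 2))
      = n * (K * lam / k * (1 + (1.2 + Real.log k + k / (K0 * lam) * Real.log 2))) := by ring
    _ ≤ n * (Real.log 2 * ε) := by gcongr
    _ = Real.log 2 * (ε * n) := by ring

end Pool.SatDet
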