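import Pool.Agent.Helper59.SAT.Inst

/-!
# k-SAT: the main inequality
-/

set_option autoImplicit false

namespace Pool.SatDet

open Finset MvPolynomial Pool.Agent.Helper76.CDET

variable {n k : ℕ}

open Classical in
/-- the monomial of a choice -/
noncomputable def Mm (D : ℕ) (c : Fin (D * k) → Bool) (x : Clause n k) : ℕ :=
  if ¬ Sats (ext' D c) x ∧ ¬ IsBlk (k := k) D (supp x) then 1 else 0

theorem sum_Mm (D : ℕ) (c : Fin (D * k) → Bool) :
    open Classical in ∑ x : Clause n k, Mm D c x =
      #((Finset.powersetCard k (Finset.univ : Finset (Fin n))).filter fun s => ¬ IsBlk (k := k) D s) := by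
  classical
  rw [← card_viol (ext' D c) (fun s => ¬ IsBlk (k := k) D s), Finset.card_filter]
  rfl

/-- the variables on which two assignments differ -/
def dif (a a' : Fin n → Bool) : Finset (Fin n) := Finset.univ.filter fun i => a i ≠ a' i

theorem card_meet (T : Finset (Fin n)) :
    open Classical in n.choose k - (n - #T).choose k - #T ≤
      #((Finset.powersetCard k (Finset.univ : Finset (Fin n))).filter fun s => (∃ i ∈ s, i ∈ T)) - #T := by
  classical
  have h1 : #((Finset.powersetCard k (Finset.univ : Finset (Fin n))).filter fun s => ¬ ∃ i ∈ s, i ∈ T) =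
      (n - #T).choose k := by
    have h2 : ((Finset.powersetCard k (Finset.univ : Finset (Fin n))).filter fun s => ¬ ∃ i ∈ s, i ∈ T) =
        Finset.powersetCard k Tᶜ := by
      ext s
      simp only [Finset.mem_filter, Finset.mem_powersetCard, Finset.subset_univ, true_and, not_exists,
        not_and]
      constructor
      · rintro ⟨h3, h4⟩
        exact ⟨fun i hi => Finset.mem_compl.2 (h4 i hi), h3⟩
      · rintro ⟨h3, h4⟩
        exact ⟨h4, fun i hi => Finset.mem_compl.1 (h3 hi)⟩
    rw [h2, Finset.card_powersetCard, Finset.card_compl, Fintype.card_fin]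
  have h3 := Finset.card_filter_add_card_filter_not (s := Finset.powersetCard k (Finset.univ : Finset (Fin n)))
    (fun s => ∃ i ∈ s, i ∈ T)
  rw [h1, Finset.card_powersetCard, Finset.card_univ, Fintype.card_fin] at h3
  omega

theorem diff_ge (D : ℕ) (c c' : Fin (D * k) → Bool) :
    n.choose k - (n - #(dif (n := n) (ext' D c) (ext' D c'))).choose k - #(dif (n := n) (ext' D c) (ext' D c')) ≤
      ∑ x : Clause n k, (Mm D c' x - Mm D c x) := by
  classical
  set T := dif (n := n) (ext' D c) (ext' D c') with hT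
  have h1 : ∑ x : Clause n k, (Mm D c' x - Mm D c x) =
      #(Finset.univ.filter fun C : Clause n k => ¬ Sats (ext' D c') C ∧
        ((fun s => ¬ IsBlk (k := k) D s ∧ ∃ i ∈ s, i ∈ T) (supp C))) := by
    rw [Finset.card_filter]
    refine Finset.sum_congr rfl fun x _ => ?_
    unfold Mm
    by_cases h2 : Sats (ext' D c') x
    · have n1 : ¬ (¬ Sats (ext' D c') x ∧ ¬ IsBlk (k := k) D (supp x)) := fun h => h.1 h2
      have n2 : ¬ (¬ Sats (ext' D c') x ∧ ((fun s => ¬ IsBlk (k := k) D s ∧ ∃ i ∈ s, i ∈ T) (supp x))) :=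
        fun h => h.1 h2
      rw [if_neg n1, if_neg n2, Nat.zero_sub]
    · have h3 : Sats (ext' D c) x ↔ ∃ i ∈ supp x, i ∈ T := by
        conv_lhs => rw [eq_vcl _ x h2, sats_vcl_iff]
        constructor
        · rintro ⟨i, hi, h⟩
          exact ⟨i, hi, by simp [hT, dif, h]⟩
        · rintro ⟨i, hi, h⟩
          refine ⟨i, hi, ?_⟩
          simpa [hT, dif] using h
      by_cases h4 : IsBlk (k := k) D (supp x)
      · have n1 : ¬ (¬ Sats (ext' D c') x ∧ ¬ IsBlk (k := k) D (supp x)) := fun h => h.2 h4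
        have n2 : ¬ (¬ Sats (ext' D c') x ∧ ((fun s => ¬ IsBlk (k := k) D s ∧ ∃ i ∈ s, i ∈ T) (supp x))) :=
          fun h => h.2.1 h4
        rw [if_neg n1, if_neg n2, Nat.zero_sub]
      · rw [if_pos ⟨h2, h4⟩]
        by_cases h5 : Sats (ext' D c) x
        · have n1 : ¬ (¬ Sats (ext' D c) x ∧ ¬ IsBlk (k := k) D (supp x)) := fun h => h.1 h5
          rw [if_neg n1, if_pos ⟨h2, h4, h3.1 h5⟩]
        · have n2 : ¬ (¬ Sats (ext' D c') x ∧ ((fun s => ¬ IsBlk (k := k) D s ∧ ∃ i ∈ s, i ∈ T) (supp x))) :=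
            fun h => h5 (h3.2 h.2.2)
          rw [if_pos ⟨h5, h4⟩, if_neg n2]
  rw [h1, card_viol (ext' D c') (fun s => ¬ IsBlk (k := k) D s ∧ ∃ i ∈ s, i ∈ T)]
  refine (card_meet T).trans ?_
  -- remove the blocks
  have h2 : ((Finset.powersetCard k (Finset.univ : Finset (Fin n))).filter fun s => (∃ i ∈ s, i ∈ T)) ⊆
      ((Finset.powersetCard k (Finset.univ : Finset (Fin n))).filter fun s => ¬ IsBlk (k := k) D s ∧ ∃ i ∈ s, i ∈ T) ∪
        T.image (fun i => blk n k (i.val / k)) := by
    intro s hs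
    rw [Finset.mem_filter] at hs
    obtain ⟨hs1, i, hi, hiT⟩ := hs
    rw [Finset.mem_union, Finset.mem_filter]
    by_cases hb : IsBlk (k := k) D s
    · right
      obtain ⟨b, rfl⟩ := hb
      rw [Finset.mem_image]
      refine ⟨i, hiT, ?_⟩
      simp only [blk, Finset.mem_filter, Finset.mem_univ, true_and] at hi
      rw [hi]
    · left
      exact ⟨hs1, hb, i, hi, hiT⟩
  have h3 := (Finset.card_le_card h2).trans (Finset.card_union_le _ _)
  have h4 : #(T.image (fun i => blk n k (i.val / k))) ≤ #T := Finset.card_image_le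
  omega

theorem card_dif (D : ℕ) (hD : D * k ≤ n) (c c' : Fin (D * k) → Bool) :
    #(dif (n := n) (ext' D c) (ext' D c')) = #(dif c c') := by
  have h1 : dif (n := n) (ext' D c) (ext' D c') = (dif c c').map (Fin.castLEEmb hD) := by
    ext i
    simp only [dif, Finset.mem_filter, Finset.mem_univ, true_and, Finset.mem_map, Fin.castLEEmb_apply]
    constructor
    · intro h
      by_cases hi : i.val < D * k
      · refine ⟨⟨i.val, hi⟩, ?_, rfl⟩
        simpa [ext', hi] using h
      · simp [ext', hi] at h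
    · rintro ⟨j, hj, rfl⟩
      simpa [ext'] using hj
  rw [h1, Finset.card_map]

theorem sum_dif {N : ℕ} (c : Fin N → Bool) (F : ℕ → ℝ) :
    ∑ c' : Fin N → Bool, F (#(dif c c')) = ∑ j ∈ range (N + 1), (N.choose j : ℝ) * F j := by
  classical
  have hbij : Function.Bijective (fun c' : Fin N → Bool => dif c c') := by
    rw [Fintype.bijective_iff_injective_and_card]
    constructor
    · intro c1 c2 h
      funext i
      have h1 := Finset.ext_iff.1 h i
      simp only [dif, Finset.mem_filter, Finset.mem_univ, true_and] at h1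
      cases h2 : c i <;> cases h3 : c1 i <;> cases h4 : c2 i <;> simp_all
    · simp
  have h1 : ∑ c' : Fin N → Bool, F (#(dif c c')) = ∑ T : Finset (Fin N), F (#T) :=
    Fintype.sum_bijective _ hbij _ _ fun _ => rfl
  rw [h1, ← Finset.powerset_univ, Finset.sum_powerset_apply_card (fun j => F j)]
  simp [nsmul_eq_mul]

theorem main_ineq {F Ya : Type} [Field F] {D m r : ℕ} (hk : 0 < k) (hkn : k ≤ n) (hD : D * k ≤ n)
    (f : MvPolynomial (Clause n k ⊕ Ya) F)
    (hml : ∀ μ ∈ f.support, ∀ e, μ (Sum.inl e) ≤ 1)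
    (hP : ∀ S : Finset (Clause n k), restr S f ≠ 0 ↔ SatP n k S)
    (s : Fin r → ℕ) (hs : ∀ i, s i ≤ m)
    (A : ∀ i, Matrix (Fin (s i)) (Fin (s i)) (MvPolynomial (Clause n k ⊕ Ya) F))
    (hA : ∀ i p q, ∀ μ ∈ (A i p q).support, ∑ e, μ (Sum.inl e) ≤ 1)
    (hf : f = ∑ i, (A i).det) (hDm : D < m) (q : ℝ) (hq0 : 0 < q) (hq1 : q < 1) :
    (2 : ℝ) ^ (D * k) ≤ (∑ j ∈ range (D * k + 1), ((D * k).choose j : ℝ) * q ^ (n.choose k - (n - j).choose k - j)) *
      (r * (∑ j ∈ range (D + 1), ((m - D - 1 + j).choose j : ℝ) * (1 - q) ^ j) ^ 2) := by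
  classical
  set yc : (Fin (D * k) → Bool) → Fin D → Clause n k :=
    fun c b => vcl (ext' D c) (blk n k b) (card_blk hk hD b b.2) with hyc
  have hycinj : ∀ c, Function.Injective (yc c) := by
    intro c b b' h
    have h1 := congrArg supp h
    simp only [hyc, supp_vcl] at h1
    exact Fin.ext (blk_injective hk hD b.2 h1)
  have hycS : ∀ c b, ¬ Sats (ext' D c) (yc c b) := fun c b => not_sats_vcl _ _ _
  have hycB : ∀ c b, IsBlk (k := k) D (supp (yc c b)) := by
    intro c b
    refine ⟨b, ?_⟩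
    simp only [hyc, supp_vcl]
  have key := machine_sm (C := Fin (D * k) → Bool) f hml (SatP n k) hP (kp D) yc hycinj (Mm D)
    (#((Finset.powersetCard k (Finset.univ : Finset (Fin n))).filter fun s => ¬ IsBlk (k := k) D s))
    (fun c => sum_Mm D c) ?_ ?_ ?_ s hs A hA hf hDm q hq0 hq1
    (∑ j ∈ range (D * k + 1), ((D * k).choose j : ℝ) * q ^ (n.choose k - (n - j).choose k - j)) ?_ ?_
  · simpa using key
  · -- h1
    rintro c S ⟨a, ha⟩ hd hy
    have hforced := forced hk hkn hD c S a ha hd (by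
      intro C hC z hz
      obtain ⟨b, hb⟩ := hy C hC z hz
      exact ⟨b, hb.symm⟩)
    subst hforced
    constructor
    · intro x
      rw [cnt_kp_inl]
      unfold Mm
      split_ifs with h1 h2
      · exact le_rfl
      · exact absurd ⟨ha _ h1.1, not_dead c x h1.1, h1.2⟩ h2
      · exact Nat.zero_le _
      · exact Nat.zero_le _
    · intro b
      rw [cnt_kp_inr, if_pos]
      exact ⟨ha _ (hycS c b), not_dead c _ (hycS c b), hycB c b⟩
  · -- h2
    intro c
    refine ⟨Finset.univ.filter fun C => ¬ Sats (ext' D c) C, ⟨ext' D c, fun C hC => by simp [hC]⟩, ?_, ?_, ?_, ?_⟩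
    · intro C hC
      rw [Ne, kp_none]
      exact not_dead c C (Finset.mem_filter.1 hC).2
    · intro x
      rw [cnt_kp_inl]
      unfold Mm
      by_cases h1 : ¬ Sats (ext' D c) x ∧ ¬ IsBlk (k := k) D (supp x)
      · rw [if_pos h1, if_pos ⟨by simp [h1.1], not_dead c x h1.1, h1.2⟩]
      · rw [if_neg h1, if_neg]
        rintro ⟨h2, -, h3⟩
        exact h1 ⟨(Finset.mem_filter.1 h2).2, h3⟩
    · intro b
      rw [cnt_kp_inr, if_pos]
      exact ⟨by simp [hycS c b], not_dead c _ (hycS c b), hycB c b⟩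
    · intro z hz
      rw [cnt_kp_inr, if_neg]
      rintro ⟨h1, -, b, hb⟩
      apply hz
      refine ⟨b, ?_⟩
      have h2 := (Finset.mem_filter.1 h1).2
      rw [eq_vcl _ z h2]
      simp only [hyc]
      congr 1
      exact hb.symm
  · -- h3
    intro c S S' _ _ hd hd' hh hh' hfree
    refine uniq_of_injective (kp D) ?_ S S' hd hd' ?_ hfree
    · intro e e' v h h'
      rcases v with x | y
      · rw [kp_inl] at h h'
        rw [h.1, h'.1]
      · rw [kp_inr] at h h'
        rw [h.1, h'.1]
    · intro v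
      rw [tgt_of_hits (kp D) _ _ (hycinj c) S hh, tgt_of_hits (kp D) _ _ (hycinj c) S' hh']
  · -- positivity
    have h0 : (0 : ℝ) < ((D * k).choose 0 : ℝ) * q ^ (n.choose k - (n - 0).choose k - 0) := by
      simp
    exact lt_of_lt_of_le h0 (Finset.single_le_sum
      (f := fun j => ((D * k).choose j : ℝ) * q ^ (n.choose k - (n - j).choose k - j))
      (fun j _ => by positivity) (Finset.mem_range.2 (Nat.succ_pos _)))
  · intro c
    rw [← sum_dif c (fun j => q ^ (n.choose k - (n - j).choose k - j))]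
    refine Finset.sum_le_sum fun c' _ => ?_
    have h1 := diff_ge (n := n) D c c'
    rw [card_dif D hD] at h1
    exact pow_le_pow_of_le_one hq0.le hq1.le h1

end Pool.SatDet
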