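import Pool.Agent.Helper59.TDM.Num

/-!
# k-SAT: numbers
-/

set_option autoImplicit false

namespace Pool.SatDet

open Finset Real Pool.TDM

/-- `C(n - j, k) n ^ k ≤ C(n, k) (n - j) ^ k` -/
theorem choose_sub_le (n j : ℕ) (k : ℕ) : (n - j).choose k * n ^ k ≤ n.choose k * (n - j) ^ k := by
  have h : (n - j).descFactorial k * n ^ k ≤ n.descFactorial k * (n - j) ^ k := by
    induction k with
    | zero => simp
    | succ k ih =>
      rw [Nat.descFactorial_succ, Nat.descFactorial_succ, pow_succ, pow_succ]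
      have h1 : (n - j - k) * n ≤ (n - k) * (n - j) := by
        rcases Nat.lt_or_ge (n - j) k with h2 | h2
        · have : n - j - k = 0 := by omega
          rw [this]
          simp
        · have h3 : j + k ≤ n ∨ n < j := by omega
          rcases h3 with h3 | h3
          · obtain ⟨d, rfl⟩ := Nat.exists_eq_add_of_le h3
            have e1 : j + k + d - j - k = d := by omega
            have e2 : j + k + d - k = j + d := by omega
            have e3 : j + k + d - j = k + d := by omega
            rw [e1, e2, e3]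
            nlinarith [Nat.zero_le (j * k)]
          · have : n - j - k = 0 := by omega
            rw [this]
            simp
      calc (n - j - k) * (n - j).descFactorial k * (n ^ k * n)
          = ((n - j).descFactorial k * n ^ k) * ((n - j - k) * n) := by ring
        _ ≤ (n.descFactorial k * (n - j) ^ k) * ((n - k) * (n - j)) := Nat.mul_le_mul ih h1
        _ = (n - k) * n.descFactorial k * ((n - j) ^ k * (n - j)) := by ring
  rw [Nat.descFactorial_eq_factorial_mul_choose, Nat.descFactorial_eq_factorial_mul_choose] at h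
  have hf := Nat.factorial_pos k
  have h2 : k.factorial * ((n - j).choose k * n ^ k) ≤ k.factorial * (n.choose k * (n - j) ^ k) := by
    calc k.factorial * ((n - j).choose k * n ^ k) = k.factorial * (n - j).choose k * n ^ k := by ring
      _ ≤ k.factorial * n.choose k * (n - j) ^ k := h
      _ = _ := by ring
  exact Nat.le_of_mul_le_mul_left h2 hf

/-- `C(n, k) ≥ n (n - 1)` for `5 ≤ k ≤ n - 3` -/
theorem choose_big (n k : ℕ) (hk : 5 ≤ k) (hn : k + 3 ≤ n) : n * (n - 1) ≤ n.choose k := by
  obtain ⟨a, rfl⟩ := Nat.exists_eq_add_of_le' (show 2 ≤ k by omega)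
  obtain ⟨b, rfl⟩ := Nat.exists_eq_add_of_le' (show 2 ≤ n by omega)
  have h1 : (b + 2) * (b + 1) * b.choose a = (b + 2).choose (a + 2) * ((a + 2) * (a + 1)) := by
    have e1 := Nat.add_one_mul_choose_eq b a
    have e2 := Nat.add_one_mul_choose_eq (b + 1) (a + 1)
    calc (b + 2) * (b + 1) * b.choose a = (b + 2) * ((b + 1) * b.choose a) := by ring
      _ = (b + 2) * ((b + 1).choose (a + 1) * (a + 1)) := by rw [e1]
      _ = ((b + 1 + 1) * (b + 1).choose (a + 1)) * (a + 1) := by ring
      _ = ((b + 1 + 1).choose (a + 1 + 1) * (a + 1 + 1)) * (a + 1) := by rw [e2]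
      _ = _ := by ring
  have h2 : (a + 2) * (a + 1) ≤ b.choose a := by
    have h3 : (a + 3).choose a ≤ b.choose a := Nat.choose_le_choose a (by omega)
    have h4 : (a + 3).choose a = (a + 3).choose 3 := by
      rw [← Nat.choose_symm (show 3 ≤ a + 3 by omega)]
      rfl
    have h5 : (a + 3).choose 3 * 6 = (a + 3) * (a + 2) * (a + 1) := by
      have e := Nat.descFactorial_eq_factorial_mul_choose (a + 3) 3
      have e' : (a + 3).descFactorial 3 = (a + 3) * (a + 2) * (a + 1) := by
        simp [Nat.descFactorial_succ]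
        ring
      rw [e'] at e
      have e3 : Nat.factorial 3 = 6 := rfl
      rw [e3] at e
      linarith
    have h6 : 6 * ((a + 2) * (a + 1)) ≤ (a + 3) * (a + 2) * (a + 1) := by
      have : 6 ≤ a + 3 := by omega
      calc 6 * ((a + 2) * (a + 1)) ≤ (a + 3) * ((a + 2) * (a + 1)) := Nat.mul_le_mul_right _ this
        _ = _ := by ring
    rw [h4] at h3
    omega
  have h7 : (b + 2) * (b + 1) * ((a + 2) * (a + 1)) ≤ (b + 2).choose (a + 2) * ((a + 2) * (a + 1)) := by
    rw [← h1]
    exact Nat.mul_le_mul_left _ h2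
  have h8 := Nat.le_of_mul_le_mul_right h7 (by positivity)
  have e : b + 2 - 1 = b + 1 := by omega
  rw [e]
  exact h8

/-- the second moment sum -/
theorem second_sum (n k N' : ℕ) (hk : 25 ≤ k) (hn : k + 3 ≤ n) (hN' : N' ≤ n) (q : ℝ)
    (hq : q = 1 - n / (n.choose k : ℝ)) :
    ∑ j ∈ range (N' + 1), (N'.choose j : ℝ) * q ^ (n.choose k - (n - j).choose k - j) ≤
      6 * (exp 1 * k / 2) ^ (2 * n / k : ℝ) := by
  have hn25 : 28 ≤ n := by omega
  have hnr : (28 : ℝ) ≤ n := by exact_mod_cast hn25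
  have hn0 : (0 : ℝ) < n := by linarith
  have hkr : (25 : ℝ) ≤ k := by exact_mod_cast hk
  have hk0 : (0 : ℝ) < k := by linarith
  have hbig := choose_big n k (by omega) hn
  set N : ℝ := (n.choose k : ℝ) with hN
  have hNbig : (n : ℝ) * (n - 1) ≤ N := by
    have h1 : ((n * (n - 1) : ℕ) : ℝ) ≤ (n.choose k : ℝ) := by exact_mod_cast hbig
    rw [Nat.cast_mul, Nat.cast_sub (by omega), Nat.cast_one] at h1
    exact h1
  have hN0 : 0 < N := lt_of_lt_of_le (by nlinarith) hNbig
  set x : ℝ := n / N with hx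
  have hx0 : 0 < x := by positivity
  have hxn : x * n ≤ 1.04 := by
    rw [hx, div_mul_eq_mul_div, div_le_iff₀ hN0]
    nlinarith
  have hx1 : x < 1 := by
    by_contra h
    push Not at h
    nlinarith
  have hq0 : 0 ≤ q := by rw [hq]; linarith
  set t : ℝ := 2 * n / k with ht
  have ht0 : 0 ≤ t := by positivity
  -- the single terms
  have hterm : ∀ j ∈ range (N' + 1), q ^ (n.choose k - (n - j).choose k - j) ≤
      2.83 * ((1 / 2) ^ n + (2 / k) ^ j * ((k : ℝ) / 2) ^ t) := by
    intro j hj
    have hjN : j ≤ n := (Nat.lt_succ_iff.1 (Finset.mem_range.1 hj)).trans hN'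
    have hjr : (j : ℝ) ≤ n := by exact_mod_cast hjN
    have hj0 : (0 : ℝ) ≤ j := Nat.cast_nonneg _
    -- exponent
    have h1 : (N - ((n - j).choose k : ℝ) - j) ≤ ((n.choose k - (n - j).choose k - j : ℕ) : ℝ) := by
      have h2 : n.choose k ≤ (n.choose k - (n - j).choose k - j) + (n - j).choose k + j := by omega
      have h3 : N ≤ ((n.choose k - (n - j).choose k - j : ℕ) : ℝ) + ((n - j).choose k : ℝ) + j := by
        rw [hN]
        exact_mod_cast h2
      linarith
    have h4 : ((n - j).choose k : ℝ) ≤ N * exp (-(j * k / n)) := by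
      have h5 := choose_sub_le n j k
      have h6 : ((n - j).choose k : ℝ) * n ^ k ≤ N * ((n : ℝ) - j) ^ k := by
        have h7 : (((n - j).choose k * n ^ k : ℕ) : ℝ) ≤ ((n.choose k * (n - j) ^ k : ℕ) : ℝ) := by
          exact_mod_cast h5
        push_cast [Nat.cast_sub hjN] at h7
        exact h7
      have h8 : ((n : ℝ) - j) ^ k ≤ n ^ k * exp (-(j * k / n)) := by
        have h9 : (n : ℝ) - j ≤ n * exp (-(j / n)) := by
          have h10 := Real.add_one_le_exp (-((j : ℝ) / n))
          have h11 : (n : ℝ) - j = n * (-(j / n) + 1) := by field_simp; ring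
          rw [h11]
          exact mul_le_mul_of_nonneg_left h10 hn0.le
        have h12 : (0 : ℝ) ≤ n - j := by linarith
        calc ((n : ℝ) - j) ^ k ≤ (n * exp (-(j / n))) ^ k := by gcongr
          _ = n ^ k * exp (-(j * k / n)) := by
            rw [mul_pow, ← Real.exp_nat_mul]
            congr 2
            ring
      have h13 : (0 : ℝ) < (n : ℝ) ^ k := by positivity
      have h14 : ((n - j).choose k : ℝ) * n ^ k ≤ (N * exp (-(j * k / n))) * n ^ k := by
        calc ((n - j).choose k : ℝ) * n ^ k ≤ N * ((n : ℝ) - j) ^ k := h6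
          _ ≤ N * (n ^ k * exp (-(j * k / n))) := by gcongr
          _ = _ := by ring
      exact le_of_mul_le_mul_right h14 h13
    have h15 : q ^ (n.choose k - (n - j).choose k - j) ≤ exp (-(n * (1 - exp (-(j * k / n)))) + 1.04) := by
      have h16 : q ≤ exp (-x) := by
        have := Real.add_one_le_exp (-x)
        rw [hq]
        linarith
      calc q ^ (n.choose k - (n - j).choose k - j) ≤ (exp (-x)) ^ (n.choose k - (n - j).choose k - j) := by
            gcongr
        _ = exp (((n.choose k - (n - j).choose k - j : ℕ) : ℝ) * (-x)) := by rw [← Real.exp_nat_mul]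
        _ ≤ exp (-(n * (1 - exp (-(j * k / n)))) + 1.04) := by
            apply Real.exp_le_exp.2
            have h17 : x * (N - ((n - j).choose k : ℝ) - j) ≤
                x * ((n.choose k - (n - j).choose k - j : ℕ) : ℝ) := mul_le_mul_of_nonneg_left h1 hx0.le
            have h18 : x * ((n - j).choose k : ℝ) ≤ n * exp (-(j * k / n)) := by
              calc x * ((n - j).choose k : ℝ) ≤ x * (N * exp (-(j * k / n))) := by gcongr
                _ = n * exp (-(j * k / n)) := by rw [hx]; field_simp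
            have h19 : x * N = n := by rw [hx]; field_simp
            have h20 : x * j ≤ 1.04 := (mul_le_mul_of_nonneg_left hjr hx0.le).trans hxn
            nlinarith
    have hexp104 : exp 1.04 ≤ 2.83 := by
      have h21 : (1.04 : ℝ) = 1 + 0.04 := by norm_num
      rw [h21, Real.exp_add]
      have h22 : exp (0.04 : ℝ) ≤ 1.041 := by
        have := Real.exp_bound' (x := 0.04) (by norm_num) (by norm_num) (n := 3) (by norm_num)
        refine this.trans ?_
        norm_num [Finset.sum_range_succ, Nat.factorial]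
      have h23 := Real.exp_one_lt_d9
      nlinarith [Real.exp_pos (0.04 : ℝ)]
    rw [Real.exp_add] at h15
    have h24 : exp (-(n * (1 - exp (-(j * k / n))))) ≤ (1 / 2) ^ n + (2 / k) ^ j * ((k : ℝ) / 2) ^ t := by
      have hpos1 : (0 : ℝ) ≤ (1 / 2) ^ n := by positivity
      have hpos2 : (0 : ℝ) ≤ (2 / (k : ℝ)) ^ j * ((k : ℝ) / 2) ^ t := by positivity
      rcases le_or_gt t (j : ℝ) with htj | htj
      · -- large distance
        have h25 : 2 ≤ (j : ℝ) * k / n := by
          rw [le_div_iff₀ hn0]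
          rw [ht, div_le_iff₀ hk0] at htj
          exact htj
        have h26 : exp (-(j * k / n)) ≤ 0.3 := by
          have h27 : exp (-((j : ℝ) * k / n)) ≤ exp (-2) := Real.exp_le_exp.2 (by linarith)
          have h28 : exp (-2 : ℝ) ≤ 0.3 := by
            rw [Real.exp_neg]
            have h29 : (4 : ℝ) ≤ exp 2 := by
              have h30 := Real.exp_one_gt_d9
              have h31 : exp 2 = exp 1 * exp 1 := by rw [← Real.exp_add]; norm_num
              rw [h31]
              nlinarith
            calc (exp 2)⁻¹ ≤ 4⁻¹ := by gcongr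
              _ ≤ 0.3 := by norm_num
          linarith
        have h32 : exp (-(n * (1 - exp (-(j * k / n))))) ≤ (1 / 2) ^ n := by
          have h33 : ((1 : ℝ) / 2) ^ n = exp (-(n * log 2)) := by
            rw [← Real.exp_log (show (0 : ℝ) < 1 / 2 by norm_num), ← Real.exp_nat_mul]
            congr 1
            rw [one_div, Real.log_inv]
            ring
          rw [h33]
          apply Real.exp_le_exp.2
          have h34 := Real.log_two_lt_d9
          nlinarith
        linarith
      · have h35 : exp (-(n * (1 - exp (-(j * k / n))))) ≤ 1 := by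
          rw [Real.exp_le_one_iff]
          have h36 : exp (-((j : ℝ) * k / n)) ≤ 1 := by
            rw [Real.exp_le_one_iff]
            have : 0 ≤ (j : ℝ) * k / n := by positivity
            linarith
          nlinarith
        have h37 : 1 ≤ (2 / (k : ℝ)) ^ j * ((k : ℝ) / 2) ^ t := by
          have h38 : ((k : ℝ) / 2) ^ (j : ℝ) ≤ ((k : ℝ) / 2) ^ t :=
            Real.rpow_le_rpow_of_exponent_le (by linarith) htj.le
          have h39 : (2 / (k : ℝ)) ^ j = (((k : ℝ) / 2) ^ (j : ℝ))⁻¹ := by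
            rw [Real.rpow_natCast, ← inv_pow]
            congr 1
            field_simp
          rw [h39]
          have h40 : 0 < ((k : ℝ) / 2) ^ (j : ℝ) := by positivity
          rw [inv_mul_eq_div, le_div_iff₀ h40, one_mul]
          exact h38
        linarith
    calc q ^ (n.choose k - (n - j).choose k - j)
        ≤ exp (-(n * (1 - exp (-(j * k / n))))) * exp 1.04 := h15
      _ ≤ ((1 / 2) ^ n + (2 / k) ^ j * ((k : ℝ) / 2) ^ t) * 2.83 := by gcongr
      _ = _ := by ring
  -- summation
  have hbin : ∑ j ∈ range (N' + 1), (N'.choose j : ℝ) * (2 / (k : ℝ)) ^ j = (1 + 2 / k) ^ N' := by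
    rw [add_comm (1 : ℝ), add_pow]
    refine Finset.sum_congr rfl fun j _ => ?_
    rw [one_pow]
    ring
  have hbin2 : ∑ j ∈ range (N' + 1), (N'.choose j : ℝ) = 2 ^ N' := by
    exact_mod_cast Nat.sum_range_choose N'
  have hsum : ∑ j ∈ range (N' + 1), (N'.choose j : ℝ) * q ^ (n.choose k - (n - j).choose k - j) ≤
      2.83 * (2 ^ N' * (1 / 2) ^ n + (1 + 2 / k) ^ N' * ((k : ℝ) / 2) ^ t) := by
    calc ∑ j ∈ range (N' + 1), (N'.choose j : ℝ) * q ^ (n.choose k - (n - j).choose k - j)
        ≤ ∑ j ∈ range (N' + 1), (N'.choose j : ℝ) *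
            (2.83 * ((1 / 2) ^ n + (2 / k) ^ j * ((k : ℝ) / 2) ^ t)) := by
          refine Finset.sum_le_sum fun j hj => ?_
          exact mul_le_mul_of_nonneg_left (hterm j hj) (Nat.cast_nonneg _)
      _ = 2.83 * ((∑ j ∈ range (N' + 1), (N'.choose j : ℝ)) * (1 / 2) ^ n +
            (∑ j ∈ range (N' + 1), (N'.choose j : ℝ) * (2 / (k : ℝ)) ^ j) * ((k : ℝ) / 2) ^ t) := by
          rw [Finset.sum_mul, Finset.sum_mul, ← Finset.sum_add_distrib, Finset.mul_sum]
          refine Finset.sum_congr rfl fun j _ => ?_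
          ring
      _ = _ := by rw [hbin, hbin2]
  have hA : (2 : ℝ) ^ N' * (1 / 2) ^ n ≤ 1 := by
    calc (2 : ℝ) ^ N' * (1 / 2) ^ n ≤ 2 ^ n * (1 / 2) ^ n := by
          gcongr
          norm_num
      _ = 1 := by rw [← mul_pow]; norm_num
  have hB : (1 + 2 / (k : ℝ)) ^ N' ≤ exp 1 ^ t := by
    calc (1 + 2 / (k : ℝ)) ^ N' ≤ (exp (2 / k)) ^ N' := by
          gcongr
          have := Real.add_one_le_exp (2 / (k : ℝ))
          linarith
      _ = exp (N' * (2 / k)) := by rw [← Real.exp_nat_mul]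
      _ ≤ exp (t) := by
          apply Real.exp_le_exp.2
          rw [ht]
          have : (N' : ℝ) ≤ n := by exact_mod_cast hN'
          calc (N' : ℝ) * (2 / k) ≤ n * (2 / k) := by gcongr
            _ = 2 * n / k := by ring
      _ = exp 1 ^ t := by rw [← Real.exp_mul, one_mul]
  have hC : (exp 1 * k / 2) ^ t = exp 1 ^ t * ((k : ℝ) / 2) ^ t := by
    rw [mul_div_assoc, Real.mul_rpow (exp_pos 1).le (by positivity)]
  have hD : 1 ≤ (exp 1 * k / 2) ^ t := by
    apply Real.one_le_rpow _ ht0
    have := Real.exp_one_gt_d9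
    nlinarith
  calc ∑ j ∈ range (N' + 1), (N'.choose j : ℝ) * q ^ (n.choose k - (n - j).choose k - j)
      ≤ 2.83 * (2 ^ N' * (1 / 2) ^ n + (1 + 2 / k) ^ N' * ((k : ℝ) / 2) ^ t) := hsum
    _ ≤ 2.83 * (1 + exp 1 ^ t * ((k : ℝ) / 2) ^ t) := by gcongr
    _ = 2.83 * (1 + (exp 1 * k / 2) ^ t) := by rw [hC]
    _ ≤ 6 * (exp 1 * k / 2) ^ t := by linarith

/-- THE NUMBERS -/
theorem numericsS (n k r : ℕ) (μ : ℝ) (hk : 1 ≤ k) (hr : 1 ≤ r) (hμ : 1 ≤ μ)
    (H : 25 ≤ k → k + 3 ≤ n → ∀ m : ℕ, (∀ m₀ : ℕ, (m₀ : ℝ) ≤ μ * n.choose k → m₀ ≤ m) → n / k < m →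
      ∀ q : ℝ, 0 < q → q < 1 →
      (2 : ℝ) ^ (n / k * k) ≤ (∑ j ∈ range (n / k * k + 1),
        ((n / k * k).choose j : ℝ) * q ^ (n.choose k - (n - j).choose k - j)) *
        (r * (∑ j ∈ range (n / k + 1), ((m - n / k - 1 + j).choose j : ℝ) * (1 - q) ^ j) ^ 2)) :
    (2 : ℝ) ^ n ≤ 2 ^ (k + 2) * (8 * μ * k ^ 2) ^ (2 * n / k : ℝ) * r := by
  have hr1 : (1 : ℝ) ≤ r := by exact_mod_cast hr
  have hk1 : (1 : ℝ) ≤ k := by exact_mod_cast hk
  have hk0 : (0 : ℝ) < k := by linarith
  have hn0' : (0 : ℝ) ≤ n := Nat.cast_nonneg _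
  have hksq : (1 : ℝ) ≤ (k : ℝ) ^ 2 := one_le_pow₀ hk1
  have hb8 : (8 : ℝ) ≤ 8 * μ * k ^ 2 := by
    have : 1 ≤ μ * (k : ℝ) ^ 2 := one_le_mul_of_one_le_of_one_le hμ hksq
    nlinarith
  have hb1 : (1 : ℝ) ≤ 8 * μ * k ^ 2 := by linarith
  have ht0 : (0 : ℝ) ≤ 2 * n / k := by positivity
  have hpow1 : (1 : ℝ) ≤ (8 * μ * k ^ 2) ^ (2 * n / k : ℝ) := Real.one_le_rpow hb1 ht0
  by_cases hk25 : 25 ≤ k
  · by_cases hn : k + 3 ≤ n
    · -- main case
      have hn25 : 28 ≤ n := by omega
      have hnr : (28 : ℝ) ≤ n := by exact_mod_cast hn25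
      have hn0 : (0 : ℝ) < n := by linarith
      have hkr : (25 : ℝ) ≤ k := by exact_mod_cast hk25
      have hbig := choose_big n k (by omega) hn
      have hnN : n < n.choose k := by
        have : n * 2 ≤ n * (n - 1) := Nat.mul_le_mul_left _ (by omega)
        omega
      set D := n / k with hD
      set t : ℝ := 2 * n / k with ht
      have hD1 : 1 ≤ D := by
        rw [hD, Nat.one_le_div_iff (by omega)]
        omega
      have hDk : D * k ≤ n := Nat.div_mul_le_self n k
      have hDn : D ≤ n := Nat.div_le_self n k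
      set m := ⌊μ * (n.choose k : ℝ)⌋₊ with hm
      have hN0 : (0 : ℝ) < (n.choose k : ℝ) := by
        have : 0 < n.choose k := by omega
        exact_mod_cast this
      have hm1 : (m : ℝ) ≤ μ * n.choose k := Nat.floor_le (by positivity)
      have hm2 : n.choose k ≤ m := by
        apply Nat.le_floor
        nlinarith
      have hDm : D < m := by omega
      set q : ℝ := 1 - n / (n.choose k : ℝ) with hq
      have hnNr : (n : ℝ) < (n.choose k : ℝ) := by exact_mod_cast hnN
      have hq0 : 0 < q := by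
        rw [hq]
        have : (n : ℝ) / (n.choose k : ℝ) < 1 := by
          rw [div_lt_one hN0]
          exact hnNr
        linarith
      have hq1 : q < 1 := by
        rw [hq]
        have : 0 < (n : ℝ) / (n.choose k : ℝ) := by positivity
        linarith
      have hH := H hk25 hn m (fun m₀ h => Nat.le_floor h) hDm q hq0 hq1
      have hZ := second_sum n k (D * k) hk25 hn hDk q hq
      have hD0 : (0 : ℝ) < D := by exact_mod_cast hD1
      have h1q : 1 - q = n / (n.choose k : ℝ) := by rw [hq]; ring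
      have hS := sum_choose_le m D (1 - q) (μ * n) hD1 hDm (by linarith) (by
        rw [h1q]
        calc (m : ℝ) * (n / (n.choose k : ℝ)) ≤ (μ * n.choose k) * (n / (n.choose k : ℝ)) := by
              gcongr
          _ = μ * n := by field_simp) (by
        have : (D : ℝ) ≤ n := by exact_mod_cast hDn
        nlinarith)
      have hS0 : 0 ≤ ∑ j ∈ range (D + 1), ((m - D - 1 + j).choose j : ℝ) * (1 - q) ^ j :=
        Finset.sum_nonneg fun j _ => by
          have : 0 ≤ 1 - q := by linarith
          positivity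
      have hnD : (n : ℝ) / D ≤ 2 * k := by
        rw [div_le_iff₀ hD0]
        have h1 : n < (D + 1) * k := by
          have := Nat.lt_div_mul_add (a := n) (b := k) (by omega)
          rw [add_mul, one_mul]
          exact this
        have h2 : n ≤ 2 * k * D := by nlinarith
        exact_mod_cast h2
      have he := Real.exp_one_gt_d9
      have he' := Real.exp_one_lt_d9
      have hS2 : (∑ j ∈ range (D + 1), ((m - D - 1 + j).choose j : ℝ) * (1 - q) ^ j) ^ 2 ≤
          (2 * exp 1 * μ * k) ^ t := by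
        have h1 : exp 1 * (μ * n) / D ≤ 2 * exp 1 * μ * k := by
          calc exp 1 * (μ * n) / D = exp 1 * μ * (n / D) := by ring
            _ ≤ exp 1 * μ * (2 * k) := by gcongr
            _ = _ := by ring
        have h2 : 1 ≤ 2 * exp 1 * μ * k := by
          have : 1 ≤ μ * (k : ℝ) := one_le_mul_of_one_le_of_one_le hμ hk1
          nlinarith
        calc (∑ j ∈ range (D + 1), ((m - D - 1 + j).choose j : ℝ) * (1 - q) ^ j) ^ 2
            ≤ ((exp 1 * (μ * n) / D) ^ D) ^ 2 := by gcongr
          _ ≤ ((2 * exp 1 * μ * k) ^ D) ^ 2 := by gcongr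
          _ = (2 * exp 1 * μ * k) ^ ((2 * D : ℕ) : ℝ) := by
              rw [← pow_mul, mul_comm D 2, Real.rpow_natCast]
          _ ≤ (2 * exp 1 * μ * k) ^ t := by
              apply Real.rpow_le_rpow_of_exponent_le h2
              rw [ht, le_div_iff₀ hk0]
              push_cast
              have : ((D * k : ℕ) : ℝ) ≤ n := by exact_mod_cast hDk
              push_cast at this
              linarith
      have hprod : (exp 1 * k / 2) ^ t * (2 * exp 1 * μ * k) ^ t ≤ (8 * μ * k ^ 2) ^ t := by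
        rw [← Real.mul_rpow (by positivity) (by positivity)]
        apply Real.rpow_le_rpow (by positivity) _ ht0
        have h1 : exp 1 * k / 2 * (2 * exp 1 * μ * k) = (exp 1 * exp 1) * (μ * k ^ 2) := by ring
        have h2 : exp 1 * exp 1 ≤ 8 := by nlinarith
        rw [h1]
        calc exp 1 * exp 1 * (μ * (k : ℝ) ^ 2) ≤ 8 * (μ * k ^ 2) := by gcongr
          _ = _ := by ring
      have hfin : (2 : ℝ) ^ (D * k) ≤ 6 * (8 * μ * k ^ 2) ^ t * r := by
        calc (2 : ℝ) ^ (D * k) ≤ _ := hH
          _ ≤ (6 * (exp 1 * k / 2) ^ t) * (r * (2 * exp 1 * μ * k) ^ t) := by gcongr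
          _ = 6 * ((exp 1 * k / 2) ^ t * (2 * exp 1 * μ * k) ^ t) * r := by ring
          _ ≤ 6 * (8 * μ * k ^ 2) ^ t * r := by gcongr
      have hnk : n ≤ (k - 1) + D * k := by
        have := Nat.lt_div_mul_add (a := n) (b := k) (by omega)
        rw [← hD] at this
        omega
      calc (2 : ℝ) ^ n ≤ 2 ^ ((k - 1) + D * k) := by
            gcongr
            norm_num
        _ = 2 ^ (k - 1) * 2 ^ (D * k) := by rw [pow_add]
        _ ≤ 2 ^ (k - 1) * (6 * (8 * μ * k ^ 2) ^ t * r) := by gcongr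
        _ = (2 ^ (k - 1) * 6) * (8 * μ * k ^ 2) ^ t * r := by ring
        _ ≤ 2 ^ (k + 2) * (8 * μ * k ^ 2) ^ t * r := by
            have h1 : (2 : ℝ) ^ (k + 2) = 2 ^ (k - 1) * 8 := by
              have : k + 2 = (k - 1) + 3 := by omega
              rw [this, pow_add]
              norm_num
            have h2 : (2 : ℝ) ^ (k - 1) * 6 ≤ 2 ^ (k + 2) := by
              rw [h1]
              gcongr
              norm_num
            gcongr
    · -- n ≤ k + 2
      have h1 : (2 : ℝ) ^ n ≤ 2 ^ (k + 2) := by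
        gcongr
        · norm_num
        · omega
      calc (2 : ℝ) ^ n ≤ 2 ^ (k + 2) := h1
        _ = 2 ^ (k + 2) * 1 * 1 := by ring
        _ ≤ 2 ^ (k + 2) * (8 * μ * k ^ 2) ^ (2 * n / k : ℝ) * r := by gcongr
  · -- small k
    have hk24 : k ≤ 24 := by omega
    have h1 : (2 : ℝ) ^ k ≤ (8 * (k : ℝ) ^ 2) ^ 2 := by
      have : 2 ^ k ≤ (8 * k ^ 2) ^ 2 := by
        interval_cases k <;> norm_num
      exact_mod_cast this
    have h2 : (2 : ℝ) ^ (k : ℝ) ≤ (8 * μ * k ^ 2) ^ (2 : ℝ) := by
      rw [Real.rpow_natCast]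
      have h3 : (8 * μ * (k : ℝ) ^ 2) ^ (2 : ℝ) = (8 * μ * k ^ 2) ^ 2 := by
        rw [← Real.rpow_natCast]
        norm_num
      rw [h3]
      refine h1.trans ?_
      gcongr
      nlinarith
    have h4 : (2 : ℝ) ^ n ≤ (8 * μ * k ^ 2) ^ (2 * n / k : ℝ) := by
      have h5 : (2 : ℝ) ^ n = ((2 : ℝ) ^ (k : ℝ)) ^ ((n : ℝ) / k) := by
        rw [← Real.rpow_mul (by norm_num)]
        have : (k : ℝ) * (n / k) = n := by field_simp
        rw [this, Real.rpow_natCast]
      have h6 : (8 * μ * (k : ℝ) ^ 2) ^ (2 * n / k : ℝ) = ((8 * μ * (k : ℝ) ^ 2) ^ (2 : ℝ)) ^ ((n : ℝ) / k) := by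
        rw [← Real.rpow_mul (by positivity)]
        congr 1
        ring
      rw [h5, h6]
      apply Real.rpow_le_rpow (by positivity) h2 (by positivity)
    have h7 : (1 : ℝ) ≤ 2 ^ (k + 2) := one_le_pow₀ (by norm_num)
    calc (2 : ℝ) ^ n ≤ (8 * μ * k ^ 2) ^ (2 * n / k : ℝ) := h4
      _ = 1 * (8 * μ * k ^ 2) ^ (2 * n / k : ℝ) * 1 := by ring
      _ ≤ 2 ^ (k + 2) * (8 * μ * k ^ 2) ^ (2 * n / k : ℝ) * r := by gcongr

end Pool.SatDet
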