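import Pool.Agent.Helper59.SAT.Main
import Pool.Agent.Helper59.SAT.Num

/-!
# k-SAT: the theorem
-/

set_option autoImplicit false

namespace Pool.SatDet

open Finset MvPolynomial Pool.Agent.Helper76.CDET

/-- A CNF (a set of clauses) is satisfiable. -/
def Satisfiable {n k : ℕ} (φ : Finset (Clause n k)) : Prop := ∃ a : Fin n → Bool, ∀ C ∈ φ, Sats a C

theorem satP_compl {n k : ℕ} (S : Finset (Clause n k)) : SatP n k S ↔ Satisfiable Sᶜ := by
  unfold SatP Satisfiable
  constructor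
  · rintro ⟨a, ha⟩
    refine ⟨a, fun C hC => ?_⟩
    by_contra h
    exact (Finset.mem_compl.1 hC) (ha C h)
  · rintro ⟨a, ha⟩
    refine ⟨a, fun C hC => ?_⟩
    by_contra h
    exact hC (ha C (Finset.mem_compl.2 h))

theorem final {F : Type} [Field F] {Ya : Type} {n k m r : ℕ} {μ : ℝ} (hk : 1 ≤ k) (hkn : k ≤ n)
    (hμ : 1 ≤ μ) (hm : (m : ℝ) ≤ μ * n.choose k)
    (f : MvPolynomial (Clause n k ⊕ Ya) F) (hml : ∀ ν ∈ f.support, ∀ C, ν (Sum.inl C) ≤ 1)
    (hP : ∀ φ : Finset (Clause n k),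
      (aeval (Sum.elim (fun C => if C ∈ φ then 0 else X (Sum.inl C)) (fun y => X (Sum.inr y))) f :
        MvPolynomial (Clause n k ⊕ Ya) F) ≠ 0 ↔ Satisfiable φ)
    (s : Fin r → ℕ) (hs : ∀ i, s i ≤ m)
    (A : ∀ i, Matrix (Fin (s i)) (Fin (s i)) (MvPolynomial (Clause n k ⊕ Ya) F))
    (hA : ∀ i p q, ∀ ν ∈ (A i p q).support, ∑ C, ν (Sum.inl C) ≤ 1)
    (hf : f = ∑ i, (A i).det) :
    (2 : ℝ) ^ n ≤ 2 ^ (k + 2) * (8 * μ * k ^ 2) ^ (2 * n / k : ℝ) * r := by
  classical
  have hP' : ∀ S : Finset (Clause n k), restr S f ≠ 0 ↔ SatP n k S := by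
    intro S
    rw [satP_compl, ← hP]
    unfold restr
    have : (Sum.elim (fun C => if C ∈ Sᶜ then (0 : MvPolynomial (Clause n k ⊕ Ya) F) else X (Sum.inl C))
        (fun y => X (Sum.inr y))) =
        Sum.elim (fun C => if C ∈ S then X (Sum.inl C) else 0) (fun y => X (Sum.inr y)) := by
      congr 1
      funext C
      by_cases h : C ∈ S <;> simp [h]
    rw [this]
  have hr : 1 ≤ r := by
    by_contra hr
    have hr0 : r = 0 := by omega
    subst hr0
    rw [Finset.univ_eq_empty, Finset.sum_empty] at hf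
    have h1 := (hP' Finset.univ).2 ⟨fun _ => false, fun C _ => Finset.mem_univ C⟩
    rw [hf] at h1
    exact h1 (by simp [restr])
  refine numericsS n k r μ hk hr hμ ?_
  intro _ _ m' hm' hDm q hq0 hq1
  exact main_ineq (by omega) hkn (Nat.div_mul_le_self n k) f hml hP' s (fun i => (hs i).trans (hm' m hm)) A hA hf
    hDm q hq0 hq1

end Pool.SatDet
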