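import Pool.Agent.Helper59.SAT.Second

/-!
# Clauses, violated clauses, blocks
-/

set_option autoImplicit false

namespace Pool.SatDet

open Finset

/-- `C` is a clause with exactly `k` literals, on `k` different variables among `n`.
The literal `(i, s)` is satisfied by the assignment `a` iff `a i = s`. -/
def IsClause (n k : ℕ) (C : Finset (Fin n × Bool)) : Prop :=
  C.card = k ∧ ∀ i, ¬ ((i, true) ∈ C ∧ (i, false) ∈ C)

instance (n k : ℕ) : DecidablePred (IsClause n k) := fun C => by
  unfold IsClause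
  infer_instance

/-- clauses with exactly `k` literals on `n` Boolean variables -/
abbrev Clause (n k : ℕ) : Type := {C : Finset (Fin n × Bool) // IsClause n k C}

variable {n k : ℕ}

/-- the assignment `a` satisfies the clause `C` -/
def Sats (a : Fin n → Bool) (C : Clause n k) : Prop := ∃ p ∈ C.1, a p.1 = p.2

/-- the variables of a clause -/
def supp (C : Clause n k) : Finset (Fin n) := C.1.image Prod.fst

theorem injOn_fst (C : Clause n k) : Set.InjOn Prod.fst (C.1 : Set (Fin n × Bool)) := by
  rintro ⟨i, s⟩ h ⟨j, t⟩ h' hij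
  simp only at hij
  subst hij
  have h1 := C.2.2 i
  cases s <;> cases t
  · rfl
  · exact absurd ⟨h', h⟩ h1
  · exact absurd ⟨h, h'⟩ h1
  · rfl

theorem card_supp (C : Clause n k) : (supp C).card = k := by
  rw [supp, Finset.card_image_of_injOn (injOn_fst C)]
  exact C.2.1

/-- the clause on the variables `s` which is violated by `a` -/
def vcl (a : Fin n → Bool) (s : Finset (Fin n)) (hs : s.card = k) : Clause n k :=
  ⟨s.image (fun i => (i, !a i)), by
    constructor
    · rw [Finset.card_image_of_injective _ (fun i j h => (Prod.ext_iff.1 h).1)]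
      exact hs
    · rintro i ⟨h1, h2⟩
      rw [Finset.mem_image] at h1 h2
      obtain ⟨j, -, hj⟩ := h1
      obtain ⟨j', -, hj'⟩ := h2
      simp only [Prod.mk.injEq] at hj hj'
      obtain ⟨rfl, h3⟩ := hj
      obtain ⟨rfl, h4⟩ := hj'
      rw [h3] at h4
      exact Bool.noConfusion h4⟩

theorem mem_vcl (a : Fin n → Bool) (s : Finset (Fin n)) (hs : s.card = k) (p : Fin n × Bool) :
    p ∈ (vcl a s hs).1 ↔ p.1 ∈ s ∧ p.2 = !a p.1 := by
  obtain ⟨i, t⟩ := p
  simp only [vcl, Finset.mem_image, Prod.mk.injEq]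
  constructor
  · rintro ⟨j, hj, rfl, h⟩
    exact ⟨hj, h.symm⟩
  · rintro ⟨h1, h2⟩
    exact ⟨i, h1, rfl, h2.symm⟩

theorem not_sats_vcl (a : Fin n → Bool) (s : Finset (Fin n)) (hs : s.card = k) : ¬ Sats a (vcl a s hs) := by
  rintro ⟨p, hp, h⟩
  rw [mem_vcl] at hp
  rw [hp.2] at h
  cases h1 : a p.1 <;> simp [h1] at h

theorem supp_vcl (a : Fin n → Bool) (s : Finset (Fin n)) (hs : s.card = k) : supp (vcl a s hs) = s := by
  ext i
  simp only [supp, Finset.mem_image]
  constructor
  · rintro ⟨p, hp, rfl⟩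
    exact ((mem_vcl a s hs p).1 hp).1
  · intro hi
    exact ⟨(i, !a i), (mem_vcl a s hs _).2 ⟨hi, rfl⟩, rfl⟩

/-- a violated clause is determined by its variables -/
theorem eq_vcl (a : Fin n → Bool) (C : Clause n k) (h : ¬ Sats a C) : C = vcl a (supp C) (card_supp C) := by
  apply Subtype.ext
  ext p
  rw [mem_vcl]
  have key : ∀ q ∈ C.1, q.2 = !a q.1 := by
    intro q hq
    by_contra hne
    apply h
    refine ⟨q, hq, ?_⟩
    cases h1 : a q.1 <;> cases h2 : q.2 <;> simp_all
  constructor
  · intro hp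
    exact ⟨Finset.mem_image.2 ⟨p, hp, rfl⟩, key p hp⟩
  · rintro ⟨h1, h2⟩
    obtain ⟨q, hq, hqp⟩ := Finset.mem_image.1 h1
    have h3 := key q hq
    have : p = q := Prod.ext hqp.symm (by rw [h2, h3, hqp])
    rw [this]
    exact hq

theorem vcl_congr {a a' : Fin n → Bool} {s : Finset (Fin n)} (hs : s.card = k) (h : ∀ i ∈ s, a i = a' i) :
    vcl a s hs = vcl a' s hs := by
  apply Subtype.ext
  ext p
  rw [mem_vcl, mem_vcl]
  constructor
  · rintro ⟨h1, h2⟩
    exact ⟨h1, by rw [h2, h _ h1]⟩
  · rintro ⟨h1, h2⟩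
    exact ⟨h1, by rw [h2, h _ h1]⟩

theorem sats_vcl_iff (a a' : Fin n → Bool) (s : Finset (Fin n)) (hs : s.card = k) :
    Sats a (vcl a' s hs) ↔ ∃ i ∈ s, a i ≠ a' i := by
  constructor
  · rintro ⟨p, hp, h⟩
    rw [mem_vcl] at hp
    refine ⟨p.1, hp.1, ?_⟩
    rw [h, hp.2]
    cases a' p.1 <;> simp
  · rintro ⟨i, hi, h⟩
    refine ⟨(i, !a' i), (mem_vcl _ _ _ _).2 ⟨hi, rfl⟩, ?_⟩
    cases h1 : a i <;> cases h2 : a' i <;> simp_all

/-- counting violated clauses by their variables -/
theorem card_viol (a : Fin n → Bool) (R : Finset (Fin n) → Prop) [DecidablePred R]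
    [DecidablePred fun C : Clause n k => ¬ Sats a C ∧ R (supp C)] :
    #(Finset.univ.filter fun C : Clause n k => ¬ Sats a C ∧ R (supp C)) =
      #((Finset.powersetCard k (Finset.univ : Finset (Fin n))).filter R) := by
  have h1 : Set.InjOn supp ((Finset.univ.filter fun C : Clause n k => ¬ Sats a C ∧ R (supp C)) : Set (Clause n k)) := by
    intro C hC C' hC' h
    have h2 := (Finset.mem_filter.1 hC).2.1
    have h3 := (Finset.mem_filter.1 hC').2.1
    rw [eq_vcl a C h2, eq_vcl a C' h3]
    congr 1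
  rw [← Finset.card_image_of_injOn h1]
  congr 1
  ext s
  simp only [Finset.mem_image, Finset.mem_filter, Finset.mem_univ, true_and, Finset.mem_powersetCard,
    Finset.subset_univ]
  constructor
  · rintro ⟨C, ⟨-, h3⟩, rfl⟩
    exact ⟨card_supp C, h3⟩
  · rintro ⟨h2, h3⟩
    exact ⟨vcl a s h2, ⟨not_sats_vcl a s h2, by rwa [supp_vcl]⟩, supp_vcl a s h2⟩

/-- the block of variables `b` -/
def blk (n k b : ℕ) : Finset (Fin n) := Finset.univ.filter fun i => i.val / k = b

theorem card_blk {D : ℕ} (hk : 0 < k) (hD : D * k ≤ n) (b : ℕ) (hb : b < D) : (blk n k b).card = k := by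
  have h1 : (blk n k b).card = (Finset.univ.filter fun i : Fin n => i.val / k = b).card := rfl
  have h2 : (blk n k b).map Fin.valEmbedding = Finset.Ico (b * k) ((b + 1) * k) := by
    ext x
    simp only [blk, Finset.mem_map, Finset.mem_filter, Finset.mem_univ, true_and, Fin.valEmbedding_apply,
      Finset.mem_Ico]
    constructor
    · rintro ⟨i, hi, rfl⟩
      rw [Nat.div_eq_iff hk] at hi
      constructor
      · exact hi.1
      · rw [add_mul, one_mul]
        omega
    · rintro ⟨h3, h4⟩
      have h5 : x < n := by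
        have : (b + 1) * k ≤ D * k := Nat.mul_le_mul_right _ hb
        omega
      refine ⟨⟨x, h5⟩, ?_, rfl⟩
      rw [add_mul, one_mul] at h4
      rw [Nat.div_eq_iff hk]
      constructor
      · exact h3
      · simp only
        omega
  have h3 := congrArg Finset.card h2
  rw [Finset.card_map, Nat.card_Ico, add_mul, one_mul] at h3
  omega

theorem blk_injective {D : ℕ} (hk : 0 < k) (hD : D * k ≤ n) {b b' : ℕ} (hb : b < D)
    (h : blk n k b = blk n k b') : b = b' := by
  have h1 : (blk n k b).Nonempty := by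
    rw [← Finset.card_pos, card_blk hk hD b hb]
    exact hk
  obtain ⟨i, hi⟩ := h1
  have h2 := hi
  rw [h] at h2
  simp only [blk, Finset.mem_filter, Finset.mem_univ, true_and] at hi h2
  rw [← hi, ← h2]

/-- assignment from a choice: the remaining variables are false -/
def ext' (D : ℕ) (c : Fin (D * k) → Bool) : Fin n → Bool := fun i =>
  if h : i.val < D * k then c ⟨i.val, h⟩ else false

end Pool.SatDet
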