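import Pool.Agent.Helper59.SAT.Main2
import Pool.Agent.Helper59.SAT.Fin

/-!
# k-SAT: the theorem for sums of Pfaffians
-/

set_option autoImplicit false

namespace Pool.SatDet

open Finset MvPolynomial Pool.Agent.Helper76.CDET

/-- the test property in terms of formulas gives the test property of the machine -/
theorem test_restr {F Ya : Type} [Field F] {n k : ℕ} (f : MvPolynomial (Clause n k ⊕ Ya) F)
    (hP : ∀ φ : Finset (Clause n k),
      (aeval (Sum.elim (fun C => if C ∈ φ then 0 else X (Sum.inl C)) (fun y => X (Sum.inr y))) f :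
        MvPolynomial (Clause n k ⊕ Ya) F) ≠ 0 ↔ Satisfiable φ) (S : Finset (Clause n k)) :
    restr S f ≠ 0 ↔ SatP n k S := by
  classical
  rw [satP_compl, ← hP]
  unfold restr
  have : (Sum.elim (fun C => if C ∈ Sᶜ then (0 : MvPolynomial (Clause n k ⊕ Ya) F) else X (Sum.inl C))
      (fun y => X (Sum.inr y))) =
      Sum.elim (fun C => if C ∈ S then X (Sum.inl C) else 0) (fun y => X (Sum.inr y)) := by
    congr 1
    funext C
    by_cases h : C ∈ S <;> simp [h]
  rw [this]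

theorem finalPf (ε : ℝ) (hε : 0 < ε) : ∃ K : ℕ, 1 ≤ K ∧ ∀ (F : Type) [Field F] (Ya : Type)
    (n k m d ν r : ℕ), K ≤ k → K * k ≤ n →
    1 ≤ d → (m * d : ℝ) ≤ 2 ^ ((k : ℝ) / K) * n.choose k → n * d ≤ n.choose k →
    ∀ f : MvPolynomial (Clause n k ⊕ Ya) F, (∀ μ ∈ f.support, ∀ C, μ (Sum.inl C) ≤ 1) →
    (∀ φ : Finset (Clause n k),
      (aeval (Sum.elim (fun C => if C ∈ φ then 0 else X (Sum.inl C)) (fun y => X (Sum.inr y))) f :
        MvPolynomial (Clause n k ⊕ Ya) F) ≠ 0 ↔ Satisfiable φ) →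
    IsPfSum r m d ν f →
    (2 : ℝ) ^ ((1 - ν / n.choose k - ε) * n : ℝ) ≤ r := by
  obtain ⟨K, hK1, H⟩ := numericsPf ε hε
  refine ⟨K, hK1, ?_⟩
  intro F _ Ya n k m d ν r hKk hKn hd hmd hnd f hml hP hf
  have hP' := test_restr f hP
  have hr : 1 ≤ r := by
    by_contra hr
    have hr0 : r = 0 := by omega
    subst hr0
    obtain ⟨s, P, A, -, -, -, hfA⟩ := hf
    rw [Finset.univ_eq_empty, Finset.sum_empty] at hfA
    have h1 := (hP' Finset.univ).2 ⟨fun _ => false, fun C _ => Finset.mem_univ C⟩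
    rw [hfA] at h1
    exact h1 (by simp [restr])
  have hkn : k ≤ n := by
    have h1 : 1 * k ≤ K * k := Nat.mul_le_mul_right _ hK1
    omega
  refine H n k m d ν r hKk hKn hd hmd hnd hr ?_
  intro D m' _ hDk hmm' hDm' q hq0 hq1
  have hf' : IsPfSum r m' d ν f := by
    obtain ⟨s, P, A, hs, h2, h3, h4⟩ := hf
    exact ⟨s, P, A, fun i => (hs i).trans hmm', h2, h3, h4⟩
  exact main_ineq2 (by omega) hkn hDk f hml hP' hf' hd hDm' q hq0 hq1

end Pool.SatDet
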