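import Pool.Agent.Helper59.SAT.Main
import Pool.Agent.Helper59.SAT.NumPf3
import Pool.Agent.Helper76.CPF.Pf

/-!
# k-SAT: sums of Pfaffians
-/

set_option autoImplicit false

namespace Pool.SatDet

open Finset MvPolynomial Pool.Agent.Helper76.CDET
open scoped ENNReal BigOperators

section
variable {F : Type} [Field F] {V Ya Xt Yt C : Type} [DecidableEq V]

/-- THE MACHINE WITH THE SECOND MOMENT BOUND, for sums of Pfaffians -/
theorem machine_sm2 [Fintype V] [Fintype Xt] [Fintype C]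
    (f : MvPolynomial (V ⊕ Ya) F) (hml : ∀ μ ∈ f.support, ∀ e, μ (Sum.inl e) ≤ 1)
    (P : Finset V → Prop) (hP : ∀ S, restr S f ≠ 0 ↔ P S)
    (κ : V → Option (Option (Xt ⊕ Yt))) {D : ℕ} (yc : C → Fin D → Yt)
    (hyc : ∀ c, Function.Injective (yc c)) (M : C → Xt → ℕ) (B : ℕ) (hB : ∀ c, ∑ x, M c x = B)
    (h1 : ∀ c (S : Finset V), P S → (∀ e ∈ S, κ e ≠ none) →
      (∀ e ∈ S, ∀ z, κ e = some (some (Sum.inr z)) → z ∈ Set.range (yc c)) →
      (∀ x, M c x ≤ cnt κ S (Sum.inl x)) ∧ ∀ b, 1 ≤ cnt κ S (Sum.inr (yc c b)))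
    (h2 : ∀ c, ∃ S : Finset V, P S ∧ (∀ e ∈ S, κ e ≠ none) ∧ Hits κ (M c) (yc c) S)
    (h3 : ∀ c (S S' : Finset V), P S → P S' → (∀ e ∈ S, κ e ≠ none) → (∀ e ∈ S', κ e ≠ none) →
      Hits κ (M c) (yc c) S → Hits κ (M c) (yc c) S' →
      (∀ e, κ e = some none → (e ∈ S ↔ e ∈ S')) → S = S')
    {r m δ ν : ℕ} (hf : IsPfSum r m δ ν f) (hδ : 1 ≤ δ) (hDm : D < m)
    (q : ℝ) (hq0 : 0 < q) (hq1 : q < 1)
    (Z : ℝ) (hZ0 : 0 < Z) (hZ : ∀ c, ∑ c', q ^ (∑ x, (M c' x - M c x)) ≤ Z) :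
    q ^ (ν + D * (δ - 1)) * (Fintype.card C : ℝ) ≤ Z * (r *
      ∑ j ∈ Finset.range (2 * D + 1), (Nat.choose (2 * (m - D) - 1 + j) j : ℝ) * (1 - q ^ δ) ^ j) := by
  classical
  set Q : ℝ≥0∞ := ENNReal.ofReal q with hQdef
  have hQ1 : Q < 1 := ofReal_lt_one hq1
  have hQ0 : Q ≠ 0 := (ENNReal.ofReal_pos.2 hq0).ne'
  have hQt : Q ≠ ∞ := ENNReal.ofReal_ne_top
  have hm := machine2 f hml P hP κ yc hyc M B hB h1 h2 h3 hQ1 (small_pf hDm hδ f hf Q hQ1)
  have hs2 := series_sm M B hB Q hQ1 hQ0 (ENNReal.ofReal Z) (ENNReal.ofReal_pos.2 hZ0).ne'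
    ENNReal.ofReal_ne_top (by
      intro c
      have h4 : ∑ c', Q ^ (∑ x, (M c' x - M c x)) =
          ENNReal.ofReal (∑ c', q ^ (∑ x, (M c' x - M c x))) := by
        rw [ENNReal.ofReal_sum_of_nonneg (fun j _ => by positivity)]
        refine Finset.sum_congr rfl fun c' _ => ?_
        rw [hQdef, ENNReal.ofReal_pow hq0.le]
      rw [h4]
      exact ENNReal.ofReal_le_ofReal (hZ c))
  have h1q : 0 ≤ 1 - q ^ δ := by
    have := pow_le_one₀ (n := δ) hq0.le hq1.le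
    linarith
  have e0 : (1 : ℝ≥0∞) - Q ^ δ = ENNReal.ofReal (1 - q ^ δ) := by
    rw [hQdef, ENNReal.ofReal_sub _ (pow_nonneg hq0.le _), ENNReal.ofReal_pow hq0.le, ENNReal.ofReal_one]
  have e2 : ∑ j ∈ Finset.range (2 * D + 1), (Nat.choose (2 * (m - D) - 1 + j) j : ℝ≥0∞) *
      (1 - Q ^ δ) ^ j = ENNReal.ofReal (∑ j ∈ Finset.range (2 * D + 1),
        (Nat.choose (2 * (m - D) - 1 + j) j : ℝ) * (1 - q ^ δ) ^ j) := by
    rw [ENNReal.ofReal_sum_of_nonneg (fun j _ => by positivity)]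
    apply Finset.sum_congr rfl
    intro j _
    rw [e0, ENNReal.ofReal_mul (by positivity), ENNReal.ofReal_pow h1q, ENNReal.ofReal_natCast]
  have hS : 0 ≤ ∑ j ∈ Finset.range (2 * D + 1), (Nat.choose (2 * (m - D) - 1 + j) j : ℝ) * (1 - q ^ δ) ^ j :=
    Finset.sum_nonneg (fun j _ => by positivity)
  rw [e2] at hm
  set Sr : ℝ := ∑ j ∈ Finset.range (2 * D + 1), (Nat.choose (2 * (m - D) - 1 + j) j : ℝ) * (1 - q ^ δ) ^ j
    with hSr
  set l0 := ν + D * (δ - 1) with hl0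
  have h5 : (Q ^ l0 * (Fintype.card C : ℝ≥0∞)) * Q ^ B ≤
      (ENNReal.ofReal Z * (r * ENNReal.ofReal Sr)) * Q ^ B := by
    calc (Q ^ l0 * (Fintype.card C : ℝ≥0∞)) * Q ^ B = Q ^ l0 * ((Fintype.card C : ℝ≥0∞) * Q ^ B) := by ring
      _ ≤ Q ^ l0 * (ENNReal.ofReal Z * ((1 - Q) ^ Fintype.card Xt *
          ∑' u : Xt → ℕ, (if ∃ c, ∀ x, M c x ≤ u x then Q ^ (∑ x, u x) else 0))) := by
          gcongr
      _ = ENNReal.ofReal Z * (Q ^ l0 * ((1 - Q) ^ Fintype.card Xt *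
          ∑' u : Xt → ℕ, (if ∃ c, ∀ x, M c x ≤ u x then Q ^ (∑ x, u x) else 0))) := by ring
      _ ≤ ENNReal.ofReal Z * (Q ^ B * (r * ENNReal.ofReal Sr)) := by
          gcongr
      _ = _ := by ring
  have h6 : Q ^ l0 * (Fintype.card C : ℝ≥0∞) ≤ ENNReal.ofReal Z * (r * ENNReal.ofReal Sr) :=
    (ENNReal.mul_le_mul_iff_left (pow_ne_zero _ hQ0) (ENNReal.pow_ne_top hQt)).1 h5
  rw [← ENNReal.ofReal_natCast (Fintype.card C), ← ENNReal.ofReal_natCast r, hQdef,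
    ← ENNReal.ofReal_pow hq0.le, ← ENNReal.ofReal_mul (by positivity),
    ← ENNReal.ofReal_mul (by positivity), ← ENNReal.ofReal_mul hZ0.le] at h6
  exact (ENNReal.ofReal_le_ofReal_iff (by positivity)).1 h6

end

variable {n k : ℕ}

theorem main_ineq2 {F Ya : Type} [Field F] {D m r δ ν : ℕ} (hk : 0 < k) (hkn : k ≤ n) (hD : D * k ≤ n)
    (f : MvPolynomial (Clause n k ⊕ Ya) F)
    (hml : ∀ μ ∈ f.support, ∀ e, μ (Sum.inl e) ≤ 1)
    (hP : ∀ S : Finset (Clause n k), restr S f ≠ 0 ↔ SatP n k S)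
    (hf : IsPfSum r m δ ν f) (hδ : 1 ≤ δ) (hDm : D < m) (q : ℝ) (hq0 : 0 < q) (hq1 : q < 1) :
    q ^ (ν + D * (δ - 1)) * 2 ^ (D * k) ≤
      (∑ j ∈ range (D * k + 1), ((D * k).choose j : ℝ) * q ^ (n.choose k - (n - j).choose k - j)) *
      (r * ∑ j ∈ range (2 * D + 1), ((2 * m - 2 * D - 1 + j).choose j : ℝ) * (1 - q ^ δ) ^ j) := by
  classical
  set yc : (Fin (D * k) → Bool) → Fin D → Clause n k :=
    fun c b => vcl (ext' D c) (blk n k b) (card_blk hk hD b b.2) with hyc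
  have hycinj : ∀ c, Function.Injective (yc c) := by
    intro c b b' h
    have h1 := congrArg supp h
    simp only [hyc, supp_vcl] at h1
    exact Fin.ext (blk_injective hk hD b.2 h1)
  have hycS : ∀ c b, ¬ Sats (ext' D c) (yc c b) := fun c b => not_sats_vcl _ _ _
  have hycB : ∀ c b, IsBlk (k := k) D (supp (yc c b)) := by
    intro c b
    refine ⟨b, ?_⟩
    simp only [hyc, supp_vcl]
  have key := machine_sm2 (C := Fin (D * k) → Bool) f hml (SatP n k) hP (kp D) yc hycinj (Mm D)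
    (#((Finset.powersetCard k (Finset.univ : Finset (Fin n))).filter fun s => ¬ IsBlk (k := k) D s))
    (fun c => sum_Mm D c) ?_ ?_ ?_ hf hδ hDm q hq0 hq1
    (∑ j ∈ range (D * k + 1), ((D * k).choose j : ℝ) * q ^ (n.choose k - (n - j).choose k - j)) ?_ ?_
  · have h2 : 2 * (m - D) - 1 = 2 * m - 2 * D - 1 := by omega
    rw [h2] at key
    simpa using key
  · -- h1
    rintro c S ⟨a, ha⟩ hd hy
    have hforced := forced hk hkn hD c S a ha hd (by
      intro C hC z hz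
      obtain ⟨b, hb⟩ := hy C hC z hz
      exact ⟨b, hb.symm⟩)
    subst hforced
    constructor
    · intro x
      rw [cnt_kp_inl]
      unfold Mm
      split_ifs with h1 h2
      · exact le_rfl
      · exact absurd ⟨ha _ h1.1, not_dead c x h1.1, h1.2⟩ h2
      · exact Nat.zero_le _
      · exact Nat.zero_le _
    · intro b
      rw [cnt_kp_inr, if_pos]
      exact ⟨ha _ (hycS c b), not_dead c _ (hycS c b), hycB c b⟩
  · -- h2
    intro c
    refine ⟨Finset.univ.filter fun C => ¬ Sats (ext' D c) C, ⟨ext' D c, fun C hC => by simp [hC]⟩, ?_, ?_, ?_, ?_⟩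
    · intro C hC
      rw [Ne, kp_none]
      exact not_dead c C (Finset.mem_filter.1 hC).2
    · intro x
      rw [cnt_kp_inl]
      unfold Mm
      by_cases h1 : ¬ Sats (ext' D c) x ∧ ¬ IsBlk (k := k) D (supp x)
      · rw [if_pos h1, if_pos ⟨by simp [h1.1], not_dead c x h1.1, h1.2⟩]
      · rw [if_neg h1, if_neg]
        rintro ⟨h2, -, h3⟩
        exact h1 ⟨(Finset.mem_filter.1 h2).2, h3⟩
    · intro b
      rw [cnt_kp_inr, if_pos]
      exact ⟨by simp [hycS c b], not_dead c _ (hycS c b), hycB c b⟩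
    · intro z hz
      rw [cnt_kp_inr, if_neg]
      rintro ⟨h1, -, b, hb⟩
      apply hz
      refine ⟨b, ?_⟩
      have h2 := (Finset.mem_filter.1 h1).2
      rw [eq_vcl _ z h2]
      simp only [hyc]
      congr 1
      exact hb.symm
  · -- h3
    intro c S S' _ _ hd hd' hh hh' hfree
    refine uniq_of_injective (kp D) ?_ S S' hd hd' ?_ hfree
    · intro e e' v h h'
      rcases v with x | y
      · rw [kp_inl] at h h'
        rw [h.1, h'.1]
      · rw [kp_inr] at h h'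
        rw [h.1, h'.1]
    · intro v
      rw [tgt_of_hits (kp D) _ _ (hycinj c) S hh, tgt_of_hits (kp D) _ _ (hycinj c) S' hh']
  · -- positivity
    have h0 : (0 : ℝ) < ((D * k).choose 0 : ℝ) * q ^ (n.choose k - (n - 0).choose k - 0) := by
      simp
    exact lt_of_lt_of_le h0 (Finset.single_le_sum
      (f := fun j => ((D * k).choose j : ℝ) * q ^ (n.choose k - (n - j).choose k - j))
      (fun j _ => by positivity) (Finset.mem_range.2 (Nat.succ_pos _)))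
  · intro c
    rw [← sum_dif c (fun j => q ^ (n.choose k - (n - j).choose k - j))]
    refine Finset.sum_le_sum fun c' _ => ?_
    have h1 := diff_ge (n := n) D c c'
    rw [card_dif D hD] at h1
    exact pow_le_pow_of_le_one hq0.le hq1.le h1

end Pool.SatDet
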