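import Pool.Agent.Helper59.SAT.Num

/-!
# k-SAT: numbers for Pfaffians with cofactors
-/

set_option autoImplicit false

namespace Pool.SatDet

open Finset Real Pool.TDM

/-- the sum of the side U, Pfaffian form -/
theorem sum_pf_le (m D d : ℕ) (q y : ℝ) (hD : 1 ≤ D) (hDm : D < m) (hq0 : 0 < q) (hq1 : q < 1)
    (hxy : 2 * m * (d * (1 - q)) ≤ y) (hDy : 2 * (D : ℝ) ≤ y) :
    ∑ j ∈ range (2 * D + 1), ((2 * m - 2 * D - 1 + j).choose j : ℝ) * (1 - q ^ d) ^ j ≤
      (exp 1 * y / (2 * D)) ^ (2 * D) := by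
  have hqd : 0 ≤ 1 - q ^ d := by
    have := pow_le_one₀ (n := d) hq0.le hq1.le
    linarith
  have h1 : 1 - q ^ d ≤ d * (1 - q) := by
    have h2 := one_add_mul_le_pow (a := -(1 - q)) (by linarith) d
    have h3 : 1 + -(1 - q) = q := by ring
    rw [h3] at h2
    linarith
  have h4 := sum_choose_le (2 * m) (2 * D) (1 - q ^ d) y (by omega) (by omega) hqd (by
    push_cast
    calc 2 * (m : ℝ) * (1 - q ^ d) ≤ 2 * m * (d * (1 - q)) := by gcongr
      _ ≤ y := hxy) (by push_cast; exact hDy)
  push_cast at h4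
  exact h4

/-- the second moment sum with `1 - q = ln 2 (1 + δ) n / C(n, k)` -/
theorem second_sum' (n k N' : ℕ) (δ Λ : ℝ) (hδ0 : 0 < δ) (hδ1 : δ ≤ 1 / 4) (hΛ : Λ = log ((1 + δ) / δ))
    (hk : 25 ≤ k) (hΛk : Λ ≤ k) (hn : k + 3 ≤ n) (hN' : N' ≤ n) (q : ℝ)
    (hq : q = 1 - log 2 * (1 + δ) * n / (n.choose k : ℝ)) (hq0 : 0 ≤ q) :
    ∑ j ∈ range (N' + 1), (N'.choose j : ℝ) * q ^ (n.choose k - (n - j).choose k - j) ≤
      6 * (exp 1 * k / Λ) ^ (Λ * n / k : ℝ) := by
  have hn25 : 28 ≤ n := by omega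
  have hnr : (28 : ℝ) ≤ n := by exact_mod_cast hn25
  have hn0 : (0 : ℝ) < n := by linarith
  have hkr : (25 : ℝ) ≤ k := by exact_mod_cast hk
  have hk0 : (0 : ℝ) < k := by linarith
  have hlog2 := Real.log_two_gt_d9
  have hlog2' := Real.log_two_lt_d9
  have hΛ1 : 1 < Λ := by
    rw [hΛ, Real.lt_log_iff_exp_lt (by positivity)]
    have h1 : (5 : ℝ) ≤ (1 + δ) / δ := by
      rw [le_div_iff₀ hδ0]
      linarith
    have := Real.exp_one_lt_d9
    linarith
  have hΛ0 : 0 < Λ := by linarith
  set θ : ℝ := log 2 * (1 + δ) with hθ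
  have hθ0 : 0 < θ := by positivity
  have hθ1 : θ ≤ 0.87 := by rw [hθ]; nlinarith
  have hbig := choose_big n k (by omega) hn
  set N : ℝ := (n.choose k : ℝ) with hN
  have hNbig : (n : ℝ) * (n - 1) ≤ N := by
    have h1 : ((n * (n - 1) : ℕ) : ℝ) ≤ (n.choose k : ℝ) := by exact_mod_cast hbig
    rw [Nat.cast_mul, Nat.cast_sub (by omega), Nat.cast_one] at h1
    exact h1
  have hN0 : 0 < N := lt_of_lt_of_le (by nlinarith) hNbig
  set x : ℝ := θ * n / N with hx
  have hx0 : 0 < x := by positivity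
  have hxn : x * n ≤ 1.04 := by
    rw [hx, div_mul_eq_mul_div, div_le_iff₀ hN0]
    have h1 : θ * n * n ≤ 1 * n * n := by
      have : θ ≤ 1 := by linarith
      gcongr
    nlinarith
  set t : ℝ := Λ * n / k with ht
  have ht0 : 0 ≤ t := by positivity
  -- the single terms
  have hterm : ∀ j ∈ range (N' + 1), q ^ (n.choose k - (n - j).choose k - j) ≤
      2.83 * ((1 / 2) ^ n + (Λ / k) ^ j * ((k : ℝ) / Λ) ^ t) := by
    intro j hj
    have hjN : j ≤ n := (Nat.lt_succ_iff.1 (Finset.mem_range.1 hj)).trans hN'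
    have hjr : (j : ℝ) ≤ n := by exact_mod_cast hjN
    have hj0 : (0 : ℝ) ≤ j := Nat.cast_nonneg _
    -- exponent
    have h1 : (N - ((n - j).choose k : ℝ) - j) ≤ ((n.choose k - (n - j).choose k - j : ℕ) : ℝ) := by
      have h2 : n.choose k ≤ (n.choose k - (n - j).choose k - j) + (n - j).choose k + j := by omega
      have h3 : N ≤ ((n.choose k - (n - j).choose k - j : ℕ) : ℝ) + ((n - j).choose k : ℝ) + j := by
        rw [hN]
        exact_mod_cast h2
      linarith
    have h4 : ((n - j).choose k : ℝ) ≤ N * exp (-(j * k / n)) := by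
      have h5 := choose_sub_le n j k
      have h6 : ((n - j).choose k : ℝ) * n ^ k ≤ N * ((n : ℝ) - j) ^ k := by
        have h7 : (((n - j).choose k * n ^ k : ℕ) : ℝ) ≤ ((n.choose k * (n - j) ^ k : ℕ) : ℝ) := by
          exact_mod_cast h5
        push_cast [Nat.cast_sub hjN] at h7
        exact h7
      have h8 : ((n : ℝ) - j) ^ k ≤ n ^ k * exp (-(j * k / n)) := by
        have h9 : (n : ℝ) - j ≤ n * exp (-(j / n)) := by
          have h10 := Real.add_one_le_exp (-((j : ℝ) / n))
          have h11 : (n : ℝ) - j = n * (-(j / n) + 1) := by field_simp; ring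
          rw [h11]
          exact mul_le_mul_of_nonneg_left h10 hn0.le
        have h12 : (0 : ℝ) ≤ n - j := by linarith
        calc ((n : ℝ) - j) ^ k ≤ (n * exp (-(j / n))) ^ k := by gcongr
          _ = n ^ k * exp (-(j * k / n)) := by
            rw [mul_pow, ← Real.exp_nat_mul]
            congr 2
            ring
      have h13 : (0 : ℝ) < (n : ℝ) ^ k := by positivity
      have h14 : ((n - j).choose k : ℝ) * n ^ k ≤ (N * exp (-(j * k / n))) * n ^ k := by
        calc ((n - j).choose k : ℝ) * n ^ k ≤ N * ((n : ℝ) - j) ^ k := h6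
          _ ≤ N * (n ^ k * exp (-(j * k / n))) := by gcongr
          _ = _ := by ring
      exact le_of_mul_le_mul_right h14 h13
    have h15 : q ^ (n.choose k - (n - j).choose k - j) ≤
        exp (-(θ * n * (1 - exp (-(j * k / n)))) + 1.04) := by
      have h16 : q ≤ exp (-x) := by
        have := Real.add_one_le_exp (-x)
        rw [hq]
        linarith
      calc q ^ (n.choose k - (n - j).choose k - j) ≤ (exp (-x)) ^ (n.choose k - (n - j).choose k - j) := by
            gcongr
        _ = exp (((n.choose k - (n - j).choose k - j : ℕ) : ℝ) * (-x)) := by rw [← Real.exp_nat_mul]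
        _ ≤ exp (-(θ * n * (1 - exp (-(j * k / n)))) + 1.04) := by
            apply Real.exp_le_exp.2
            have h17 : x * (N - ((n - j).choose k : ℝ) - j) ≤
                x * ((n.choose k - (n - j).choose k - j : ℕ) : ℝ) := mul_le_mul_of_nonneg_left h1 hx0.le
            have h18 : x * ((n - j).choose k : ℝ) ≤ θ * n * exp (-(j * k / n)) := by
              calc x * ((n - j).choose k : ℝ) ≤ x * (N * exp (-(j * k / n))) := by gcongr
                _ = θ * n * exp (-(j * k / n)) := by rw [hx]; field_simp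
            have h19 : x * N = θ * n := by rw [hx]; field_simp
            have h20 : x * j ≤ 1.04 := (mul_le_mul_of_nonneg_left hjr hx0.le).trans hxn
            nlinarith
    have hexp104 : exp 1.04 ≤ 2.83 := by
      have h21 : (1.04 : ℝ) = 1 + 0.04 := by norm_num
      rw [h21, Real.exp_add]
      have h22 : exp (0.04 : ℝ) ≤ 1.041 := by
        have := Real.exp_bound' (x := 0.04) (by norm_num) (by norm_num) (n := 3) (by norm_num)
        refine this.trans ?_
        norm_num [Finset.sum_range_succ, Nat.factorial]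
      have h23 := Real.exp_one_lt_d9
      nlinarith [Real.exp_pos (0.04 : ℝ)]
    rw [Real.exp_add] at h15
    have h24 : exp (-(θ * n * (1 - exp (-(j * k / n))))) ≤
        (1 / 2) ^ n + (Λ / k) ^ j * ((k : ℝ) / Λ) ^ t := by
      have hpos1 : (0 : ℝ) ≤ (1 / 2) ^ n := by positivity
      have hpos2 : (0 : ℝ) ≤ (Λ / (k : ℝ)) ^ j * ((k : ℝ) / Λ) ^ t := by positivity
      rcases le_or_gt t (j : ℝ) with htj | htj
      · -- large distance
        have h25 : Λ ≤ (j : ℝ) * k / n := by
          rw [le_div_iff₀ hn0]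
          rw [ht, div_le_iff₀ hk0] at htj
          exact htj
        have h26 : exp (-(j * k / n)) ≤ δ / (1 + δ) := by
          have h27 : exp (-((j : ℝ) * k / n)) ≤ exp (-Λ) := Real.exp_le_exp.2 (by linarith)
          have h28 : exp (-Λ) = δ / (1 + δ) := by
            rw [Real.exp_neg, hΛ, Real.exp_log (by positivity), inv_div]
          rw [h28] at h27
          exact h27
        have h32 : exp (-(θ * n * (1 - exp (-(j * k / n))))) ≤ (1 / 2) ^ n := by
          have h33 : ((1 : ℝ) / 2) ^ n = exp (-(n * log 2)) := by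
            rw [← Real.exp_log (show (0 : ℝ) < 1 / 2 by norm_num), ← Real.exp_nat_mul]
            congr 1
            rw [one_div, Real.log_inv]
            ring
          rw [h33]
          apply Real.exp_le_exp.2
          have h34 : 1 / (1 + δ) ≤ 1 - exp (-(j * k / n)) := by
            have : 1 / (1 + δ) = 1 - δ / (1 + δ) := by field_simp; ring
            rw [this]
            linarith
          have h35 : θ * n * (1 / (1 + δ)) ≤ θ * n * (1 - exp (-(j * k / n))) := by gcongr
          have h36 : θ * n * (1 / (1 + δ)) = n * log 2 := by rw [hθ]; field_simp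
          linarith
        linarith
      · have h35 : exp (-(θ * n * (1 - exp (-(j * k / n))))) ≤ 1 := by
          rw [Real.exp_le_one_iff]
          have h36 : exp (-((j : ℝ) * k / n)) ≤ 1 := by
            rw [Real.exp_le_one_iff]
            have : 0 ≤ (j : ℝ) * k / n := by positivity
            linarith
          have h37 : 0 ≤ θ * n * (1 - exp (-(j * k / n))) := by
            apply mul_nonneg (by positivity)
            linarith
          linarith
        have hkΛ : 1 ≤ (k : ℝ) / Λ := by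
          rw [le_div_iff₀ hΛ0, one_mul]
          exact hΛk
        have h37 : 1 ≤ (Λ / (k : ℝ)) ^ j * ((k : ℝ) / Λ) ^ t := by
          have h38 : ((k : ℝ) / Λ) ^ (j : ℝ) ≤ ((k : ℝ) / Λ) ^ t :=
            Real.rpow_le_rpow_of_exponent_le hkΛ htj.le
          have h39 : (Λ / (k : ℝ)) ^ j = (((k : ℝ) / Λ) ^ (j : ℝ))⁻¹ := by
            rw [Real.rpow_natCast, ← inv_pow]
            congr 1
            field_simp
          rw [h39]
          have h40 : 0 < ((k : ℝ) / Λ) ^ (j : ℝ) := by positivity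
          rw [inv_mul_eq_div, le_div_iff₀ h40, one_mul]
          exact h38
        linarith
    calc q ^ (n.choose k - (n - j).choose k - j)
        ≤ exp (-(θ * n * (1 - exp (-(j * k / n))))) * exp 1.04 := h15
      _ ≤ ((1 / 2) ^ n + (Λ / k) ^ j * ((k : ℝ) / Λ) ^ t) * 2.83 := by gcongr
      _ = _ := by ring
  -- summation
  have hbin : ∑ j ∈ range (N' + 1), (N'.choose j : ℝ) * (Λ / (k : ℝ)) ^ j = (1 + Λ / k) ^ N' := by
    rw [add_comm (1 : ℝ), add_pow]
    refine Finset.sum_congr rfl fun j _ => ?_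
    rw [one_pow]
    ring
  have hbin2 : ∑ j ∈ range (N' + 1), (N'.choose j : ℝ) = 2 ^ N' := by
    exact_mod_cast Nat.sum_range_choose N'
  have hsum : ∑ j ∈ range (N' + 1), (N'.choose j : ℝ) * q ^ (n.choose k - (n - j).choose k - j) ≤
      2.83 * (2 ^ N' * (1 / 2) ^ n + (1 + Λ / k) ^ N' * ((k : ℝ) / Λ) ^ t) := by
    calc ∑ j ∈ range (N' + 1), (N'.choose j : ℝ) * q ^ (n.choose k - (n - j).choose k - j)
        ≤ ∑ j ∈ range (N' + 1), (N'.choose j : ℝ) *
            (2.83 * ((1 / 2) ^ n + (Λ / k) ^ j * ((k : ℝ) / Λ) ^ t)) := by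
          refine Finset.sum_le_sum fun j hj => ?_
          exact mul_le_mul_of_nonneg_left (hterm j hj) (Nat.cast_nonneg _)
      _ = 2.83 * ((∑ j ∈ range (N' + 1), (N'.choose j : ℝ)) * (1 / 2) ^ n +
            (∑ j ∈ range (N' + 1), (N'.choose j : ℝ) * (Λ / (k : ℝ)) ^ j) * ((k : ℝ) / Λ) ^ t) := by
          rw [Finset.sum_mul, Finset.sum_mul, ← Finset.sum_add_distrib, Finset.mul_sum]
          refine Finset.sum_congr rfl fun j _ => ?_
          ring
      _ = _ := by rw [hbin, hbin2]
  have hA : (2 : ℝ) ^ N' * (1 / 2) ^ n ≤ 1 := by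
    calc (2 : ℝ) ^ N' * (1 / 2) ^ n ≤ 2 ^ n * (1 / 2) ^ n := by
          gcongr
          norm_num
      _ = 1 := by rw [← mul_pow]; norm_num
  have hB : (1 + Λ / (k : ℝ)) ^ N' ≤ exp 1 ^ t := by
    calc (1 + Λ / (k : ℝ)) ^ N' ≤ (exp (Λ / k)) ^ N' := by
          gcongr
          have := Real.add_one_le_exp (Λ / (k : ℝ))
          linarith
      _ = exp (N' * (Λ / k)) := by rw [← Real.exp_nat_mul]
      _ ≤ exp (t) := by
          apply Real.exp_le_exp.2
          rw [ht]
          have : (N' : ℝ) ≤ n := by exact_mod_cast hN'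
          calc (N' : ℝ) * (Λ / k) ≤ n * (Λ / k) := by gcongr
            _ = Λ * n / k := by ring
      _ = exp 1 ^ t := by rw [← Real.exp_mul, one_mul]
  have hC : (exp 1 * k / Λ) ^ t = exp 1 ^ t * ((k : ℝ) / Λ) ^ t := by
    rw [mul_div_assoc, Real.mul_rpow (exp_pos 1).le (by positivity)]
  have hD : 1 ≤ (exp 1 * k / Λ) ^ t := by
    apply Real.one_le_rpow _ ht0
    rw [le_div_iff₀ hΛ0]
    have := Real.exp_one_gt_d9
    nlinarith
  calc ∑ j ∈ range (N' + 1), (N'.choose j : ℝ) * q ^ (n.choose k - (n - j).choose k - j)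
      ≤ 2.83 * (2 ^ N' * (1 / 2) ^ n + (1 + Λ / k) ^ N' * ((k : ℝ) / Λ) ^ t) := hsum
    _ ≤ 2.83 * (1 + exp 1 ^ t * ((k : ℝ) / Λ) ^ t) := by gcongr
    _ = 2.83 * (1 + (exp 1 * k / Λ) ^ t) := by rw [hC]
    _ ≤ 6 * (exp 1 * k / Λ) ^ t := by linarith

end Pool.SatDet
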