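import Pool.Agent.Helper59.SAT.NumPf

/-!
# k-SAT: numbers for Pfaffians with cofactors, final form
-/

set_option autoImplicit false

namespace Pool.SatDet

open Finset Real Pool.TDM

theorem log_le_two_sqrt {z : ℝ} (hz : 0 < z) : log z ≤ 2 * √z - 2 := by
  have h1 : log z = 2 * log (√z) := by
    rw [Real.log_sqrt hz.le]
    ring
  rw [h1]
  have := Real.log_le_sub_one_of_pos (Real.sqrt_pos.2 hz)
  linarith

theorem small_term {u R : ℝ} (hu : 0 < u) (hR : 0 < R) (huR : u ≤ 1 / R ^ 2) : u * log (exp 1 / u) ≤ 2 / R := by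
  have h1 : log (exp 1 / u) = 1 + log (1 / u) := by
    rw [Real.log_div (exp_pos 1).ne' hu.ne', Real.log_exp, one_div, Real.log_inv]
    ring
  have h2 := log_le_two_sqrt (show 0 < 1 / u by positivity)
  have hs : 0 < √u := Real.sqrt_pos.2 hu
  have h3 : √(1 / u) = 1 / √u := by rw [Real.sqrt_div zero_le_one, Real.sqrt_one]
  have h4 : √u * √u = u := Real.mul_self_sqrt hu.le
  have h5 : √u ≤ 1 / R := by
    rw [Real.sqrt_le_left (by positivity)]
    rw [div_pow, one_pow]
    exact huR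
  rw [h3] at h2
  rw [h1]
  calc u * (1 + log (1 / u)) ≤ u * (1 + (2 * (1 / √u) - 2)) := by gcongr
    _ = 2 * √u - u := by
        have : u * (1 / √u) = √u := by
          rw [mul_one_div, div_eq_iff hs.ne']
          exact h4.symm
        linear_combination 2 * this
    _ ≤ 2 * (1 / R) := by linarith
    _ = 2 / R := by ring

/-- the term of the second moment -/
theorem term1 {Λ k R n : ℝ} (hΛ : 0 < Λ) (hk : 0 < k) (hR : 0 < R) (hn : 0 ≤ n) (hRk : R ^ 2 * Λ ≤ k) :
    Λ * n / k * log (exp 1 * k / Λ) ≤ 2 / R * n := by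
  have hu : 0 < Λ / k := by positivity
  have huR : Λ / k ≤ 1 / R ^ 2 := by
    rw [div_le_div_iff₀ hk (by positivity)]
    linarith
  have h1 := small_term hu hR huR
  have h2 : exp 1 / (Λ / k) = exp 1 * k / Λ := by field_simp
  rw [h2] at h1
  calc Λ * n / k * log (exp 1 * k / Λ) = n * (Λ / k * log (exp 1 * k / Λ)) := by ring
    _ ≤ n * (2 / R) := by gcongr
    _ = _ := by ring

/-- the term of side U -/
theorem term2 {D k R n K : ℝ} (hk : 1 ≤ k) (hR : 0 < R) (hn : 0 ≤ n) (hK : 0 < K)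
    (hRk : R ^ 2 ≤ k) (hDn : D * k ≤ n) :
    2 * D * (log (10 * k) + k / K * log 2) ≤ 13 / R * n + 2 * log 2 / K * n := by
  have hk0 : 0 < k := by linarith
  have hDn' : D ≤ n / k := by
    rw [le_div_iff₀ hk0]
    exact hDn
  have h1 : log (10 * k) ≤ 6.4 * √k := by
    have h2 := log_le_two_sqrt (show (0 : ℝ) < 10 * k by positivity)
    have h3 : √(10 * k) ≤ 3.2 * √k := by
      rw [Real.sqrt_mul (by norm_num)]
      gcongr
      rw [Real.sqrt_le_left (by norm_num)]
      norm_num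
    linarith
  have hlogk : 0 ≤ log (10 * k) := Real.log_nonneg (by linarith)
  have hsk : R ≤ √k := Real.le_sqrt_of_sq_le hRk
  have hkk : √k * √k = k := Real.mul_self_sqrt hk0.le
  have h4 : log (10 * k) / k ≤ 6.4 / R := by
    rw [div_le_div_iff₀ hk0 hR]
    calc log (10 * k) * R ≤ (6.4 * √k) * √k := by gcongr
      _ = 6.4 * k := by rw [mul_assoc, hkk]
  have hlog2pos : 0 < log 2 := Real.log_pos (by norm_num)
  calc 2 * D * (log (10 * k) + k / K * log 2) ≤ 2 * (n / k) * (log (10 * k) + k / K * log 2) := by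
        gcongr
    _ = 2 * n * (log (10 * k) / k) + 2 * log 2 / K * n := by
        field_simp
    _ ≤ 2 * n * (6.4 / R) + 2 * log 2 / K * n := by gcongr
    _ ≤ 13 / R * n + 2 * log 2 / K * n := by
        have h5 : 2 * n * (6.4 / R) = 12.8 / R * n := by ring
        rw [h5]
        have : 12.8 / R * n ≤ 13 / R * n := by gcongr; norm_num
        linarith

/-- the base of side U -/
theorem base_le {D k n θ G : ℝ} (hD : 1 ≤ D) (hk : 0 < k) (hG : 0 < G) (hθ0 : 0 < θ) (hθ : θ ≤ 0.87)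
    (hn : n ≤ k + D * k) (hn0 : 0 < n) : exp 1 * (4 * θ * G * n) / (2 * D) ≤ 10 * k * G := by
  have hD0 : 0 < D := by linarith
  rw [div_le_iff₀ (by positivity)]
  have h1 : n ≤ 2 * (D * k) := by
    have : k ≤ D * k := by
      calc k = 1 * k := by ring
        _ ≤ D * k := by gcongr
    linarith
  have he' : exp 1 ≤ 2.72 := by
    have := Real.exp_one_lt_d9
    linarith
  calc exp 1 * (4 * θ * G * n) ≤ 2.72 * (4 * 0.87 * G * (2 * (D * k))) := by gcongr
    _ = 18.9312 * (D * k * G) := by ring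
    _ ≤ 20 * (D * k * G) := by gcongr; norm_num
    _ = 10 * k * G * (2 * D) := by ring

/-- the price of the cofactors and of the degree of the entries -/
theorem price {ν k N θ x q n : ℝ} {D d : ℕ} (hν : 0 ≤ ν) (hνN : ν ≤ N) (hk : 1 ≤ k) (hN : 0 < N)
    (hx0 : 0 < x) (hx1 : x ≤ 1 / 2) (hxN : x * N = θ * n) (hxn : x * n ≤ 1) (hθ : θ ≤ 0.87)
    (hθ0 : 0 < θ) (hn : 0 < n) (hq : q = 1 - x) (hDd : (D : ℝ) * d ≤ N / k) :
    -(θ * (ν / N) * n) - θ * n / k - 4 ≤ (ν + D * ((d - 1 : ℕ) : ℝ)) * log q := by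
  have hq0 : 0 < q := by linarith
  have hk0 : 0 < k := by linarith
  have hlogq : -x - 2 * x ^ 2 ≤ log q := by
    have h1 := Real.one_sub_inv_le_log_of_pos hq0
    have h2 : -x - 2 * x ^ 2 ≤ 1 - q⁻¹ := by
      have h3 : q⁻¹ ≤ 1 + x + 2 * x ^ 2 := by
        rw [inv_le_iff_one_le_mul₀ hq0, hq]
        nlinarith [sq_nonneg x]
      linarith
    linarith
  have hcast : ((d - 1 : ℕ) : ℝ) ≤ d := by
    exact_mod_cast Nat.sub_le d 1
  have h1 : ν + D * ((d - 1 : ℕ) : ℝ) ≤ ν + N / k := by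
    have : (D : ℝ) * ((d - 1 : ℕ) : ℝ) ≤ D * d := by gcongr
    linarith
  have h2 : 0 ≤ ν + D * ((d - 1 : ℕ) : ℝ) := by positivity
  have h3 : 0 ≤ x + 2 * x ^ 2 := by positivity
  have h4 : (ν + D * ((d - 1 : ℕ) : ℝ)) * (x + 2 * x ^ 2) ≤ (ν + N / k) * (x + 2 * x ^ 2) := by
    gcongr
  have h5 : (ν + D * ((d - 1 : ℕ) : ℝ)) * (-x - 2 * x ^ 2) ≤
      (ν + D * ((d - 1 : ℕ) : ℝ)) * log q := by gcongr
  have e1 : ν * x = θ * (ν / N) * n := by
    have : x = θ * n / N := by
      rw [eq_div_iff hN.ne']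
      exact hxN
    rw [this]
    ring
  have e2 : N / k * x = θ * n / k := by
    rw [div_mul_eq_mul_div, mul_comm N x, hxN]
  have e3 : x ^ 2 * N ≤ 0.87 := by
    calc x ^ 2 * N = x * (x * N) := by ring
      _ = θ * (x * n) := by rw [hxN]; ring
      _ ≤ 0.87 * 1 := by gcongr
      _ = 0.87 := by norm_num
  have e4 : (ν + N / k) * (2 * x ^ 2) ≤ 4 := by
    have h7 : ν + N / k ≤ 2 * N := by
      have : N / k ≤ N := div_le_self hN.le hk
      linarith
    calc (ν + N / k) * (2 * x ^ 2) ≤ 2 * N * (2 * x ^ 2) := by gcongr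
      _ = 4 * (x ^ 2 * N) := by ring
      _ ≤ 4 := by linarith
  have h6 : (ν + N / k) * (x + 2 * x ^ 2) ≤ θ * (ν / N) * n + θ * n / k + 4 := by
    calc (ν + N / k) * (x + 2 * x ^ 2) = ν * x + N / k * x + (ν + N / k) * (2 * x ^ 2) := by ring
      _ ≤ θ * (ν / N) * n + θ * n / k + 4 := by rw [e1, e2]; linarith
  linarith

theorem log_six : log 6 ≤ 2 := by
  rw [Real.log_le_iff_le_exp (by norm_num)]
  have := Real.exp_one_gt_d9
  have h2 : exp 2 = exp 1 * exp 1 := by rw [← Real.exp_add]; norm_num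
  rw [h2]
  nlinarith

/-- the final computation -/
theorem conclude {ε e δ θ β n k K R D t1 t2 lT pr : ℝ} (he0 : 0 < e) (he1 : e ≤ 1) (heε : e ≤ ε)
    (hδ : δ = e / 8) (hθ : θ = log 2 * (1 + δ)) (hβ0 : 0 ≤ β) (hβ1 : β ≤ 1) (hn0 : 0 < n)
    (hk0 : 0 < k) (hK0 : 0 < K) (hkK : K ≤ k) (hkn : k ≤ n / K) (hKn : K ≤ n) (hR : R = 102 / e)
    (hRK : R ^ 2 ≤ K) (hnk : n ≤ k + D * k)
    (ht1 : t1 ≤ 2 / R * n) (ht2 : t2 ≤ 13 / R * n + 2 * log 2 / K * n)
    (hpr : -(θ * β * n) - θ * n / k - 4 ≤ pr)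
    (hL : pr + D * k * log 2 ≤ log 6 + t1 + (lT + t2)) :
    (1 - β - ε) * n * log 2 ≤ lT := by
  have hlog2 := Real.log_two_gt_d9
  have hlog2' := Real.log_two_lt_d9
  have hl0 : 0 < log 2 := by linarith
  have hθ1 : θ ≤ 1 := by rw [hθ, hδ]; nlinarith
  have hDk2 : (n - k) * log 2 ≤ D * k * log 2 := by
    apply mul_le_mul_of_nonneg_right _ hl0.le
    linarith
  have hθβ : θ * β * n ≤ β * n * log 2 + δ * n * log 2 := by
    have h1 : δ * β * (n * log 2) ≤ δ * 1 * (n * log 2) := by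
      have : 0 ≤ δ := by rw [hδ]; positivity
      gcongr
    calc θ * β * n = β * n * log 2 + δ * β * (n * log 2) := by rw [hθ]; ring
      _ ≤ β * n * log 2 + δ * 1 * (n * log 2) := by linarith
      _ = _ := by ring
  have hθk : θ * n / k ≤ n / K := by
    calc θ * n / k ≤ 1 * n / k := by gcongr
      _ = n / k := by ring
      _ ≤ n / K := by gcongr
  have hklog : k * log 2 ≤ n / K := by
    calc k * log 2 ≤ k * 1 := by gcongr; linarith
      _ ≤ n / K := by linarith
  have h6K : 6 ≤ 6 * (n / K) := by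
    have : 1 ≤ n / K := by
      rw [le_div_iff₀ hK0]
      linarith
    linarith
  have h2K : 2 * log 2 / K * n ≤ 2 * (n / K) := by
    calc 2 * log 2 / K * n = 2 * log 2 * (n / K) := by ring
      _ ≤ 2 * 1 * (n / K) := by gcongr; linarith
      _ = _ := by ring
  have hnKe : 10 * (n / K) ≤ e / 16 * n := by
    have h3 : 160 / e ≤ R ^ 2 := by
      rw [hR, div_pow, div_le_div_iff₀ he0 (by positivity)]
      nlinarith
    have h1 : 160 / e ≤ K := h3.trans hRK
    rw [div_le_iff₀ he0] at h1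
    have h4 : 10 / K ≤ e / 16 := by
      rw [div_le_div_iff₀ hK0 (by norm_num)]
      linarith
    calc 10 * (n / K) = 10 / K * n := by ring
      _ ≤ e / 16 * n := mul_le_mul_of_nonneg_right h4 hn0.le
  have hR15 : 2 / R * n + 13 / R * n ≤ e * 0.15 * n := by
    have h1 : 2 / R + 13 / R ≤ e * 0.15 := by
      rw [hR, ← add_div, div_div_eq_mul_div, div_le_iff₀ (by norm_num)]
      linarith
    calc 2 / R * n + 13 / R * n = (2 / R + 13 / R) * n := by ring
      _ ≤ e * 0.15 * n := by gcongr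
  have hεn : e * n * log 2 ≤ ε * n * log 2 := by gcongr
  have hδn : δ * n * log 2 = e * n * log 2 / 8 := by rw [hδ]; ring
  have hen : 0 ≤ e * n := by positivity
  have hen2 : e * n * 0.69 ≤ e * n * log 2 := by gcongr; linarith
  have hfinal : (1 - β - ε) * n * log 2 = n * log 2 - β * n * log 2 - ε * n * log 2 := by ring
  have h6 := log_six
  have hDk3 : n * log 2 - k * log 2 ≤ D * k * log 2 := by linarith
  rw [hfinal]
  linarith

end Pool.SatDet
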