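import Pool.Agent.Helper59.SAT.Main
import Pool.Agent.Helper76.RT.Core

/-!
# k-SAT: signed permutations act on clauses and assignments
-/

set_option autoImplicit false

namespace Pool.SatDet

open Finset

variable {n k : ℕ}

/-- permutations of the variables, with sign changes -/
abbrev Gm (n : ℕ) : Type := Equiv.Perm (Fin n) × (Fin n → Bool)

/-- action on the literals -/
def actL (g : Gm n) (p : Fin n × Bool) : Fin n × Bool := (g.1 p.1, xor p.2 (g.2 p.1))

/-- action on the assignments -/
def actA (g : Gm n) (a : Fin n → Bool) : Fin n → Bool :=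
  fun j => xor (a (g.1.symm j)) (g.2 (g.1.symm j))

theorem actL_injective (g : Gm n) : Function.Injective (actL g) := by
  rintro ⟨i, s⟩ ⟨j, t⟩ h
  simp only [actL, Prod.mk.injEq] at h
  obtain ⟨h1, h2⟩ := h
  have h3 := g.1.injective h1
  subst h3
  cases s <;> cases t <;> simp_all

/-- action on the clauses -/
def actC (g : Gm n) (C : Clause n k) : Clause n k :=
  ⟨C.1.image (actL g), by
    constructor
    · rw [Finset.card_image_of_injective _ (actL_injective g)]
      exact C.2.1
    · rintro j ⟨h1, h2⟩
      rw [Finset.mem_image] at h1 h2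
      obtain ⟨⟨i, s⟩, hi, hs⟩ := h1
      obtain ⟨⟨i', s'⟩, hi', hs'⟩ := h2
      simp only [actL, Prod.mk.injEq] at hs hs'
      have h3 : i = i' := g.1.injective (hs.1.trans hs'.1.symm)
      subst h3
      have h4 : s ≠ s' := by
        rintro rfl
        rw [hs.2] at hs'
        exact Bool.noConfusion hs'.2
      have h5 := C.2.2 i
      cases s <;> cases s' <;> simp_all⟩

theorem actC_injective (g : Gm n) : Function.Injective (actC (k := k) g) := by
  intro C C' h
  apply Subtype.ext
  exact Finset.image_injective (actL_injective g) (congrArg Subtype.val h)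

theorem actC_surjective (g : Gm n) : Function.Surjective (actC (k := k) g) :=
  Finite.injective_iff_surjective.1 (actC_injective g)

theorem sats_act (g : Gm n) (a : Fin n → Bool) (C : Clause n k) :
    Sats (actA g a) (actC g C) ↔ Sats a C := by
  unfold Sats actC
  simp only [Finset.mem_image]
  constructor
  · rintro ⟨p, ⟨q, hq, rfl⟩, h⟩
    refine ⟨q, hq, ?_⟩
    simp only [actL, actA, Equiv.symm_apply_apply] at h
    cases h1 : a q.1 <;> cases h2 : q.2 <;> cases h3 : g.2 q.1 <;> simp_all
  · rintro ⟨q, hq, h⟩
    refine ⟨actL g q, ⟨q, hq, rfl⟩, ?_⟩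
    simp only [actL, actA, Equiv.symm_apply_apply]
    rw [h]

theorem supp_actC (g : Gm n) (C : Clause n k) : supp (actC g C) = (supp C).image g.1 := by
  unfold supp actC
  simp only [Finset.image_image]
  congr 1

theorem actC_vcl (g : Gm n) (a : Fin n → Bool) (s : Finset (Fin n)) (hs : s.card = k) :
    actC g (vcl a s hs) = vcl (actA g a) (s.image g.1)
      ((Finset.card_image_of_injective _ g.1.injective).trans hs) := by
  have h1 := eq_vcl (actA g a) (actC g (vcl a s hs)) (by
    rw [sats_act]
    exact not_sats_vcl a s hs)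
  have h2 : supp (actC g (vcl a s hs)) = s.image g.1 := by rw [supp_actC, supp_vcl]
  rw [h1]
  congr 1

/-- for a fixed permutation, the signs give every assignment exactly once -/
def signEquiv (π : Equiv.Perm (Fin n)) (a : Fin n → Bool) : (Fin n → Bool) ≃ (Fin n → Bool) where
  toFun s := actA (π, s) a
  invFun a' := fun i => xor (a i) (a' (π i))
  left_inv s := by
    funext i
    simp [actA]
  right_inv a' := by
    funext j
    simp [actA]

theorem actA_surjective (g : Gm n) : Function.Surjective (actA g) := by
  intro a'
  refine ⟨fun i => xor (a' (g.1 i)) (g.2 i), ?_⟩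
  funext j
  simp [actA]

/-- averages over permutations of a function of the image of a set of size `k` -/
theorem perm_avg (Φ : Finset (Fin n) → ℝ) (S0 : Finset (Fin n)) (hS0 : S0.card = k) :
    (n.choose k : ℝ) * ∑ π : Equiv.Perm (Fin n), Φ (S0.image π) =
      (Fintype.card (Equiv.Perm (Fin n)) : ℝ) *
        ∑ S ∈ Finset.powersetCard k (Finset.univ : Finset (Fin n)), Φ S := by
  classical
  have h1 : ∀ S1 ∈ Finset.powersetCard k (Finset.univ : Finset (Fin n)),
      ∑ π : Equiv.Perm (Fin n), Φ (S1.image π) = ∑ π : Equiv.Perm (Fin n), Φ (S0.image π) := by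
    intro S1 hS1
    rw [Finset.mem_powersetCard] at hS1
    have hcard : Fintype.card {x // x ∈ S0} = Fintype.card {x // x ∈ S1} := by
      rw [Fintype.card_coe, Fintype.card_coe, hS0, hS1.2]
    set e := Fintype.equivOfCardEq hcard with he
    set σ : Equiv.Perm (Fin n) := e.extendSubtype with hσ
    have hσS : S0.image σ = S1 := by
      apply Finset.eq_of_subset_of_card_le
      · intro x hx
        rw [Finset.mem_image] at hx
        obtain ⟨y, hy, rfl⟩ := hx
        exact e.extendSubtype_mem y hy
      · rw [Finset.card_image_of_injective _ σ.injective, hS0, hS1.2]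
    rw [← hσS]
    refine Fintype.sum_equiv (Equiv.mulRight σ) _ _ fun π => ?_
    rw [Finset.image_image]
    rfl
  have h2 : ∑ S1 ∈ Finset.powersetCard k (Finset.univ : Finset (Fin n)),
      ∑ π : Equiv.Perm (Fin n), Φ (S1.image π) =
      (n.choose k : ℝ) * ∑ π : Equiv.Perm (Fin n), Φ (S0.image π) := by
    rw [Finset.sum_congr rfl h1, Finset.sum_const, Finset.card_powersetCard, Finset.card_univ,
      Fintype.card_fin, nsmul_eq_mul]
  rw [← h2, Finset.sum_comm]
  have h3 : ∀ π : Equiv.Perm (Fin n),
      ∑ S1 ∈ Finset.powersetCard k (Finset.univ : Finset (Fin n)), Φ (S1.image π) =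
      ∑ S ∈ Finset.powersetCard k (Finset.univ : Finset (Fin n)), Φ S := by
    intro π
    refine Finset.sum_bij' (fun S _ => S.image π) (fun S _ => S.image π.symm) ?_ ?_ ?_ ?_ ?_
    · intro S hS
      rw [Finset.mem_powersetCard] at hS ⊢
      exact ⟨Finset.subset_univ _, by rw [Finset.card_image_of_injective _ π.injective, hS.2]⟩
    · intro S hS
      rw [Finset.mem_powersetCard] at hS ⊢
      exact ⟨Finset.subset_univ _, by rw [Finset.card_image_of_injective _ π.symm.injective, hS.2]⟩
    · intro S _
      simp [Finset.image_image]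
    · intro S _
      simp [Finset.image_image]
    · intro S _
      rfl
  simp_rw [h3]
  rw [Finset.sum_const, Finset.card_univ, nsmul_eq_mul]

end Pool.SatDet
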