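import Pool.Agent.Helper59.SAT.RTA

/-!
# k-SAT: the number of block clauses in a monomial, on average over the group
-/

set_option autoImplicit false

namespace Pool.SatDet

open Finset

variable {n k : ℕ}

/-- clauses of the gadget: not dead, not on a block -/
abbrev XT (n k D : ℕ) : Type := {C : Clause n k // ¬ Dead D C ∧ ¬ IsBlk (k := k) D (supp C)}

/-- clauses on blocks: not dead -/
abbrev YT (n k D : ℕ) : Type := {C : Clause n k // ¬ Dead D C ∧ IsBlk (k := k) D (supp C)}

noncomputable instance (D : ℕ) : Fintype (XT n k D) := by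
  classical
  exact Subtype.fintype _

noncomputable instance (D : ℕ) : Fintype (YT n k D) := by
  classical
  exact Subtype.fintype _

/-- sums over the clauses violated by an assignment -/
theorem sum_viol (a : Fin n → Bool) (Φ : Clause n k → ℝ) (h0 : ∀ C, Sats a C → Φ C = 0) :
    ∑ C : Clause n k, Φ C = ∑ s ∈ (Finset.powersetCard k (Finset.univ : Finset (Fin n))).attach,
      Φ (vcl a s.1 (Finset.mem_powersetCard.1 s.2).2) := by
  classical
  have h1 : ∑ C : Clause n k, Φ C = ∑ C ∈ Finset.univ.filter (fun C : Clause n k => ¬ Sats a C), Φ C := by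
    symm
    refine Finset.sum_subset (Finset.filter_subset _ _) fun C _ hC => h0 C ?_
    by_contra h
    exact hC (Finset.mem_filter.2 ⟨Finset.mem_univ _, h⟩)
  rw [h1]
  symm
  refine Finset.sum_bij' (fun s _ => vcl a s.1 (Finset.mem_powersetCard.1 s.2).2)
    (fun C _ => ⟨supp C, Finset.mem_powersetCard.2 ⟨Finset.subset_univ _, card_supp C⟩⟩) ?_ ?_ ?_ ?_ ?_
  · intro s _
    exact Finset.mem_filter.2 ⟨Finset.mem_univ _, not_sats_vcl _ _ _⟩
  · intro C _
    exact Finset.mem_attach _ _
  · intro s _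
    apply Subtype.ext
    exact supp_vcl _ _ _
  · intro C hC
    exact (eq_vcl a C (Finset.mem_filter.1 hC).2).symm
  · intro s _
    rfl

/-- the violated clause of a set of variables, as a total function -/
noncomputable def vv (a : Fin n → Bool) (Φ : Clause n k → ℝ) (s : Finset (Fin n)) : ℝ :=
  open Classical in if h : s.card = k then Φ (vcl a s h) else 0

theorem sum_vv (a : Fin n → Bool) (Φ : Clause n k → ℝ) (h0 : ∀ C, Sats a C → Φ C = 0) :
    ∑ s ∈ Finset.powersetCard k (Finset.univ : Finset (Fin n)), vv a Φ s = ∑ C : Clause n k, Φ C := by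
  rw [sum_viol a Φ h0, ← Finset.sum_attach]
  refine Finset.sum_congr rfl fun s _ => ?_
  rw [vv, dif_pos]

/-- THE AVERAGE. `Φ a'` is a nonnegative function on the clauses, zero on those satisfied by `a'`,
with sum at most `lam * C(n,k)`. The block clauses of the choice `c` contribute on average at most
`D * lam`. -/
theorem group_avg {D : ℕ} (hk : 0 < k) (hkn : k ≤ n) (hD : D * k ≤ n) (c : Fin (D * k) → Bool)
    (Φ : (Fin n → Bool) → Clause n k → ℝ) (h0 : ∀ a C, Sats a C → Φ a C = 0)
    (lam : ℝ) (hlam : ∀ a, ∑ C, Φ a C ≤ lam * n.choose k) :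
    ∑ g : Gm n, ∑ y : YT n k D, Φ (actA g (ext' D c)) (actC g y.1) ≤
      (Fintype.card (Gm n) : ℝ) * (D * lam) := by
  classical
  have hN : (0 : ℝ) < n.choose k := by exact_mod_cast Nat.choose_pos hkn
  -- only the block clauses of `c` contribute
  have h1 : ∀ g : Gm n, ∑ y : YT n k D, Φ (actA g (ext' D c)) (actC g y.1) =
      ∑ b : Fin D, vv (actA g (ext' D c)) (Φ (actA g (ext' D c))) ((blk n k b).image g.1) := by
    intro g
    set a0 : Fin n → Bool := ext' D c with ha0
    have hyB : ∀ b : Fin D, ¬ Dead D (vcl a0 (blk n k b) (card_blk hk hD b b.2)) ∧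
        IsBlk (k := k) D (supp (vcl a0 (blk n k b) (card_blk hk hD b b.2))) := by
      intro b
      refine ⟨not_dead c _ (not_sats_vcl _ _ _), ⟨b, ?_⟩⟩
      rw [supp_vcl]
    set yb : Fin D → YT n k D := fun b => ⟨vcl a0 (blk n k b) (card_blk hk hD b b.2), hyB b⟩ with hyb
    have hinj : Function.Injective yb := by
      intro b b' h
      have h2 := congrArg (fun y : YT n k D => supp y.1) h
      simp only [hyb, supp_vcl] at h2
      exact Fin.ext (blk_injective hk hD b.2 h2)
    have h2 : ∑ y : YT n k D, Φ (actA g a0) (actC g y.1) =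
        ∑ y ∈ Finset.univ.image yb, Φ (actA g a0) (actC g y.1) := by
      symm
      refine Finset.sum_subset (Finset.subset_univ _) fun y _ hy => h0 _ _ ?_
      rw [sats_act]
      by_contra h3
      apply hy
      obtain ⟨b, hb⟩ := y.2.2
      refine Finset.mem_image.2 ⟨b, Finset.mem_univ _, Subtype.ext ?_⟩
      simp only [hyb]
      rw [eq_vcl a0 y.1 h3]
      congr 1
      exact hb.symm
    rw [h2, Finset.sum_image fun b _ b' _ h => hinj h]
    refine Finset.sum_congr rfl fun b _ => ?_
    simp only [hyb]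
    rw [actC_vcl, vv, dif_pos]
  simp_rw [h1]
  rw [Finset.sum_comm]
  have h2 : ∀ b : Fin D, ∑ g : Gm n, vv (actA g (ext' D c)) (Φ (actA g (ext' D c)))
      ((blk n k b).image g.1) ≤ (Fintype.card (Gm n) : ℝ) * lam := by
    intro b
    rw [Fintype.sum_prod_type]
    have h3 : ∀ π : Equiv.Perm (Fin n), ∑ s : Fin n → Bool, vv (actA (π, s) (ext' D c))
        (Φ (actA (π, s) (ext' D c))) ((blk n k b).image (π, s).1) =
        ∑ a' : Fin n → Bool, vv a' (Φ a') ((blk n k b).image π) := fun π =>
      Fintype.sum_equiv (signEquiv π (ext' D c)) _ _ fun s => rfl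
    simp_rw [h3]
    rw [Finset.sum_comm]
    have h4 : ∀ a' : Fin n → Bool, ∑ π : Equiv.Perm (Fin n), vv a' (Φ a') ((blk n k b).image π) ≤
        (Fintype.card (Equiv.Perm (Fin n)) : ℝ) * lam := by
      intro a'
      have h5 := perm_avg (k := k) (fun S => vv a' (Φ a') S) (blk n k b) (card_blk hk hD b b.2)
      rw [sum_vv a' (Φ a') (h0 a')] at h5
      have h6 := hlam a'
      have h7 : (n.choose k : ℝ) * ∑ π : Equiv.Perm (Fin n), vv a' (Φ a') ((blk n k b).image π) ≤
          (n.choose k : ℝ) * ((Fintype.card (Equiv.Perm (Fin n)) : ℝ) * lam) := by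
        rw [h5]
        calc (Fintype.card (Equiv.Perm (Fin n)) : ℝ) * ∑ C, Φ a' C
            ≤ (Fintype.card (Equiv.Perm (Fin n)) : ℝ) * (lam * n.choose k) := by gcongr
          _ = _ := by ring
      exact le_of_mul_le_mul_left h7 hN
    calc ∑ a' : Fin n → Bool, ∑ π : Equiv.Perm (Fin n), vv a' (Φ a') ((blk n k b).image π)
        ≤ ∑ _a' : Fin n → Bool, (Fintype.card (Equiv.Perm (Fin n)) : ℝ) * lam :=
          Finset.sum_le_sum fun a' _ => h4 a'
      _ = (Fintype.card (Gm n) : ℝ) * lam := by
          rw [Finset.sum_const, Finset.card_univ, nsmul_eq_mul, Fintype.card_prod, Nat.cast_mul]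
          ring
  calc ∑ b : Fin D, ∑ g : Gm n, vv (actA g (ext' D c)) (Φ (actA g (ext' D c)))
        ((blk n k b).image g.1)
      ≤ ∑ _b : Fin D, (Fintype.card (Gm n) : ℝ) * lam := Finset.sum_le_sum fun b _ => h2 b
    _ = (Fintype.card (Gm n) : ℝ) * (D * lam) := by
        rw [Finset.sum_const, Finset.card_univ, Fintype.card_fin, nsmul_eq_mul]
        ring

end Pool.SatDet
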