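import Pool.Agent.Helper59.SAT.RTB
import Pool.Agent.Helper76.RT.CoreOld

/-!
# k-SAT: the instance of the machine for random tests
-/

set_option autoImplicit false

namespace Pool.SatDet

open Finset hiding sup
open MvPolynomial Pool.Agent.Helper76.CDET
open scoped ENNReal BigOperators

variable {n k : ℕ}

section avg

theorem avg_left {I G : Type} [Fintype I] [Fintype G] [Nonempty G] (w : I → ℝ) (b : I → G → ℝ)
    (ε : ℝ) (h : ∀ g, ∑ i, w i * b i g ≤ ε) :
    ∑ x : I × G, (w x.1 / Fintype.card G) * b x.1 x.2 ≤ ε := by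
  have hG : (0 : ℝ) < Fintype.card G := by exact_mod_cast Fintype.card_pos
  rw [Fintype.sum_prod_type_right]
  have h1 : ∀ g : G, ∑ i, w i / Fintype.card G * b i g = (∑ i, w i * b i g) / Fintype.card G := by
    intro g
    rw [Finset.sum_div]
    exact Finset.sum_congr rfl fun i _ => by ring
  simp only [h1]
  calc ∑ g : G, (∑ i, w i * b i g) / Fintype.card G ≤ ∑ _g : G, ε / Fintype.card G := by
        refine Finset.sum_le_sum fun g _ => ?_
        gcongr
        exact h g
    _ = ε := by
        rw [Finset.sum_const, Finset.card_univ, nsmul_eq_mul]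
        field_simp

theorem avg_right {I G : Type} [Fintype I] [Fintype G] [Nonempty G] (w : I → ℝ) (hw0 : ∀ i, 0 ≤ w i)
    (hw1 : ∑ i, w i = 1) (b : I → G → ℝ)
    (ε : ℝ) (h : ∀ i, ∑ g, b i g ≤ Fintype.card G * ε) :
    ∑ x : I × G, (w x.1 / Fintype.card G) * b x.1 x.2 ≤ ε := by
  have hG : (0 : ℝ) < Fintype.card G := by exact_mod_cast Fintype.card_pos
  rw [Fintype.sum_prod_type]
  have h1 : ∀ i : I, ∑ g, w i / Fintype.card G * b i g = w i * ((∑ g, b i g) / Fintype.card G) := by
    intro i
    rw [← Finset.mul_sum]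
    ring
  simp only [h1]
  calc ∑ i, w i * ((∑ g, b i g) / Fintype.card G) ≤ ∑ i, w i * ε := by
        refine Finset.sum_le_sum fun i _ => ?_
        refine mul_le_mul_of_nonneg_left ?_ (hw0 i)
        rw [div_le_iff₀ hG, mul_comm]
        exact h i
    _ = ε := by rw [← Finset.sum_mul, hw1, one_mul]

/-- probability of an event, for weights `w` -/
noncomputable def Pr {I : Type} [Fintype I] (w : I → ℝ) (p : I → Prop) : ℝ :=
  open Classical in ∑ i, w i * (if p i then 1 else 0)

theorem Pr_eq {I : Type} [Fintype I] (w : I → ℝ) (p : I → Prop) [∀ i, Decidable (p i)] :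
    ∑ i, w i * (if p i then (1:ℝ) else 0) = Pr w p := by
  unfold Pr
  refine Finset.sum_congr rfl fun i _ => ?_
  by_cases h : p i
  · rw [if_pos h, if_pos h]
  · rw [if_neg h, if_neg h]

theorem pr_left {I G : Type} [Fintype I] [Fintype G] [Nonempty G] (w : I → ℝ) (p : I → G → Prop)
    (ε : ℝ) (h : ∀ g, Pr w (fun i => p i g) ≤ ε) [∀ x : I × G, Decidable (p x.1 x.2)] :
    ∑ x : I × G, (w x.1 / Fintype.card G) * (if p x.1 x.2 then (1:ℝ) else 0) ≤ ε := by
  classical
  have h1 := avg_left w (fun i g => if p i g then (1:ℝ) else 0) ε (by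
    intro g
    rw [Pr_eq]
    exact h g)
  refine le_trans (le_of_eq ?_) h1
  refine Finset.sum_congr rfl fun x _ => ?_
  by_cases h2 : p x.1 x.2
  · rw [if_pos h2, if_pos h2]
  · rw [if_neg h2, if_neg h2]

end avg

/-- the clauses violated by an assignment -/
noncomputable def viol (a : Fin n → Bool) : Finset (Clause n k) :=
  open Classical in Finset.univ.filter fun C => ¬ Sats a C

theorem mem_viol (a : Fin n → Bool) (C : Clause n k) : C ∈ viol a ↔ ¬ Sats a C := by
  classical
  simp [viol]

open Classical in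
/-- a monomial inside the violated clauses -/
noncomputable def mono {F Ya : Type} [Field F] (f : MvPolynomial (Clause n k ⊕ Ya) F)
    (a : Fin n → Bool) : (Clause n k ⊕ Ya) →₀ ℕ :=
  if h : ∃ μ ∈ f.support, sup μ ⊆ viol a then h.choose else 0

theorem mono_spec {F Ya : Type} [Field F] (f : MvPolynomial (Clause n k ⊕ Ya) F)
    (a : Fin n → Bool) (h : restr (viol a) f ≠ 0) : mono f a ∈ f.support ∧ sup (mono f a) ⊆ viol a := by
  classical
  have h1 : ∃ μ ∈ f.support, sup μ ⊆ viol a := by
    rw [ne_zero_iff] at h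
    obtain ⟨μ, hμ⟩ := h
    rw [coeff_restr] at hμ
    split_ifs at hμ with h2
    · exact ⟨μ, mem_support_iff.2 hμ, h2⟩
    · exact absurd rfl hμ
  unfold mono
  rw [dif_pos h1]
  exact h1.choose_spec

theorem mono_zero {F Ya : Type} [Field F] (f : MvPolynomial (Clause n k ⊕ Ya) F)
    (a : Fin n → Bool) (C : Clause n k) (hC : Sats a C) : mono f a (Sum.inl C) = 0 := by
  classical
  by_contra h0
  unfold mono at h0
  split_ifs at h0 with h
  · have h1 := h.choose_spec.2
    have h2 : C ∈ sup h.choose := by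
      rw [Pool.Agent.Helper76.CDET.sup, Finset.mem_filter]
      exact ⟨Finset.mem_univ _, h0⟩
    exact (mem_viol a C).1 (h1 h2) hC
  · exact h0 rfl

theorem mono_deg {F Ya : Type} [Field F] (f : MvPolynomial (Clause n k ⊕ Ya) F) (lam : ℝ)
    (hlam0 : 0 ≤ lam) (hlam : ∀ a, ∀ μ ∈ f.support, (∀ C, Sats a C → μ (Sum.inl C) = 0) →
      ((∑ C, μ (Sum.inl C) : ℕ) : ℝ) ≤ lam * n.choose k)
    (a : Fin n → Bool) : ((∑ C, mono f a (Sum.inl C) : ℕ) : ℝ) ≤ lam * n.choose k := by
  classical
  by_cases h : ∃ μ ∈ f.support, sup μ ⊆ viol a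
  · have h1 : mono f a = h.choose := by
      unfold mono
      rw [dif_pos h]
    refine hlam a (mono f a) ?_ (mono_zero f a)
    rw [h1]
    exact h.choose_spec.1
  · have h1 : mono f a = 0 := by
      unfold mono
      rw [dif_neg h]
    rw [h1]
    simp only [Finsupp.coe_zero, Pi.zero_apply, Finset.sum_const_zero, Nat.cast_zero]
    positivity

theorem not_satP {D : ℕ} (hk : 0 < k) (hkn : k ≤ n) (hD : D * k ≤ n) (c : Fin (D * k) → Bool)
    (g : Gm n) (x : Clause n k) (hx : ¬ Sats (ext' D c) x) (S : Finset (Clause n k))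
    (hS : ∀ C, actC g C ∈ S → C ≠ x ∧ ((¬ Dead D C ∧ ¬ IsBlk (k := k) D (supp C)) ∨ ¬ Sats (ext' D c) C)) :
    ¬ SatP n k S := by
  classical
  rintro ⟨a', ha'⟩
  obtain ⟨a, rfl⟩ := actA_surjective g a'
  have h1 : ∀ C, ¬ Sats a C → actC g C ∈ S := by
    intro C hC
    apply ha'
    rwa [sats_act]
  have h2 := forced hk hkn hD c (Finset.univ.filter fun C => ¬ Sats a C) a
    (fun C hC => Finset.mem_filter.2 ⟨Finset.mem_univ _, hC⟩) (by
      intro C hC
      rw [Ne, kp_none]
      rcases (hS C (h1 C (Finset.mem_filter.1 hC).2)).2 with h | h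
      · exact h.1
      · exact not_dead c C h) (by
      intro C hC z hz
      rw [kp_inr] at hz
      obtain ⟨rfl, h3, h4⟩ := hz
      rcases (hS C (h1 C (Finset.mem_filter.1 hC).2)).2 with h | h
      · exact absurd h4 h.2
      · obtain ⟨b, hb⟩ := h4
        refine ⟨b, ?_⟩
        rw [eq_vcl (ext' D c) C h]
        congr 1)
  subst h2
  exact (hS x (h1 x hx)).1 rfl

/-- MAIN INEQUALITY FOR RANDOM TESTS -/
theorem main_rt {F Ya Om : Type} [Field F] [Fintype Om] {D L ρ T0 : ℕ} (hk : 0 < k) (hkn : k ≤ n)
    (hD : D * k ≤ n) (hDN : D < n.choose k)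
    (w : Om → ℝ) (hw0 : ∀ i, 0 ≤ w i) (hw1 : ∑ i, w i = 1)
    (f : Om → MvPolynomial (Clause n k ⊕ Ya) F)
    (lam : ℝ) (hlam0 : 0 ≤ lam)
    (hlam : ∀ i a, ∀ μ ∈ (f i).support, (∀ C, Sats a C → μ (Sum.inl C) = 0) →
      ((∑ C, μ (Sum.inl C) : ℕ) : ℝ) ≤ lam * n.choose k)
    (ε1 ε2 ε3 β : ℝ) (hβ : 0 < β)
    (hyes : ∀ a : Fin n → Bool, Pr w (fun i => restr (viol a) (f i) = 0) ≤ ε1)
    (hno : ∀ S : Finset (Clause n k), ¬ SatP n k S → Pr w (fun i => restr S (f i) ≠ 0) ≤ ε2)
    (hL0 : 0 < L) (hL : (D * lam : ℝ) ≤ ε3 * L)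
    (hdist : ∀ j, ρ < j → j ≤ n →
      (T0 : ℝ) + β * n.choose k ≤ ((n.choose k - (n - j).choose k - j : ℕ) : ℝ))
    {l0 : ℕ} {Q R : ℝ≥0∞} (hQ : Q < 1) (hR : ∀ i, ∀ D' ≤ L, Pool.RT.SmallK (f i) D' l0 Q R)
    (hT0 : ((2 ^ (D * k) : ℕ) : ℝ≥0∞) * Q ^ T0 ≤ 1 / 2) :
    Q ^ l0 * ENNReal.ofReal ((1 - (ε1 + ε2 / β + ε3)) * 2 ^ (D * k)) ≤
      2 * R * ((L + 1) * ∑ j ∈ range (ρ + 1), (D * k).choose j : ℕ) := by
  classical
  have hG : (0 : ℝ) < Fintype.card (Gm n) := by exact_mod_cast Fintype.card_pos
  have hN : (0 : ℝ) < n.choose k := by exact_mod_cast Nat.choose_pos hkn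
  have hcardC : Fintype.card (Fin (D * k) → Bool) = 2 ^ (D * k) := by simp
  set M : (Fin (D * k) → Bool) → Finset (XT n k D) :=
    fun c => Finset.univ.filter fun x => ¬ Sats (ext' D c) x.1 with hM
  set Yc : (Fin (D * k) → Bool) → Finset (YT n k D) :=
    fun c => Finset.univ.filter fun y => ¬ Sats (ext' D c) y.1 with hYc
  set X : Om × Gm n → XT n k D → Clause n k := fun i x => actC i.2 x.1 with hX
  set Y : Om × Gm n → YT n k D → Clause n k := fun i y => actC i.2 y.1 with hY
  -- sizes of the sets
  have hMcard : ∀ c, ((M c).card : ℝ) ≤ n.choose k := by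
    intro c
    have h1 : (M c).card ≤ #(Finset.univ.filter fun C : Clause n k => ¬ Sats (ext' D c) C ∧ True) := by
      refine Finset.card_le_card_of_injOn (fun x => x.1) ?_ ?_
      · intro x hx
        have hx' := (Finset.mem_filter.1 (Finset.mem_coe.1 hx)).2
        exact Finset.mem_coe.2 (Finset.mem_filter.2 ⟨Finset.mem_univ _, hx', trivial⟩)
      · intro x _ x' _ h
        exact Subtype.ext h
    rw [card_viol (ext' D c) (fun _ => True), Finset.filter_true, Finset.card_powersetCard,
      Finset.card_univ, Fintype.card_fin] at h1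
    exact_mod_cast h1
  have hMdiff : ∀ c c', ∑ x : Clause n k, (Mm D c' x - Mm D c x) ≤ (M c' \ M c).card := by
    intro c c'
    have h1 : ∑ x : Clause n k, (Mm D c' x - Mm D c x) =
        #(Finset.univ.filter fun x : Clause n k => (¬ Sats (ext' D c') x ∧ ¬ IsBlk (k := k) D (supp x)) ∧
          Sats (ext' D c) x) := by
      rw [Finset.card_filter]
      refine Finset.sum_congr rfl fun x _ => ?_
      unfold Mm
      by_cases h2 : ¬ Sats (ext' D c') x ∧ ¬ IsBlk (k := k) D (supp x)
      · by_cases h3 : Sats (ext' D c) x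
        · rw [if_pos h2, if_neg (fun h => h.1 h3), if_pos ⟨h2, h3⟩]
        · rw [if_pos h2, if_pos ⟨h3, h2.2⟩, if_neg (fun h => h3 h.2)]
      · rw [if_neg h2, Nat.zero_sub, if_neg (fun h => h2 h.1)]
    rw [h1]
    refine le_trans (Finset.card_le_card (t := (M c' \ M c).image Subtype.val) ?_) Finset.card_image_le
    intro x hx
    obtain ⟨⟨h2, h3⟩, h4⟩ := (Finset.mem_filter.1 hx).2
    refine Finset.mem_image.2 ⟨⟨x, not_dead c' x h2, h3⟩, ?_, rfl⟩
    rw [Finset.mem_sdiff, hM]
    simp only [Finset.mem_filter, Finset.mem_univ, true_and, not_not]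
    exact ⟨h2, h4⟩
  have hMpos : ∀ c, (M c).Nonempty := by
    intro c
    rw [← Finset.card_pos]
    have h1 : #(Finset.univ.filter fun C : Clause n k => ¬ Sats (ext' D c) C ∧
        ¬ IsBlk (k := k) D (supp C)) ≤ (M c).card := by
      refine le_trans (Finset.card_le_card (t := (M c).image Subtype.val) ?_) Finset.card_image_le
      intro x hx
      obtain ⟨h2, h3⟩ := (Finset.mem_filter.1 hx).2
      refine Finset.mem_image.2 ⟨⟨x, not_dead c x h2, h3⟩, ?_, rfl⟩
      rw [hM]
      simp only [Finset.mem_filter, Finset.mem_univ, true_and]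
      exact h2
    rw [card_viol (ext' D c) (fun s => ¬ IsBlk (k := k) D s)] at h1
    have h2 : #((Finset.powersetCard k (Finset.univ : Finset (Fin n))).filter
        fun s => IsBlk (k := k) D s) ≤ D := by
      calc #((Finset.powersetCard k (Finset.univ : Finset (Fin n))).filter
            fun s => IsBlk (k := k) D s) ≤ #(Finset.univ.image fun b : Fin D => blk n k b) := by
            refine Finset.card_le_card ?_
            intro s hs
            obtain ⟨b, hb⟩ := (Finset.mem_filter.1 hs).2
            exact Finset.mem_image.2 ⟨b, Finset.mem_univ _, hb.symm⟩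
        _ ≤ #(Finset.univ : Finset (Fin D)) := Finset.card_image_le
        _ = D := by rw [Finset.card_univ, Fintype.card_fin]
    have h3 := Finset.card_filter_add_card_filter_not
      (s := Finset.powersetCard k (Finset.univ : Finset (Fin n))) (fun s => IsBlk (k := k) D s)
    rw [Finset.card_powersetCard, Finset.card_univ, Fintype.card_fin] at h3
    omega
  have key := Pool.RT.core_old (I := Om × Gm n) (C := Fin (D * k) → Bool) (Xt := XT n k D)
    (Yt := YT n k D) (fun i => w i.1 / Fintype.card (Gm n)) (fun i => div_nonneg (hw0 i.1) hG.le)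
    (by
      have h1 := Fintype.sum_prod_type (fun i : Om × Gm n => w i.1 / Fintype.card (Gm n))
      rw [h1]
      simp only [Finset.sum_const, Finset.card_univ, nsmul_eq_mul]
      rw [← hw1]
      refine Finset.sum_congr rfl fun i _ => ?_
      field_simp)
    (fun i => f i.1) X Y (fun _ => ∅)
    (by
      intro i
      rintro (x | y) (x' | y') h
      · exact congrArg Sum.inl (Subtype.ext (actC_injective i.2 h))
      · exfalso
        have h1 : x.1 = y'.1 := actC_injective i.2 h
        exact x.2.2 (h1 ▸ y'.2.2)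
      · exfalso
        have h1 : y.1 = x'.1 := actC_injective i.2 h
        exact x'.2.2 (h1 ▸ y.2.2)
      · exact congrArg Sum.inr (Subtype.ext (actC_injective i.2 h)))
    (fun _ _ => Finset.notMem_empty _) (fun _ _ => Finset.notMem_empty _)
    M Yc (fun i c => viol (actA i.2 (ext' D c)))
    (fun i c => Finset.univ.image (X i) ∪ (Yc c).image (Y i))
    (by
      intro i c e he
      rw [mem_viol] at he
      obtain ⟨C, rfl⟩ := actC_surjective i.2 e
      rw [sats_act] at he
      by_cases hb : IsBlk (k := k) D (supp C)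
      · refine Or.inr (Or.inr ⟨⟨C, not_dead c C he, hb⟩, ?_, rfl⟩)
        rw [hYc]
        simp only [Finset.mem_filter, Finset.mem_univ, true_and]
        exact he
      · refine Or.inr (Or.inl ⟨⟨C, not_dead c C he, hb⟩, ?_, rfl⟩)
        rw [hM]
        simp only [Finset.mem_filter, Finset.mem_univ, true_and]
        exact he)
    (by
      intro i c e he
      rcases he with h | ⟨x, rfl⟩ | ⟨y, hy, rfl⟩
      · exact absurd h (Finset.notMem_empty _)
      · exact Finset.mem_union_left _ (Finset.mem_image_of_mem _ (Finset.mem_univ _))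
      · exact Finset.mem_union_right _ (Finset.mem_image_of_mem _ hy))
    (fun i c => mono (f i.1) (actA i.2 (ext' D c)))
    (fun i c h => mono_spec (f i.1) _ h)
    ε1 ε2 ε3 β hβ L
    (fun i c => restr (viol (actA i.2 (ext' D c))) (f i.1) = 0) (fun _ _ => Iff.rfl)
    (fun i c x => restr ((Finset.univ.image (X i) ∪ (Yc c).image (Y i)) \ {X i x}) (f i.1) ≠ 0)
    (fun _ _ _ => Iff.rfl)
    (by
      intro c
      exact pr_left w (fun i g => restr (viol (actA g (ext' D c))) (f i) = 0) ε1
        fun g => hyes (actA g (ext' D c)))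
    (by
      intro c x hx
      refine pr_left w (fun i g => restr ((Finset.univ.image (fun x : XT n k D => actC g x.1) ∪
        (Yc c).image (fun y : YT n k D => actC g y.1)) \ {actC g x.1}) (f i) ≠ 0) ε2
        fun g => hno _ ?_
      have hx' : ¬ Sats (ext' D c) x.1 := by
        rw [hM] at hx
        simpa using hx
      refine not_satP hk hkn hD c g x.1 hx' _ ?_
      intro C hC
      rw [Finset.mem_sdiff, Finset.mem_union, Finset.mem_image, Finset.mem_image,
        Finset.mem_singleton] at hC
      refine ⟨fun h => hC.2 (by rw [h]), ?_⟩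
      rcases hC.1 with ⟨x', _, h⟩ | ⟨y', hy', h⟩
      · left
        rw [← actC_injective g h]
        exact x'.2
      · right
        rw [← actC_injective g h]
        rw [hYc] at hy'
        simpa using hy')
    (by
      intro c
      refine avg_right w hw0 hw1 (fun i g =>
        if L < ∑ y : YT n k D, mono (f i) (actA g (ext' D c)) (Sum.inl (actC g y.1)) then (1:ℝ) else 0)
        ε3 fun i => ?_
      have h1 := group_avg hk hkn hD c (fun a C => (mono (f i) a (Sum.inl C) : ℝ))
        (fun a C hC => by rw [mono_zero (f i) a C hC, Nat.cast_zero]) lam (by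
          intro a
          have h2 := mono_deg (f i) lam hlam0 (hlam i) a
          rwa [Nat.cast_sum] at h2)
      have hLr : (0 : ℝ) < L := by exact_mod_cast hL0
      have h2 : (∑ g : Gm n, (if L < ∑ y : YT n k D, mono (f i) (actA g (ext' D c))
          (Sum.inl (actC g y.1)) then (1:ℝ) else 0)) * L ≤ (Fintype.card (Gm n) : ℝ) * (D * lam) := by
        refine le_trans ?_ h1
        rw [Finset.sum_mul]
        refine Finset.sum_le_sum fun g _ => ?_
        split_ifs with h3
        · rw [one_mul, ← Nat.cast_sum]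
          exact_mod_cast h3.le
        · rw [zero_mul]
          exact Finset.sum_nonneg fun _ _ => Nat.cast_nonneg _
      have h3 : (∑ g : Gm n, (if L < ∑ y : YT n k D, mono (f i) (actA g (ext' D c))
          (Sum.inl (actC g y.1)) then (1:ℝ) else 0)) * L ≤ ((Fintype.card (Gm n) : ℝ) * ε3) * L := by
        refine h2.trans ?_
        rw [mul_assoc]
        gcongr
      exact le_of_mul_le_mul_right h3 hLr)
    hMpos (fun c c' => #(dif c c') ≤ ρ) (by intro c; simp [dif])
    (by
      intro c c' h
      have h1 : dif c' c = dif c c' := by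
        ext i
        simp [dif, ne_comm]
      rwa [h1])
    (∑ j ∈ range (ρ + 1), (D * k).choose j) T0
    (by
      intro c A hA
      have h1 : A.card ≤ #(Finset.univ.filter fun T : Finset (Fin (D * k)) => T.card ≤ ρ) := by
        refine Finset.card_le_card_of_injOn (fun c' => dif c c') ?_ ?_
        · intro c' hc'
          exact Finset.mem_coe.2 (Finset.mem_filter.2 ⟨Finset.mem_univ _, hA c' hc'⟩)
        · intro c1 _ c2 _ h
          funext i
          have h1 := Finset.ext_iff.1 h i
          simp only [dif, Finset.mem_filter, Finset.mem_univ, true_and] at h1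
          cases h2 : c i <;> cases h3 : c1 i <;> cases h4 : c2 i <;> simp_all
      refine h1.trans (le_of_eq ?_)
      rw [Finset.card_eq_sum_card_fiberwise (f := Finset.card) (t := range (ρ + 1))
        (fun T hT => Finset.mem_coe.2 (Finset.mem_range.2 (Nat.lt_succ_of_le
          (Finset.mem_filter.1 (Finset.mem_coe.1 hT)).2)))]
      refine Finset.sum_congr rfl fun j hj => ?_
      have h2 : ((Finset.univ.filter fun T : Finset (Fin (D * k)) => T.card ≤ ρ).filter
          fun T => T.card = j) = Finset.powersetCard j Finset.univ := by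
        ext T
        simp only [Finset.mem_filter, Finset.mem_univ, true_and, Finset.mem_powersetCard,
          Finset.subset_univ]
        constructor
        · exact fun h => h.2
        · intro h
          exact ⟨by rw [h]; exact Nat.lt_succ_iff.1 (Finset.mem_range.1 hj), h⟩
      rw [h2, Finset.card_powersetCard, Finset.card_univ, Fintype.card_fin])
    (by
      intro c c' hnear
      have hj : ρ < #(dif c c') := not_le.1 hnear
      have hjn : #(dif c c') ≤ n := by
        calc #(dif c c') ≤ Fintype.card (Fin (D * k)) := Finset.card_le_univ _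
          _ = D * k := Fintype.card_fin _
          _ ≤ n := hD
      have h1 := diff_ge (n := n) D c c'
      rw [card_dif D hD] at h1
      have h2 := h1.trans (hMdiff c c')
      have h3 := hdist _ hj hjn
      have h4 : β * (M c').card ≤ β * n.choose k := mul_le_mul_of_nonneg_left (hMcard c') hβ.le
      have h5 : ((n.choose k - (n - #(dif c c')).choose k - #(dif c c') : ℕ) : ℝ) ≤
          ((M c' \ M c).card : ℝ) := by exact_mod_cast h2
      linarith)
    hQ (fun i D' hD' => hR i.1 D' hD')
    (by rw [hcardC]; exact hT0)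
  rw [hcardC] at key
  simpa using key

end Pool.SatDet
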