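import Pool.Agent.Helper59.SAT.RTC
import Pool.Agent.Helper59.SAT.Fin2
import Pool.Agent.Helper10.GT.PfK
import Pool.Agent.Helper76.CPF.Clique

/-!
# k-SAT: random tests, sums of Pfaffians, real form of the inequality
-/

set_option autoImplicit false

namespace Pool.SatDet

open Finset hiding sup
open MvPolynomial Pool.Agent.Helper76.CDET
open scoped ENNReal BigOperators

variable {n k : ℕ}

theorem smallK_mono {F V Ya : Type} [Field F] [DecidableEq V] {f : MvPolynomial (V ⊕ Ya) F}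
    {D l0 l0' : ℕ} {Q R R' : ℝ≥0∞} (hQ : Q ≤ 1) (hl : l0 ≤ l0') (hR : R ≤ R')
    (h : Pool.RT.SmallK f D l0 Q R) : Pool.RT.SmallK f D l0' Q R' := by
  intro Xt Yt C _ _ κ yk hyk
  obtain ⟨E, hE, h1⟩ := h Xt Yt C κ yk hyk
  refine ⟨E, hE, le_trans ?_ (h1.trans hR)⟩
  gcongr ?_ * _
  exact pow_le_pow_of_le_one zero_le hQ hl

/-- the property of the inequality: `T0` works for all large distances -/
def GoodDist (n k ρ T0 : ℕ) (β : ℝ) : Prop :=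
  ∀ j, ρ < j → j ≤ n → (T0 : ℝ) + β * n.choose k ≤ ((n.choose k - (n - j).choose k - j : ℕ) : ℝ)

/-- MAIN INEQUALITY FOR RANDOM TESTS, real numbers, any class with small shifted spaces -/
theorem main_rt_gen {F Ya Om : Type} [Field F] [Fintype Om] {D L ρ T0 l0 : ℕ} (hk : 0 < k)
    (hkn : k ≤ n) (hD : D * k ≤ n) (hDN : D < n.choose k)
    (w : Om → ℝ) (hw0 : ∀ i, 0 ≤ w i) (hw1 : ∑ i, w i = 1)
    (f : Om → MvPolynomial (Clause n k ⊕ Ya) F)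
    (lam : ℝ) (hlam0 : 0 ≤ lam)
    (hlam : ∀ i a, ∀ μ ∈ (f i).support, (∀ C, Sats a C → μ (Sum.inl C) = 0) →
      ((∑ C, μ (Sum.inl C) : ℕ) : ℝ) ≤ lam * n.choose k)
    (ε1 ε2 ε3 β : ℝ) (hβ : 0 < β)
    (hyes : ∀ a : Fin n → Bool, Pr w (fun i => restr (viol a) (f i) = 0) ≤ ε1)
    (hno : ∀ S : Finset (Clause n k), ¬ SatP n k S → Pr w (fun i => restr S (f i) ≠ 0) ≤ ε2)
    (hL0 : 0 < L) (hL : (D * lam : ℝ) ≤ ε3 * L) (hdist : GoodDist n k ρ T0 β)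
    (q : ℝ) (hq0 : 0 < q) (hq1 : q < 1) (hT0 : 2 ^ (D * k) * q ^ T0 ≤ 1 / 2) (R : ℝ) (hR0 : 0 ≤ R)
    (hR : ∀ i, ∀ D' ≤ L, Pool.RT.SmallK (f i) D' l0 (ENNReal.ofReal q) (ENNReal.ofReal R)) :
    q ^ l0 * ((1 - (ε1 + ε2 / β + ε3)) * 2 ^ (D * k)) ≤
      2 * R * ((L + 1) * ∑ j ∈ range (ρ + 1), ((D * k).choose j : ℝ)) := by
  classical
  set Q : ℝ≥0∞ := ENNReal.ofReal q with hQdef
  have hQ1 : Q < 1 := Pool.Agent.Helper76.CDET.ofReal_lt_one hq1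
  have hT0' : ((2 ^ (D * k) : ℕ) : ℝ≥0∞) * Q ^ T0 ≤ 1 / 2 := by
    have h1 : ((2 ^ (D * k) : ℕ) : ℝ≥0∞) * Q ^ T0 = ENNReal.ofReal (2 ^ (D * k) * q ^ T0) := by
      rw [ENNReal.ofReal_mul (by positivity), ENNReal.ofReal_pow hq0.le, ← hQdef, Nat.cast_pow,
        Nat.cast_ofNat, ENNReal.ofReal_pow (by norm_num), ENNReal.ofReal_ofNat]
    rw [h1]
    calc ENNReal.ofReal (2 ^ (D * k) * q ^ T0) ≤ ENNReal.ofReal (1 / 2) := ENNReal.ofReal_le_ofReal hT0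
      _ = 1 / 2 := by
        rw [ENNReal.ofReal_div_of_pos (by norm_num), ENNReal.ofReal_one]
        norm_num
  have key := main_rt hk hkn hD hDN w hw0 hw1 f lam hlam0 hlam ε1 ε2 ε3 β hβ hyes hno hL0 hL hdist
    hQ1 hR hT0'
  set Vb : ℕ := ∑ j ∈ range (ρ + 1), (D * k).choose j with hVb
  have hVbr : ∑ j ∈ range (ρ + 1), ((D * k).choose j : ℝ) = (Vb : ℝ) := by
    rw [hVb, Nat.cast_sum]
  rw [hVbr]
  have e3 : (2 : ℝ≥0∞) * ENNReal.ofReal R * (((L + 1) * Vb : ℕ) : ℝ≥0∞) =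
      ENNReal.ofReal (2 * R * (((L + 1) * Vb : ℕ) : ℝ)) := by
    rw [ENNReal.ofReal_mul (mul_nonneg (by norm_num) hR0), ENNReal.ofReal_mul (by norm_num),
      ENNReal.ofReal_natCast, ENNReal.ofReal_ofNat]
  have e4 : Q ^ l0 * ENNReal.ofReal ((1 - (ε1 + ε2 / β + ε3)) * 2 ^ (D * k)) =
      ENNReal.ofReal (q ^ l0 * ((1 - (ε1 + ε2 / β + ε3)) * 2 ^ (D * k))) := by
    rw [ENNReal.ofReal_mul (pow_nonneg hq0.le _), ENNReal.ofReal_pow hq0.le]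
  rw [e3, e4] at key
  have h3 := (ENNReal.ofReal_le_ofReal_iff (mul_nonneg (mul_nonneg (by norm_num) hR0)
    (Nat.cast_nonneg _))).1 key
  rw [Nat.cast_mul, Nat.cast_add, Nat.cast_one] at h3
  exact h3

/-- sums of Pfaffians with cofactors have small shifted spaces, uniformly in the number of
derivatives -/
theorem smallK_pf_unif {F V Ya : Type} [Field F] [DecidableEq V] [Fintype V] {L m δ ν r : ℕ}
    (f : MvPolynomial (V ⊕ Ya) F) (hf : IsPfSum r m δ ν f) (hδ : 1 ≤ δ)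
    (q : ℝ) (hq0 : 0 < q) (hq1 : q < 1) (D' : ℕ) (hD' : D' ≤ L) :
    Pool.RT.SmallK f D' (ν + L * (δ - 1)) (ENNReal.ofReal q) (ENNReal.ofReal
      (r * ∑ j ∈ range (2 * L + 1), ((2 * m + 2 * L + 1 + j).choose j : ℝ) * (1 - q ^ δ) ^ j)) := by
  classical
  set Q : ℝ≥0∞ := ENNReal.ofReal q with hQdef
  have hQ1 : Q < 1 := Pool.Agent.Helper76.CDET.ofReal_lt_one hq1
  have h1q : 0 ≤ 1 - q ^ δ := by
    have := pow_le_one₀ (n := δ) hq0.le hq1.le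
    linarith
  have e0 : (1 : ℝ≥0∞) - Q ^ δ = ENNReal.ofReal (1 - q ^ δ) := by
    rw [hQdef, ENNReal.ofReal_sub _ (pow_nonneg hq0.le _), ENNReal.ofReal_pow hq0.le,
      ENNReal.ofReal_one]
  set Sr : ℝ := ∑ j ∈ range (2 * L + 1), ((2 * m + 2 * L + 1 + j).choose j : ℝ) * (1 - q ^ δ) ^ j
    with hSr
  have hSr0 : 0 ≤ Sr := Finset.sum_nonneg (fun j _ => by positivity)
  have e2 : ∑ j ∈ range (2 * L + 1), ((2 * m + 2 * L + 1 + j).choose j : ℝ≥0∞) *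
      (1 - Q ^ δ) ^ j = ENNReal.ofReal Sr := by
    rw [hSr, ENNReal.ofReal_sum_of_nonneg (fun j _ => by positivity)]
    apply Finset.sum_congr rfl
    intro j _
    rw [e0, ENNReal.ofReal_mul (by positivity), ENNReal.ofReal_pow h1q, ENNReal.ofReal_natCast]
  have h1 := Pool.GT.smallK_pf (D := D') (m := m + L + 1) (by omega) hδ f
    (hf.mono (by omega)) Q hQ1
  refine smallK_mono hQ1.le (Nat.add_le_add_left (Nat.mul_le_mul_right _ hD') _) ?_ h1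
  rw [ENNReal.ofReal_mul (Nat.cast_nonneg _), ENNReal.ofReal_natCast]
  refine mul_le_mul' le_rfl ?_
  rw [← e2]
  calc ∑ j ∈ range (2 * D' + 1), ((2 * (m + L + 1 - D') - 1 + j).choose j : ℝ≥0∞) * (1 - Q ^ δ) ^ j
      ≤ ∑ j ∈ range (2 * D' + 1), ((2 * m + 2 * L + 1 + j).choose j : ℝ≥0∞) * (1 - Q ^ δ) ^ j := by
        refine Finset.sum_le_sum fun j _ => ?_
        gcongr
        omega
    _ ≤ _ := Finset.sum_le_sum_of_subset (Finset.range_mono (by omega))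

theorem main_rt_real {F Ya Om : Type} [Field F] [Fintype Om] {D L ρ T0 m δ ν r : ℕ} (hk : 0 < k)
    (hkn : k ≤ n) (hD : D * k ≤ n) (hDN : D < n.choose k)
    (w : Om → ℝ) (hw0 : ∀ i, 0 ≤ w i) (hw1 : ∑ i, w i = 1)
    (f : Om → MvPolynomial (Clause n k ⊕ Ya) F) (hf : ∀ i, IsPfSum r m δ ν (f i)) (hδ : 1 ≤ δ)
    (lam : ℝ) (hlam0 : 0 ≤ lam)
    (hlam : ∀ i a, ∀ μ ∈ (f i).support, (∀ C, Sats a C → μ (Sum.inl C) = 0) →
      ((∑ C, μ (Sum.inl C) : ℕ) : ℝ) ≤ lam * n.choose k)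
    (ε1 ε2 ε3 β : ℝ) (hβ : 0 < β)
    (hyes : ∀ a : Fin n → Bool, Pr w (fun i => restr (viol a) (f i) = 0) ≤ ε1)
    (hno : ∀ S : Finset (Clause n k), ¬ SatP n k S → Pr w (fun i => restr S (f i) ≠ 0) ≤ ε2)
    (hL0 : 0 < L) (hL : (D * lam : ℝ) ≤ ε3 * L) (hdist : GoodDist n k ρ T0 β)
    (q : ℝ) (hq0 : 0 < q) (hq1 : q < 1) (hT0 : 2 ^ (D * k) * q ^ T0 ≤ 1 / 2) :
    q ^ (ν + L * (δ - 1)) * ((1 - (ε1 + ε2 / β + ε3)) * 2 ^ (D * k)) ≤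
      2 * (r * ∑ j ∈ range (2 * L + 1), ((2 * m + 2 * L + 1 + j).choose j : ℝ) * (1 - q ^ δ) ^ j) *
        ((L + 1) * ∑ j ∈ range (ρ + 1), ((D * k).choose j : ℝ)) := by
  have h1q : 0 ≤ 1 - q ^ δ := by
    have := pow_le_one₀ (n := δ) hq0.le hq1.le
    linarith
  exact main_rt_gen hk hkn hD hDN w hw0 hw1 f lam hlam0 hlam ε1 ε2 ε3 β hβ hyes hno hL0 hL hdist q
    hq0 hq1 hT0 _ (mul_nonneg (Nat.cast_nonneg _) (Finset.sum_nonneg (fun j _ => by positivity)))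
    fun i D' hD' => smallK_pf_unif (f i) (hf i) hδ q hq0 hq1 D' hD'

end Pool.SatDet
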