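import Pool.Agent.Helper59.SAT.RTFun
import Pool.Agent.Helper91.HN.Num7

/-!
# k-SAT: random tests, the numbers and the final form
-/

set_option autoImplicit false

namespace Pool.SatDet

open MvPolynomial Pool.FunK

theorem numRT2 : NumRT2 := fun ε α h1 h2 => Pool.RTN.numRT2 ε α h1 h2

open Classical in
theorem clean : ∀ ε α : ℝ, 0 < ε → α < 1 → ∃ K : ℕ, 1 ≤ K ∧
    ∀ (F : Type) [Field F] (Y Ω : Type) [Fintype Ω] (n k T q g m d v : ℕ) (l b ε₁ ε₂ : ℝ),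
    K ≤ k → K * k ≤ n → 1 ≤ l → K * l * Real.log k ≤ k → b = 2 ^ (k / (K * l)) →
    q ≤ b * n → 1 ≤ d → n * d ≤ n.choose k → m * d * min g n ≤ b * n.choose k →
    K * v ≤ n.choose k → ε₁ + ε₂ ≤ α →
    ∀ (p : Ω → ℝ) (f : Ω → MvPolynomial (Clause n k ⊕ Y) F), (∀ ω, 0 ≤ p ω) → ∑ ω, p ω = 1 →
    (∀ ω, IsFunSum T q g m d v (f ω)) →
    (∀ ω, ∀ μ ∈ (f ω).support, (∀ C, (μ (Sum.inl C) : ℝ) ≤ l) ∨
      (∑ C, μ (Sum.inl C) : ℝ) ≤ l * n.choose k) →
    (∀ φ : Finset (Clause n k), (∃! a : Fin n → Bool, ∀ C ∈ φ, Sats a C) →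
      (∑ ω, if (aeval (Sum.elim (fun C => if C ∈ φ then 0 else X (Sum.inl C))
        (fun y => X (Sum.inr y))) (f ω) : MvPolynomial (Clause n k ⊕ Y) F) = 0
          then p ω else 0) ≤ ε₁) →
    (∀ φ : Finset (Clause n k), (¬ ∃ a : Fin n → Bool, ∀ C ∈ φ, Sats a C) →
      (∑ ω, if (aeval (Sum.elim (fun C => if C ∈ φ then 0 else X (Sum.inl C))
        (fun y => X (Sum.inr y))) (f ω) : MvPolynomial (Clause n k ⊕ Y) F) ≠ 0
          then p ω else 0) ≤ ε₂) →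
    (2 : ℝ) ^ ((1 - ε) * n) ≤ T := by
  intro ε α hε hα
  obtain ⟨K, hK, H⟩ := finalFun_of numRT2 ε α hε hα
  refine ⟨K, hK, ?_⟩
  intro F _ Y Ω _ n k T q g m d v l b ε₁ ε₂ hKk hKn hl hlog hb hq hd hnd hm hv hα12 p f hp hp1 hf
    hdeg hyes hno
  subst hb
  have hrestr : ∀ (φ : Finset (Clause n k)) (ω : Ω),
      Pool.Agent.Helper76.CDET.restr φᶜ (f ω) =
      (aeval (Sum.elim (fun C => if C ∈ φ then 0 else X (Sum.inl C))
        (fun y => X (Sum.inr y))) (f ω) : MvPolynomial (Clause n k ⊕ Y) F) := by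
    intro φ ω
    unfold Pool.Agent.Helper76.CDET.restr
    congr 2
    congr 1
    funext C
    by_cases h : C ∈ φ
    · rw [if_neg (by simpa using h), if_pos h]
    · rw [if_pos (by simpa using h), if_neg h]
  refine H F Y Ω n k T q g m d v l ε₁ ε₂ hKk hKn hd hnd hv hl hlog (by exact_mod_cast hm)
    (by rw [mul_comm]; exact hq) hα12 p hp hp1 f hf ?_ ?_ ?_
  · intro ω μ hμ
    rcases hdeg ω μ hμ with h | h
    · exact Or.inl h
    · refine Or.inr ?_
      push_cast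
      exact h
  · intro φ hφ
    refine le_trans (le_of_eq ?_) (hyes φ hφ)
    rw [← Pr_eq]
    refine Finset.sum_congr rfl fun ω _ => ?_
    simp only [hrestr]
    split_ifs <;> simp
  · intro φ hφ
    refine le_trans (le_of_eq ?_) (hno φ hφ)
    rw [← Pr_eq]
    refine Finset.sum_congr rfl fun ω _ => ?_
    simp only [hrestr]
    split_ifs <;> simp

end Pool.SatDet
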