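import Pool.Agent.Helper59.SAT.RTD

/-!
# k-SAT: random tests, sums of Pfaffians, the theorem (modulo the numbers)
-/

set_option autoImplicit false

namespace Pool.SatDet

open Finset hiding sup
open MvPolynomial Pool.Agent.Helper76.CDET
open scoped ENNReal BigOperators

variable {n k : ℕ}

/-- the formula of all clauses satisfied by `a` has the only solution `a` -/
theorem unique_sat (hk : 0 < k) (hkn : k ≤ n) (a : Fin n → Bool) :
    ∃! b : Fin n → Bool, ∀ C ∈ (viol (k := k) a)ᶜ, Sats b C := by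
  classical
  refine ⟨a, fun C hC => ?_, fun b hb => ?_⟩
  · rw [Finset.mem_compl, mem_viol, not_not] at hC
    exact hC
  · funext i
    by_contra hne
    obtain ⟨s, hs1, -, hs2⟩ := Finset.exists_subsuperset_card_eq (s := {i}) (t := Finset.univ) (n := k)
      (Finset.subset_univ _) (by simp; omega) (by simp; exact hkn)
    have h1 : Sats a (vcl b s hs2) := by
      rw [sats_vcl_iff]
      exact ⟨i, hs1 (Finset.mem_singleton_self i), fun h => hne h.symm⟩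
    refine not_sats_vcl b s hs2 (hb _ ?_)
    rw [Finset.mem_compl, mem_viol, not_not]
    exact h1

/-- the formula of all clauses is unsatisfiable -/
theorem unsat_univ (hkn : k ≤ n) : ¬ ∃ a : Fin n → Bool, ∀ C ∈ (Finset.univ : Finset (Clause n k)), Sats a C := by
  rintro ⟨a, ha⟩
  obtain ⟨s, -, hs⟩ := Finset.exists_subset_card_eq (s := (Finset.univ : Finset (Fin n))) (n := k)
    (by simpa using hkn)
  exact not_sats_vcl a s hs (ha _ (Finset.mem_univ _))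

theorem restr_eq_aeval {F Ya : Type} [Field F] (f : MvPolynomial (Clause n k ⊕ Ya) F)
    (S : Finset (Clause n k)) : open Classical in
    (aeval (Sum.elim (fun C => if C ∈ Sᶜ then 0 else X (Sum.inl C)) (fun y => X (Sum.inr y))) f :
      MvPolynomial (Clause n k ⊕ Ya) F) = restr S f := by
  classical
  unfold restr
  have : (Sum.elim (fun C => if C ∈ Sᶜ then (0 : MvPolynomial (Clause n k ⊕ Ya) F) else X (Sum.inl C))
      (fun y => X (Sum.inr y))) =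
      Sum.elim (fun C => if C ∈ S then X (Sum.inl C) else 0) (fun y => X (Sum.inr y)) := by
    congr 1
    funext C
    by_cases h : C ∈ S <;> simp [h]
  simp only [this]

/-- the set of absent clauses; `Sᶜ` is the formula -/
theorem not_satP_iff (S : Finset (Clause n k)) :
    ¬ SatP n k S ↔ ¬ ∃ a : Fin n → Bool, ∀ C ∈ Sᶜ, Sats a C := by
  have := satP_compl S
  unfold Satisfiable at this
  rw [this]

/-- the numbers: good parameters exist -/
def NumRT2 : Prop := ∀ ε α : ℝ, 0 < ε → α < 1 → ∃ K : ℕ, 1 ≤ K ∧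
  ∀ (n k m d ν : ℕ) (lam ε1 ε2 : ℝ), K ≤ k → K * k ≤ n → 1 ≤ d → n * d ≤ n.choose k →
    K * ν ≤ n.choose k → 1 ≤ lam → (k : ℝ) ≤ 2 ^ ((k : ℝ) / (K * lam)) →
    (k * m * d : ℝ) ≤ 2 ^ ((k : ℝ) / (K * lam)) * n.choose k →
    0 ≤ ε1 → 0 ≤ ε2 → ε1 + ε2 ≤ α →
    ∃ (D L ρ T0 : ℕ) (β ε3 q : ℝ), D * k ≤ n ∧ D < n.choose k ∧ 0 < β ∧ 0 < L ∧
      (L : ℝ) ≤ K * lam * n / k ∧ (D * lam : ℝ) ≤ ε3 * L ∧ GoodDist n k ρ T0 β ∧ 0 < q ∧ q < 1 ∧
      2 ^ (D * k) * q ^ T0 ≤ 1 / 2 ∧ ∀ r : ℕ, 1 ≤ r →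
      q ^ (ν + L * (d - 1)) * ((1 - (ε1 + ε2 / β + ε3)) * 2 ^ (D * k)) ≤
        2 * (r * ∑ j ∈ range (2 * L + 1), ((2 * m + 2 * L + 1 + j).choose j : ℝ) * (1 - q ^ d) ^ j) *
          ((L + 1) * ∑ j ∈ range (ρ + 1), ((D * k).choose j : ℝ)) →
      (2 : ℝ) ^ ((1 - ε) * n : ℝ) ≤ r

theorem Pr_nonneg {I : Type} [Fintype I] (w : I → ℝ) (hw0 : ∀ i, 0 ≤ w i) (p : I → Prop) :
    0 ≤ Pr w p := by
  classical
  unfold Pr
  refine Finset.sum_nonneg fun i _ => mul_nonneg (hw0 i) ?_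
  split_ifs <;> norm_num

theorem Pr_all {I : Type} [Fintype I] (w : I → ℝ) (hw1 : ∑ i, w i = 1) (p : I → Prop)
    (h : ∀ i, p i) : Pr w p = 1 := by
  classical
  unfold Pr
  refine (Finset.sum_congr rfl fun i _ => ?_).trans hw1
  rw [if_pos (h i), mul_one]

/-- THE THEOREM for any class of polynomials with small shifted spaces -/
theorem finalRT_gen (num : NumRT2) (ε α : ℝ) (hε : 0 < ε) (hα : α < 1) : ∃ K : ℕ, 1 ≤ K ∧
    ∀ (F : Type) [Field F] (Ya Om : Type) [Fintype Om] (n k M d ν R : ℕ) (lam ε1 ε2 : ℝ),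
    K ≤ k → K * k ≤ n → 1 ≤ d → n * d ≤ n.choose k → K * ν ≤ n.choose k → 1 ≤ lam →
    (k : ℝ) ≤ 2 ^ ((k : ℝ) / (K * lam)) →
    (k * M * d : ℝ) ≤ 2 ^ ((k : ℝ) / (K * lam)) * n.choose k → 1 ≤ R →
    ε1 + ε2 ≤ α →
    ∀ w : Om → ℝ, (∀ i, 0 ≤ w i) → ∑ i, w i = 1 →
    ∀ f : Om → MvPolynomial (Clause n k ⊕ Ya) F,
    (∀ i, ∀ L D' : ℕ, (L : ℝ) ≤ K * lam * n / k → D' ≤ L → ∀ q : ℝ, 0 < q → q < 1 →
      Pool.RT.SmallK (f i) D' (ν + L * (d - 1)) (ENNReal.ofReal q) (ENNReal.ofReal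
        (R * ∑ j ∈ range (2 * L + 1), ((2 * M + 2 * L + 1 + j).choose j : ℝ) * (1 - q ^ d) ^ j))) →
    (∀ i, ∀ μ ∈ (f i).support, (∀ C, (μ (Sum.inl C) : ℝ) ≤ lam) ∨
      ((∑ C, μ (Sum.inl C) : ℕ) : ℝ) ≤ lam * n.choose k) →
    (∀ φ : Finset (Clause n k), (∃! a : Fin n → Bool, ∀ C ∈ φ, Sats a C) →
      Pr w (fun i => restr φᶜ (f i) = 0) ≤ ε1) →
    (∀ φ : Finset (Clause n k), (¬ ∃ a : Fin n → Bool, ∀ C ∈ φ, Sats a C) →
      Pr w (fun i => restr φᶜ (f i) ≠ 0) ≤ ε2) →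
    (2 : ℝ) ^ ((1 - ε) * n : ℝ) ≤ R := by
  classical
  obtain ⟨K, hK1, H⟩ := num ε α hε hα
  refine ⟨K, hK1, ?_⟩
  intro F _ Ya Om _ n k M d ν R lam ε1 ε2 hKk hKn hd hnd hnu hlam hk2 hmd hR1 hα12 w hw0 hw1 f hf
    hdeg hyes hno
  have hkpos : 0 < k := by omega
  have hkn : k ≤ n := by
    calc k = 1 * k := (one_mul k).symm
      _ ≤ K * k := Nat.mul_le_mul_right _ hK1
      _ ≤ n := hKn
  -- errors are nonnegative
  have he2 : 0 ≤ ε2 := (Pr_nonneg w hw0 _).trans (hno Finset.univ (unsat_univ hkn))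
  have he1 : 0 ≤ ε1 := by
    have h1 := hyes (viol (fun _ => false))ᶜ (unique_sat hkpos hkn _)
    exact (Pr_nonneg w hw0 _).trans h1
  obtain ⟨D, L, ρ, T0, β, ε3, q, hDk, hDN, hβ, hL0, hLK, hL, hdist, hq0, hq1, hT0, Hr⟩ :=
    H n k M d ν lam ε1 ε2 hKk hKn hd hnd hnu hlam hk2 hmd he1 he2 hα12
  have h1q : 0 ≤ 1 - q ^ d := by
    have := pow_le_one₀ (n := d) hq0.le hq1.le
    linarith
  refine Hr R hR1 ?_
  refine main_rt_gen hkpos hkn hDk hDN w hw0 hw1 f lam (by linarith) ?_ ε1 ε2 ε3 β hβ ?_ ?_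
    hL0 hL hdist q hq0 hq1 hT0 _
    (mul_nonneg (Nat.cast_nonneg _) (Finset.sum_nonneg (fun j _ => by positivity)))
    fun i D' hD' => hf i L D' hLK hD' q hq0 hq1
  · intro i a μ hμ hz
    rcases hdeg i μ hμ with h | h
    · have h1 : ((∑ C, μ (Sum.inl C) : ℕ) : ℝ) =
          ∑ C ∈ Finset.univ.filter (fun C : Clause n k => ¬ Sats a C), (μ (Sum.inl C) : ℝ) := by
        rw [Nat.cast_sum]
        symm
        refine Finset.sum_subset (Finset.filter_subset _ _) fun C _ hC => ?_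
        rw [hz C (by
          by_contra h2
          exact hC (Finset.mem_filter.2 ⟨Finset.mem_univ _, h2⟩)), Nat.cast_zero]
      rw [h1]
      calc ∑ C ∈ Finset.univ.filter (fun C : Clause n k => ¬ Sats a C), (μ (Sum.inl C) : ℝ)
          ≤ ∑ C ∈ Finset.univ.filter (fun C : Clause n k => ¬ Sats a C), lam :=
            Finset.sum_le_sum fun C _ => h C
        _ = lam * n.choose k := by
            have h2 := card_viol (k := k) a (fun _ => True)
            simp only [and_true, Finset.filter_true, Finset.card_powersetCard, Finset.card_univ,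
              Fintype.card_fin] at h2
            rw [Finset.sum_const, h2, nsmul_eq_mul, mul_comm]
    · exact h
  · intro a
    have h1 := hyes (viol a)ᶜ (unique_sat hkpos hkn a)
    rwa [compl_compl] at h1
  · intro S hS
    have h1 := hno Sᶜ ((not_satP_iff S).1 hS)
    rwa [compl_compl] at h1

/-- conversion of the conditions on the numbers -/
theorem numbers_of_log {K k n : ℕ} {lam x : ℝ} (hK1 : 1 ≤ K) (hk : 0 < k) (hlam : 1 ≤ lam)
    (hlog : (3 * K : ℕ) * lam * Real.log k ≤ k)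
    (hx : x ≤ 2 ^ ((k : ℝ) / ((3 * K : ℕ) * lam)) * n.choose k) :
    (k : ℝ) ≤ 2 ^ ((k : ℝ) / (K * lam)) ∧ k * x ≤ 2 ^ ((k : ℝ) / (K * lam)) * n.choose k := by
  have hKr : (1 : ℝ) ≤ K := by exact_mod_cast hK1
  have hkr : (0 : ℝ) < k := by exact_mod_cast hk
  have hexp : (2 : ℝ) ^ ((k : ℝ) / ((3 * K : ℕ) * lam)) = 2 ^ ((k : ℝ) / (K * lam) / 3) := by
    congr 1
    push_cast
    rw [div_div]
    congr 1
    ring
  have hk2 : (k : ℝ) ≤ 2 ^ ((k : ℝ) / (K * lam) * (2 / 3)) := by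
    have h1 : Real.log k ≤ (k : ℝ) / (3 * (K * lam)) := by
      rw [le_div_iff₀ (by positivity)]
      push_cast at hlog
      linarith
    calc (k : ℝ) = Real.exp (Real.log k) := (Real.exp_log hkr).symm
      _ ≤ Real.exp (Real.log 2 * ((k : ℝ) / (K * lam) * (2 / 3))) := by
          rw [Real.exp_le_exp]
          have h3 : (0 : ℝ) ≤ (k : ℝ) / (K * lam) := by positivity
          have h2 : (1 / 3 : ℝ) ≤ 2 / 3 * Real.log 2 := by
            have := Real.log_two_gt_d9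
            linarith
          calc Real.log k ≤ (k : ℝ) / (3 * (K * lam)) := h1
            _ = (k : ℝ) / (K * lam) * (1 / 3) := by
                field_simp
            _ ≤ (k : ℝ) / (K * lam) * (2 / 3 * Real.log 2) := by gcongr
            _ = _ := by ring
      _ = 2 ^ ((k : ℝ) / (K * lam) * (2 / 3)) := by
          rw [Real.rpow_def_of_pos (by norm_num)]
  have hbase : (0 : ℝ) ≤ (k : ℝ) / (K * lam) := by positivity
  constructor
  · refine hk2.trans (Real.rpow_le_rpow_of_exponent_le (by norm_num) ?_)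
    nlinarith
  · rw [hexp] at hx
    calc (k : ℝ) * x ≤ 2 ^ ((k : ℝ) / (K * lam) * (2 / 3)) *
          (2 ^ ((k : ℝ) / (K * lam) / 3) * n.choose k) := by
          calc (k : ℝ) * x ≤ k * (2 ^ ((k : ℝ) / (K * lam) / 3) * n.choose k) := by gcongr
            _ ≤ _ := by gcongr
      _ = 2 ^ ((k : ℝ) / (K * lam)) * n.choose k := by
          rw [← mul_assoc, ← Real.rpow_add (by norm_num)]
          congr 2
          ring

theorem one_le_of_tests {F Ya Om : Type} [Field F] [Fintype Om] {r : ℕ} {ε1 ε2 α : ℝ}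
    (hk : 0 < k) (hkn : k ≤ n) (hα : α < 1) (hα12 : ε1 + ε2 ≤ α)
    (w : Om → ℝ) (hw0 : ∀ i, 0 ≤ w i) (hw1 : ∑ i, w i = 1)
    (f : Om → MvPolynomial (Clause n k ⊕ Ya) F) (hf : r = 0 → ∀ i, f i = 0)
    (hyes : ∀ φ : Finset (Clause n k), (∃! a : Fin n → Bool, ∀ C ∈ φ, Sats a C) →
      Pr w (fun i => restr φᶜ (f i) = 0) ≤ ε1)
    (hno : ∀ φ : Finset (Clause n k), (¬ ∃ a : Fin n → Bool, ∀ C ∈ φ, Sats a C) →
      Pr w (fun i => restr φᶜ (f i) ≠ 0) ≤ ε2) : 1 ≤ r := by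
  classical
  by_contra hr
  have hr0 : r = 0 := by omega
  have he2 : 0 ≤ ε2 := (Pr_nonneg w hw0 _).trans (hno Finset.univ (unsat_univ hkn))
  have h1 := hyes (viol (fun _ => false))ᶜ (unique_sat hk hkn _)
  rw [Pr_all w hw1 _ (fun i => by rw [hf hr0 i]; simp [restr])] at h1
  linarith

theorem finalRT_of (num : NumRT2) (ε α : ℝ) (hε : 0 < ε) (hα : α < 1) : ∃ K : ℕ, 1 ≤ K ∧
    ∀ (F : Type) [Field F] (Ya Om : Type) [Fintype Om] (n k m d ν r : ℕ) (lam ε1 ε2 : ℝ),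
    K ≤ k → K * k ≤ n → 1 ≤ d → n * d ≤ n.choose k → K * ν ≤ n.choose k →
    1 ≤ lam → K * lam * Real.log k ≤ k → (m * d : ℝ) ≤ 2 ^ ((k : ℝ) / (K * lam)) * n.choose k →
    ε1 + ε2 ≤ α →
    ∀ w : Om → ℝ, (∀ i, 0 ≤ w i) → ∑ i, w i = 1 →
    ∀ f : Om → MvPolynomial (Clause n k ⊕ Ya) F, (∀ i, IsPfSum r m d ν (f i)) →
    (∀ i, ∀ μ ∈ (f i).support, (∀ C, (μ (Sum.inl C) : ℝ) ≤ lam) ∨
      ((∑ C, μ (Sum.inl C) : ℕ) : ℝ) ≤ lam * n.choose k) →
    (∀ φ : Finset (Clause n k), (∃! a : Fin n → Bool, ∀ C ∈ φ, Sats a C) →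
      Pr w (fun i => restr φᶜ (f i) = 0) ≤ ε1) →
    (∀ φ : Finset (Clause n k), (¬ ∃ a : Fin n → Bool, ∀ C ∈ φ, Sats a C) →
      Pr w (fun i => restr φᶜ (f i) ≠ 0) ≤ ε2) →
    (2 : ℝ) ^ ((1 - ε) * n : ℝ) ≤ r := by
  classical
  obtain ⟨K, hK1, H⟩ := finalRT_gen num ε α hε hα
  refine ⟨3 * K, by omega, ?_⟩
  intro F _ Ya Om _ n k m d ν r lam ε1 ε2 hKk hKn hd hnd hnu hlam hlog hmd hα12 w hw0 hw1 f hf hdeg
    hyes hno
  have hkpos : 0 < k := by omega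
  have hkn : k ≤ n := by
    calc k = 1 * k := (one_mul k).symm
      _ ≤ 3 * K * k := Nat.mul_le_mul_right _ (by omega)
      _ ≤ n := hKn
  have hr : 1 ≤ r := one_le_of_tests hkpos hkn hα hα12 w hw0 hw1 f (by
    intro hr0 i
    subst hr0
    obtain ⟨s, P, A, -, -, -, hfA⟩ := hf i
    rw [hfA, Finset.univ_eq_empty, Finset.sum_empty]) hyes hno
  obtain ⟨h1, h2⟩ := numbers_of_log hK1 hkpos hlam hlog hmd
  refine H F Ya Om n k m d ν r lam ε1 ε2 (by omega) ?_ hd hnd ?_ hlam h1 ?_ hr hα12 w hw0 hw1 f ?_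
    hdeg hyes hno
  · calc K * k ≤ 3 * K * k := Nat.mul_le_mul_right _ (by omega)
      _ ≤ n := hKn
  · calc K * ν ≤ 3 * K * ν := Nat.mul_le_mul_right _ (by omega)
      _ ≤ _ := hnu
  · calc (k * m * d : ℝ) = k * (m * d) := by ring
      _ ≤ _ := h2
  · intro i L D' _ hD' q hq0 hq1
    exact smallK_pf_unif (f i) (hf i) hd q hq0 hq1 D' hD'

end Pool.SatDet
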