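import Pool.Agent.Helper59.SAT.RTFin
import Pool.Agent.Helper59.SAT.RTNumF
import Pool.Agent.Helper34.FunK

/-!
# k-SAT: random tests, sums of functions of Pfaffians
-/

set_option autoImplicit false

namespace Pool.SatDet

open Finset hiding sup
open MvPolynomial Pool.Agent.Helper76.CDET Pool.FunK
open scoped ENNReal BigOperators

variable {n k : ℕ}

theorem choose_mono (a : ℕ) {x y : ℕ} (h : x ≤ y) : (a + x).choose x ≤ (a + y).choose y := by
  have h1 : (a + x).choose x = (a + x).choose a := Nat.choose_symm_add.symm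
  have h2 : (a + y).choose y = (a + y).choose a := Nat.choose_symm_add.symm
  rw [h1, h2]
  exact Nat.choose_le_choose a (by omega)

/-- sums of functions of Pfaffians have small shifted spaces, uniformly in the number of
derivatives -/
theorem smallK_fun_unif {F V Ya : Type} [Field F] [DecidableEq V] [Fintype V]
    {L m δ ν T a e E : ℕ} (hE : min e L ≤ E)
    (f : MvPolynomial (V ⊕ Ya) F) (hf : IsFunSum T a e m δ ν f) (hδ : 1 ≤ δ)
    (q : ℝ) (hq0 : 0 < q) (hq1 : q < 1) (D' : ℕ) (hD' : D' ≤ L) :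
    Pool.RT.SmallK f D' (ν + L * (δ - 1)) (ENNReal.ofReal q) (ENNReal.ofReal
      (((T * (a + E).choose E : ℕ) : ℝ) *
        ∑ j ∈ range (2 * L + 1), ((2 * (m * E) + 2 * L + 1 + j).choose j : ℝ) * (1 - q ^ δ) ^ j)) := by
  classical
  set Q : ℝ≥0∞ := ENNReal.ofReal q with hQdef
  have hQ1 : Q < 1 := Pool.Agent.Helper76.CDET.ofReal_lt_one hq1
  have h1q : 0 ≤ 1 - q ^ δ := by
    have := pow_le_one₀ (n := δ) hq0.le hq1.le
    linarith
  have e0 : (1 : ℝ≥0∞) - Q ^ δ = ENNReal.ofReal (1 - q ^ δ) := by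
    rw [hQdef, ENNReal.ofReal_sub _ (pow_nonneg hq0.le _), ENNReal.ofReal_pow hq0.le,
      ENNReal.ofReal_one]
  set Sr : ℝ := ∑ j ∈ range (2 * L + 1), ((2 * (m * E) + 2 * L + 1 + j).choose j : ℝ) *
    (1 - q ^ δ) ^ j with hSr
  have hSr0 : 0 ≤ Sr := Finset.sum_nonneg (fun j _ => by positivity)
  have e2 : ∑ j ∈ range (2 * L + 1), ((2 * (m * E) + 2 * L + 1 + j).choose j : ℝ≥0∞) *
      (1 - Q ^ δ) ^ j = ENNReal.ofReal Sr := by
    rw [hSr, ENNReal.ofReal_sum_of_nonneg (fun j _ => by positivity)]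
    apply Finset.sum_congr rfl
    intro j _
    rw [e0, ENNReal.ofReal_mul (by positivity), ENNReal.ofReal_pow h1q, ENNReal.ofReal_natCast]
  have hmin : min e D' ≤ E := le_trans (min_le_min_left _ hD') hE
  have h1 := smallK_fun (D := D') (M := m * E + L + 1) (by
    have := Nat.mul_le_mul_left m hmin
    omega) (by omega) hδ f hf Q hQ1
  refine smallK_mono hQ1.le (Nat.add_le_add_left (Nat.mul_le_mul_right _ hD') _) ?_ h1
  rw [ENNReal.ofReal_mul (Nat.cast_nonneg _), ENNReal.ofReal_natCast]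
  refine mul_le_mul' ?_ ?_
  · exact_mod_cast Nat.mul_le_mul_left T (choose_mono a hmin)
  rw [← e2]
  calc ∑ j ∈ range (2 * D' + 1), ((2 * (m * E + L + 1 - D') - 1 + j).choose j : ℝ≥0∞) * (1 - Q ^ δ) ^ j
      ≤ ∑ j ∈ range (2 * D' + 1), ((2 * (m * E) + 2 * L + 1 + j).choose j : ℝ≥0∞) * (1 - Q ^ δ) ^ j := by
        refine Finset.sum_le_sum fun j _ => ?_
        gcongr
        omega
    _ ≤ _ := Finset.sum_le_sum_of_subset (Finset.range_mono (by omega))

theorem finalFun_of (num : NumRT2) (ε α : ℝ) (hε : 0 < ε) (hα : α < 1) : ∃ K : ℕ, 1 ≤ K ∧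
    ∀ (F : Type) [Field F] (Ya Om : Type) [Fintype Om] (n k T a e m d ν : ℕ) (lam ε1 ε2 : ℝ),
    K ≤ k → K * k ≤ n → 1 ≤ d → n * d ≤ n.choose k → K * ν ≤ n.choose k →
    1 ≤ lam → K * lam * Real.log k ≤ k →
    (m * d * (min e n : ℕ) : ℝ) ≤ 2 ^ ((k : ℝ) / (K * lam)) * n.choose k →
    (a : ℝ) ≤ n * 2 ^ ((k : ℝ) / (K * lam)) →
    ε1 + ε2 ≤ α →
    ∀ w : Om → ℝ, (∀ i, 0 ≤ w i) → ∑ i, w i = 1 →
    ∀ f : Om → MvPolynomial (Clause n k ⊕ Ya) F, (∀ i, IsFunSum T a e m d ν (f i)) →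
    (∀ i, ∀ μ ∈ (f i).support, (∀ C, (μ (Sum.inl C) : ℝ) ≤ lam) ∨
      ((∑ C, μ (Sum.inl C) : ℕ) : ℝ) ≤ lam * n.choose k) →
    (∀ φ : Finset (Clause n k), (∃! a : Fin n → Bool, ∀ C ∈ φ, Sats a C) →
      Pr w (fun i => restr φᶜ (f i) = 0) ≤ ε1) →
    (∀ φ : Finset (Clause n k), (¬ ∃ a : Fin n → Bool, ∀ C ∈ φ, Sats a C) →
      Pr w (fun i => restr φᶜ (f i) ≠ 0) ≤ ε2) →
    (2 : ℝ) ^ ((1 - ε) * n : ℝ) ≤ T := by
  classical
  obtain ⟨K, hK1, H⟩ := finalRT_gen num (ε / 2) α (by linarith) hα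
  obtain ⟨K1, hK1'⟩ : ∃ K1 : ℕ, 14 * K / ε ≤ K1 := exists_nat_ge _
  set K0 : ℕ := max (3 * K) (max K1 3) with hK0
  have hK0a : 3 * K ≤ K0 := le_max_left _ _
  have hK0b : K1 ≤ K0 := (le_max_left _ _).trans (le_max_right _ _)
  have hK0c : 3 ≤ K0 := (le_max_right _ _).trans (le_max_right _ _)
  refine ⟨K0, by omega, ?_⟩
  intro F _ Ya Om _ n k T a e m d ν lam ε1 ε2 hKk hKn hd hnd hnu hlam hlog hmd ha hα12 w hw0 hw1 f hf
    hdeg hyes hno
  have hkpos : 0 < k := by omega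
  have hk3 : 3 ≤ k := by omega
  have hkn : k ≤ n := by
    calc k = 1 * k := (one_mul k).symm
      _ ≤ K0 * k := Nat.mul_le_mul_right _ (by omega)
      _ ≤ n := hKn
  have hn1 : 1 ≤ n := by omega
  have hkr : (3 : ℝ) ≤ k := by exact_mod_cast hk3
  have hnr : (1 : ℝ) ≤ n := by exact_mod_cast hn1
  have hKr : (1 : ℝ) ≤ K := by exact_mod_cast hK1
  have hK0r : (3 : ℝ) * K ≤ K0 := by exact_mod_cast hK0a
  have hlogk : 1 ≤ Real.log k := by
    rw [Real.le_log_iff_exp_le (by linarith)]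
    have := Real.exp_one_lt_d9
    linarith
  have hT : 1 ≤ T := one_le_of_tests hkpos hkn hα hα12 w hw0 hw1 f (by
    intro hT0 i
    subst hT0
    obtain ⟨s, R, P, A, -, -, -, -, hfA⟩ := hf i
    rw [hfA, Finset.univ_eq_empty, Finset.sum_empty]) hyes hno
  -- K lam <= k
  have hKlam : (K : ℝ) * lam ≤ k := by
    have h1 : (0 : ℝ) ≤ lam := by linarith
    have h2 : (K : ℝ) * lam ≤ K0 * lam := by gcongr; linarith
    have h3 : (K0 : ℝ) * lam ≤ K0 * lam * Real.log k := le_mul_of_one_le_right (by positivity) hlogk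
    linarith
  set Lmax : ℕ := ⌊(K : ℝ) * lam * n / k⌋₊ with hLmax
  have hLmaxr : (Lmax : ℝ) ≤ K * lam * n / k := Nat.floor_le (by positivity)
  have hLn : Lmax ≤ n := by
    have h1 : (Lmax : ℝ) ≤ n := by
      refine hLmaxr.trans ?_
      rw [div_le_iff₀ (by positivity)]
      have : (K : ℝ) * lam * n ≤ k * n := by gcongr
      linarith
    exact_mod_cast h1
  set E : ℕ := min e Lmax with hE
  have hEn : E ≤ min e n := min_le_min_left _ hLn
  have hEL : (E : ℝ) ≤ K * lam * n / k := by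
    refine le_trans ?_ hLmaxr
    exact_mod_cast min_le_right _ _
  -- conditions for K from those for K0
  have hpow : (2 : ℝ) ^ ((k : ℝ) / (K0 * lam)) ≤ 2 ^ ((k : ℝ) / ((3 * K : ℕ) * lam)) := by
    refine Real.rpow_le_rpow_of_exponent_le (by norm_num) ?_
    push_cast
    gcongr
  obtain ⟨h1, h2⟩ := numbers_of_log (n := n) (x := (m * E : ℕ) * d) hK1 hkpos hlam (by
      refine le_trans ?_ hlog
      push_cast
      gcongr) (by
      calc (((m * E : ℕ) : ℝ) * d) ≤ (m * d * (min e n : ℕ) : ℝ) := by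
            have h3 : (E : ℝ) ≤ (min e n : ℕ) := by exact_mod_cast hEn
            push_cast at h3 ⊢
            calc (m * E * d : ℝ) = m * d * E := by ring
              _ ≤ m * d * min (e : ℝ) n := by gcongr
        _ ≤ 2 ^ ((k : ℝ) / (K0 * lam)) * n.choose k := hmd
        _ ≤ _ := by gcongr)
  have hbin : ((a + E).choose E : ℝ) ≤ 2 ^ (ε / 2 * n : ℝ) := by
    refine choose_small (K := K) (K0 := K0) (k := k) hK1 ?_ hk3 hn1 hlam hlog ha hEL
    have h3 : 14 * K / ε ≤ (K0 : ℝ) := hK1'.trans (by exact_mod_cast hK0b)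
    rw [div_le_iff₀ hε] at h3
    linarith
  have hchoose : 1 ≤ (a + E).choose E := Nat.choose_pos (by omega)
  have key := H F Ya Om n k (m * E) d ν (T * (a + E).choose E) lam ε1 ε2 (by omega) (by
      calc K * k ≤ K0 * k := Nat.mul_le_mul_right _ (by omega)
        _ ≤ n := hKn) hd hnd (by
      calc K * ν ≤ K0 * ν := Nat.mul_le_mul_right _ (by omega)
        _ ≤ _ := hnu) hlam h1 (by
      calc ((k : ℝ) * (m * E : ℕ) * d) = k * ((m * E : ℕ) * d) := by ring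
        _ ≤ _ := h2) (Nat.mul_pos hT hchoose) hα12 w hw0 hw1 f (by
      intro i L D' hL hD' q hq0 hq1
      refine smallK_fun_unif (E := E) ?_ (f i) (hf i) hd q hq0 hq1 D' hD'
      exact min_le_min_left _ (Nat.le_floor hL)) hdeg hyes hno
  -- conclusion
  have h3 : (2 : ℝ) ^ ((1 - ε / 2) * n : ℝ) = 2 ^ ((1 - ε) * n : ℝ) * 2 ^ (ε / 2 * n : ℝ) := by
    rw [← Real.rpow_add (by norm_num)]
    congr 1
    ring
  rw [h3] at key
  push_cast at key
  have h4 : (2 : ℝ) ^ ((1 - ε) * n : ℝ) * 2 ^ (ε / 2 * n : ℝ) ≤ T * 2 ^ (ε / 2 * n : ℝ) :=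
    key.trans (by gcongr)
  exact le_of_mul_le_mul_right h4 (by positivity)

end Pool.SatDet
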