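import Pool.Agent.Helper76.CDET.Real

/-!
# Second moment bound for the monomial machine
-/

set_option autoImplicit false

namespace Pool.SatDet

open Finset MvPolynomial Pool.SDL Pool.Agent.SDet Pool.Agent.Helper76.CDET
open scoped ENNReal BigOperators

theorem tsum_ge (Q : ℝ≥0∞) (t : ℕ) :
    ∑' n : ℕ, (if t ≤ n then Q ^ n else 0) = Q ^ t * (1 - Q)⁻¹ := by
  have h := Summable.sum_add_tsum_nat_add' (f := fun n : ℕ => if t ≤ n then Q ^ n else 0) (k := t)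
    ENNReal.summable
  rw [← h, Finset.sum_eq_zero, zero_add]
  · have h1 : ∀ n : ℕ, (if t ≤ n + t then Q ^ (n + t) else 0) = Q ^ t * Q ^ n := by
      intro n
      rw [if_pos (Nat.le_add_left t n), pow_add, mul_comm]
    simp_rw [h1]
    rw [ENNReal.tsum_mul_left, ENNReal.tsum_geometric]
  · intro n hn
    rw [if_neg]
    exact not_le.2 (Finset.mem_range.1 hn)

/-- the weight of all exponents above `T` -/
theorem weight_ge {Xt : Type} [Fintype Xt] (T : Xt → ℕ) (Q : ℝ≥0∞) (hQ : Q < 1) :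
    (1 - Q) ^ Fintype.card Xt *
      ∑' u : Xt → ℕ, (if ∀ x, T x ≤ u x then Q ^ (∑ x, u x) else 0) = Q ^ (∑ x, T x) := by
  classical
  have h := tsum_prod_pi (ι := Xt) ℕ (fun x n => if T x ≤ n then Q ^ n else 0)
  have h2 : ∀ u : Xt → ℕ, (∏ x, if T x ≤ u x then Q ^ u x else 0) =
      if ∀ x, T x ≤ u x then Q ^ (∑ x, u x) else 0 := by
    intro u
    split_ifs with hu
    · rw [← Finset.prod_pow_eq_pow_sum]
      exact Finset.prod_congr rfl fun s _ => if_pos (hu s)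
    · push Not at hu
      obtain ⟨s, hs⟩ := hu
      exact Finset.prod_eq_zero (Finset.mem_univ s) (if_neg (not_le.2 hs))
  simp_rw [h2] at h
  rw [h]
  simp_rw [tsum_ge]
  rw [Finset.prod_mul_distrib, Finset.prod_const, Finset.prod_pow_eq_pow_sum, Finset.card_univ]
  have h10 : (1 : ℝ≥0∞) - Q ≠ 0 := (tsub_pos_of_lt hQ).ne'
  have h1t : (1 : ℝ≥0∞) - Q ≠ ∞ := (tsub_le_self.trans_lt ENNReal.one_lt_top).ne
  rw [mul_left_comm, ← mul_pow, ENNReal.mul_inv_cancel h10 h1t, one_pow, mul_one]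

theorem two_mul_le (Z : ℝ≥0∞) (hZ : Z ≠ ∞) (g : ℕ) :
    2 * Z * (g : ℝ≥0∞) ≤ Z ^ 2 + (g : ℝ≥0∞) ^ 2 := by
  lift Z to NNReal using hZ
  have h : 2 * Z * (g : NNReal) ≤ Z ^ 2 + (g : NNReal) ^ 2 := by
    rw [← NNReal.coe_le_coe]
    push_cast
    nlinarith [sq_nonneg ((Z : ℝ) - g)]
  exact_mod_cast h

/-- SECOND MOMENT BOUND -/
theorem series_sm {Xt C : Type} [Fintype Xt] [Fintype C] (M : C → Xt → ℕ) (B : ℕ)
    (hB : ∀ c, ∑ x, M c x = B) (Q : ℝ≥0∞) (hQ : Q < 1) (hQ0 : Q ≠ 0) (Z : ℝ≥0∞) (hZ0 : Z ≠ 0)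
    (hZt : Z ≠ ∞) (hZ : ∀ c, ∑ c', Q ^ (∑ x, (M c' x - M c x)) ≤ Z)
    [DecidablePred fun u : Xt → ℕ => ∃ c, ∀ x, M c x ≤ u x] :
    (Fintype.card C : ℝ≥0∞) * Q ^ B ≤ Z * ((1 - Q) ^ Fintype.card Xt *
      ∑' u : Xt → ℕ, (if ∃ c, ∀ x, M c x ≤ u x then Q ^ (∑ x, u x) else 0)) := by
  classical
  have hQt : Q ≠ ∞ := (hQ.trans_le le_top).ne
  set W : ℝ≥0∞ := (1 - Q) ^ Fintype.card Xt with hW
  -- number of c below u
  let g : (Xt → ℕ) → ℕ := fun u => #(Finset.univ.filter fun c => ∀ x, M c x ≤ u x)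
  have hg : ∀ u, (g u : ℝ≥0∞) = ∑ c, (if ∀ x, M c x ≤ u x then 1 else 0) := by
    intro u
    simp only [g, Finset.card_filter]
    push_cast
    rfl
  have hpt : ∀ u : Xt → ℕ, 2 * Z * (Q ^ (∑ x, u x) * (g u : ℝ≥0∞)) ≤
      Z ^ 2 * (if ∃ c, ∀ x, M c x ≤ u x then Q ^ (∑ x, u x) else 0) +
        Q ^ (∑ x, u x) * (g u : ℝ≥0∞) ^ 2 := by
    intro u
    by_cases h : ∃ c, ∀ x, M c x ≤ u x
    · rw [if_pos h]
      calc 2 * Z * (Q ^ (∑ x, u x) * (g u : ℝ≥0∞)) = Q ^ (∑ x, u x) * (2 * Z * (g u : ℝ≥0∞)) := by ring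
        _ ≤ Q ^ (∑ x, u x) * (Z ^ 2 + (g u : ℝ≥0∞) ^ 2) := by
            gcongr
            exact two_mul_le Z hZt _
        _ = _ := by ring
    · have h0 : g u = 0 := by
        simp only [g]
        rw [Finset.card_eq_zero, Finset.filter_eq_empty_iff]
        intro c _ hc
        exact h ⟨c, hc⟩
      rw [h0]
      simp
  have hsum := ENNReal.tsum_le_tsum hpt
  rw [ENNReal.tsum_add, ENNReal.tsum_mul_left, ENNReal.tsum_mul_left] at hsum
  -- first moment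
  have hfirst : W * ∑' u : Xt → ℕ, Q ^ (∑ x, u x) * (g u : ℝ≥0∞) = (Fintype.card C : ℝ≥0∞) * Q ^ B := by
    have h1 : ∀ u : Xt → ℕ, Q ^ (∑ x, u x) * (g u : ℝ≥0∞) =
        ∑ c, (if ∀ x, M c x ≤ u x then Q ^ (∑ x, u x) else 0) := by
      intro u
      rw [hg, Finset.mul_sum]
      refine Finset.sum_congr rfl fun c _ => ?_
      split_ifs <;> simp
    simp_rw [h1]
    rw [Summable.tsum_finsetSum (fun c _ => ENNReal.summable), Finset.mul_sum]
    rw [Finset.sum_congr rfl fun c _ => weight_ge (M c) Q hQ]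
    simp_rw [hB]
    rw [Finset.sum_const, Finset.card_univ, nsmul_eq_mul]
  -- second moment
  have hsecond : W * ∑' u : Xt → ℕ, Q ^ (∑ x, u x) * (g u : ℝ≥0∞) ^ 2 ≤
      (Fintype.card C : ℝ≥0∞) * Q ^ B * Z := by
    have h1 : ∀ u : Xt → ℕ, Q ^ (∑ x, u x) * (g u : ℝ≥0∞) ^ 2 =
        ∑ c, ∑ c', (if ∀ x, max (M c x) (M c' x) ≤ u x then Q ^ (∑ x, u x) else 0) := by
      intro u
      rw [hg, sq, Finset.sum_mul_sum, Finset.mul_sum]
      refine Finset.sum_congr rfl fun c _ => ?_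
      rw [Finset.mul_sum]
      refine Finset.sum_congr rfl fun c' _ => ?_
      by_cases h2 : ∀ x, M c x ≤ u x
      · by_cases h3 : ∀ x, M c' x ≤ u x
        · rw [if_pos h2, if_pos h3, if_pos fun x => max_le (h2 x) (h3 x)]
          ring
        · have h4 : ¬ ∀ x, max (M c x) (M c' x) ≤ u x :=
            fun h => h3 fun x => (le_max_right _ _).trans (h x)
          rw [if_pos h2, if_neg h3, if_neg h4]
          ring
      · have h4 : ¬ ∀ x, max (M c x) (M c' x) ≤ u x :=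
          fun h => h2 fun x => (le_max_left _ _).trans (h x)
        rw [if_neg h2, if_neg h4]
        ring
    simp_rw [h1]
    rw [Summable.tsum_finsetSum (fun c _ => ENNReal.summable), Finset.mul_sum]
    have h4 : ∀ c ∈ (Finset.univ : Finset C), W * ∑' u : Xt → ℕ, ∑ c', (if ∀ x, max (M c x) (M c' x) ≤ u x then Q ^ (∑ x, u x) else 0) ≤
        Q ^ B * Z := by
      intro c _
      rw [Summable.tsum_finsetSum (fun c _ => ENNReal.summable), Finset.mul_sum,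
        Finset.sum_congr rfl fun c' _ => weight_ge (fun x => max (M c x) (M c' x)) Q hQ]
      have h5 : ∀ c', Q ^ (∑ x, max (M c x) (M c' x)) = Q ^ B * Q ^ (∑ x, (M c' x - M c x)) := by
        intro c'
        rw [← pow_add, ← hB c, ← Finset.sum_add_distrib]
        congr 1
        refine Finset.sum_congr rfl fun x _ => ?_
        omega
      simp_rw [h5]
      rw [← Finset.mul_sum]
      gcongr
      exact hZ c
    refine (Finset.sum_le_sum h4).trans (le_of_eq ?_)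
    rw [Finset.sum_const, Finset.card_univ, nsmul_eq_mul]
    ring
  -- conclusion
  set A : ℝ≥0∞ := (Fintype.card C : ℝ≥0∞) * Q ^ B with hA
  set Lh : ℝ≥0∞ := W * ∑' u : Xt → ℕ, (if ∃ c, ∀ x, M c x ≤ u x then Q ^ (∑ x, u x) else 0) with hLh
  have hmain : 2 * Z * A ≤ Z ^ 2 * Lh + A * Z := by
    calc 2 * Z * A = W * (2 * Z * ∑' u : Xt → ℕ, Q ^ (∑ x, u x) * (g u : ℝ≥0∞)) := by
          rw [← hfirst]; ring
      _ ≤ W * (Z ^ 2 * (∑' u : Xt → ℕ, (if ∃ c, ∀ x, M c x ≤ u x then Q ^ (∑ x, u x) else 0)) +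
            ∑' u : Xt → ℕ, Q ^ (∑ x, u x) * (g u : ℝ≥0∞) ^ 2) := by
          gcongr
      _ = Z ^ 2 * Lh + W * ∑' u : Xt → ℕ, Q ^ (∑ x, u x) * (g u : ℝ≥0∞) ^ 2 := by
          rw [hLh]; ring
      _ ≤ Z ^ 2 * Lh + A * Z := by
          gcongr
  have hAt : A * Z ≠ ∞ := by
    refine ENNReal.mul_ne_top (ENNReal.mul_ne_top (ENNReal.natCast_ne_top _) (ENNReal.pow_ne_top hQt)) hZt
  have h6 : A * Z + A * Z ≤ Z ^ 2 * Lh + A * Z := by
    calc A * Z + A * Z = 2 * Z * A := by ring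
      _ ≤ _ := hmain
  have h7 : A * Z ≤ Z ^ 2 * Lh := (ENNReal.add_le_add_iff_right hAt).1 h6
  have h8 : Z * A ≤ Z * (Z * Lh) := by
    calc Z * A = A * Z := mul_comm _ _
      _ ≤ Z ^ 2 * Lh := h7
      _ = Z * (Z * Lh) := by ring
  exact (ENNReal.mul_le_mul_iff_right hZ0 hZt).1 h8

section
variable {F : Type} [Field F] {V Ya Xt Yt C : Type} [DecidableEq V]

/-- THE MACHINE WITH THE SECOND MOMENT BOUND -/
theorem machine_sm [Fintype V] [Fintype Xt] [Fintype C]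
    (f : MvPolynomial (V ⊕ Ya) F) (hml : ∀ μ ∈ f.support, ∀ e, μ (Sum.inl e) ≤ 1)
    (P : Finset V → Prop) (hP : ∀ S, restr S f ≠ 0 ↔ P S)
    (κ : V → Option (Option (Xt ⊕ Yt))) {D : ℕ} (yc : C → Fin D → Yt)
    (hyc : ∀ c, Function.Injective (yc c)) (M : C → Xt → ℕ) (B : ℕ) (hB : ∀ c, ∑ x, M c x = B)
    (h1 : ∀ c (S : Finset V), P S → (∀ e ∈ S, κ e ≠ none) →
      (∀ e ∈ S, ∀ z, κ e = some (some (Sum.inr z)) → z ∈ Set.range (yc c)) →
      (∀ x, M c x ≤ cnt κ S (Sum.inl x)) ∧ ∀ b, 1 ≤ cnt κ S (Sum.inr (yc c b)))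
    (h2 : ∀ c, ∃ S : Finset V, P S ∧ (∀ e ∈ S, κ e ≠ none) ∧ Hits κ (M c) (yc c) S)
    (h3 : ∀ c (S S' : Finset V), P S → P S' → (∀ e ∈ S, κ e ≠ none) → (∀ e ∈ S', κ e ≠ none) →
      Hits κ (M c) (yc c) S → Hits κ (M c) (yc c) S' →
      (∀ e, κ e = some none → (e ∈ S ↔ e ∈ S')) → S = S')
    {r m : ℕ} (s : Fin r → ℕ) (hs : ∀ i, s i ≤ m)
    (A : ∀ i, Matrix (Fin (s i)) (Fin (s i)) (MvPolynomial (V ⊕ Ya) F))
    (hA : ∀ i p q, ∀ μ ∈ (A i p q).support, ∑ e, μ (Sum.inl e) ≤ 1)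
    (hf : f = ∑ i, (A i).det) (hDm : D < m) (q : ℝ) (hq0 : 0 < q) (hq1 : q < 1)
    (Z : ℝ) (hZ0 : 0 < Z) (hZ : ∀ c, ∑ c', q ^ (∑ x, (M c' x - M c x)) ≤ Z) :
    (Fintype.card C : ℝ) ≤ Z * (r *
      (∑ j ∈ Finset.range (D + 1), (Nat.choose (m - D - 1 + j) j : ℝ) * (1 - q) ^ j) ^ 2) := by
  classical
  set Q : ℝ≥0∞ := ENNReal.ofReal q with hQdef
  have hQ1 : Q < 1 := ofReal_lt_one hq1
  have hQ0 : Q ≠ 0 := (ENNReal.ofReal_pos.2 hq0).ne'
  have hQt : Q ≠ ∞ := ENNReal.ofReal_ne_top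
  have hm := machine f hml P hP κ yc hyc M B hB h1 h2 h3 s hs A hA hf Q hQ1
  have hs2 := series_sm M B hB Q hQ1 hQ0 (ENNReal.ofReal Z) (ENNReal.ofReal_pos.2 hZ0).ne'
    ENNReal.ofReal_ne_top (by
      intro c
      have h4 : ∑ c', Q ^ (∑ x, (M c' x - M c x)) =
          ENNReal.ofReal (∑ c', q ^ (∑ x, (M c' x - M c x))) := by
        rw [ENNReal.ofReal_sum_of_nonneg (fun j _ => by positivity)]
        refine Finset.sum_congr rfl fun c' _ => ?_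
        rw [hQdef, ENNReal.ofReal_pow hq0.le]
      rw [h4]
      exact ENNReal.ofReal_le_ofReal (hZ c))
  have hrho := sum_rho_le hDm (1 - Q)
  have e0 : (1 : ℝ≥0∞) - Q = ENNReal.ofReal (1 - q) := by
    rw [hQdef, ENNReal.ofReal_sub _ hq0.le, ENNReal.ofReal_one]
  have h1q : 0 ≤ 1 - q := by linarith
  have e2 : ∑ j ∈ Finset.range (D + 1), (Nat.choose (m - D - 1 + j) j : ℝ≥0∞) *
      (1 - Q) ^ j = ENNReal.ofReal (∑ j ∈ Finset.range (D + 1),
        (Nat.choose (m - D - 1 + j) j : ℝ) * (1 - q) ^ j) := by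
    rw [ENNReal.ofReal_sum_of_nonneg (fun j _ => by positivity)]
    apply Finset.sum_congr rfl
    intro j _
    rw [e0, ENNReal.ofReal_mul (by positivity), ENNReal.ofReal_pow h1q, ENNReal.ofReal_natCast]
  have hS : 0 ≤ ∑ j ∈ Finset.range (D + 1), (Nat.choose (m - D - 1 + j) j : ℝ) * (1 - q) ^ j :=
    Finset.sum_nonneg (fun j _ => by positivity)
  rw [e2] at hrho
  set Sr : ℝ := ∑ j ∈ Finset.range (D + 1), (Nat.choose (m - D - 1 + j) j : ℝ) * (1 - q) ^ j with hSr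
  have h5 : (Fintype.card C : ℝ≥0∞) * Q ^ B ≤
      (ENNReal.ofReal Z * (r * (ENNReal.ofReal Sr) ^ 2)) * Q ^ B := by
    refine hs2.trans ?_
    calc ENNReal.ofReal Z * ((1 - Q) ^ Fintype.card Xt *
          ∑' u : Xt → ℕ, (if ∃ c, ∀ x, M c x ≤ u x then Q ^ (∑ x, u x) else 0))
        ≤ ENNReal.ofReal Z * (Q ^ B * (r * (∑ g : Fin (m - D) ↪o Fin m, (1 - Q) ^ rho g) ^ 2)) := by
          gcongr
      _ ≤ ENNReal.ofReal Z * (Q ^ B * (r * (ENNReal.ofReal Sr) ^ 2)) := by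
          gcongr
      _ = _ := by ring
  have h6 : (Fintype.card C : ℝ≥0∞) ≤ ENNReal.ofReal Z * (r * (ENNReal.ofReal Sr) ^ 2) :=
    (ENNReal.mul_le_mul_iff_left (pow_ne_zero _ hQ0) (ENNReal.pow_ne_top hQt)).1 h5
  rw [← ENNReal.ofReal_natCast (Fintype.card C), ← ENNReal.ofReal_natCast r, ← ENNReal.ofReal_pow hS,
    ← ENNReal.ofReal_mul (by positivity), ← ENNReal.ofReal_mul hZ0.le] at h6
  exact (ENNReal.ofReal_le_ofReal_iff (by positivity)).1 h6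

end

end Pool.SatDet
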